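import Pool.Agent.Work.MP_727c87_lo.Min

/-!
# MP_727c87_gt, part LOW, block ABS: taking in a family of arc halves
-/

set_option autoImplicit false

namespace Pool.CX.Low

open Set

namespace ABS

variable {S : Type}

theorem cor_union {w : WS S} {A B : Set S} (hA : Cor w A) (hB : Cor w B) : Cor w (A ∪ B) :=
  ⟨fun s => by simp only [mem_union, hA.rv, hB.rv], fun s => by simp only [mem_union, hA.mi, hB.mi],
    fun s => by simp only [mem_union, hA.pp, hB.pp]⟩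

theorem cor_inter {w : WS S} {A B : Set S} (hA : Cor w A) (hB : Cor w B) : Cor w (A ∩ B) :=
  ⟨fun s => by simp only [mem_inter_iff, hA.rv, hB.rv],
    fun s => by simp only [mem_inter_iff, hA.mi, hB.mi],
    fun s => by simp only [mem_inter_iff, hA.pp, hB.pp]⟩

/-- one arc half -/
theorem single (SUB : Stmt_SUB) (UNI : Stmt_UNI) (w : WS S) (A H B : Set S) (hA : Cor w A)
    (hfin : (cob w A).Finite) (h2 : (H \ A).Finite) (hB : ArcSet w B) (hBH : B ⊆ H) :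
    Cor w (A ∪ B) ∧ (cob w (A ∪ B)).Finite ∧ (cob w (A ∪ B)).ncard ≤ (cob w A).ncard ∧
      (¬ B ⊆ A → (cob w (A ∪ B)).ncard < (cob w A).ncard) := by
  obtain ⟨s1, s2, s3⟩ := (SUB S w A B).2 hfin hB.fin
  have hf1 : ((A ∩ B) \ B).Finite := by
    rw [sdiff_eq_empty.2 inter_subset_right]
    exact finite_empty
  have hf2 : (B \ (A ∩ B)).Finite := h2.subset fun x hx =>
    ⟨hBH hx.1, fun hxA => hx.2 ⟨hxA, hx.1⟩⟩
  obtain ⟨u1, u2⟩ := UNI S w (A ∩ B) B (cor_inter hA hB.cor) s2 hB hf1 hf2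
  refine ⟨cor_union hA hB.cor, s1, by omega, fun hne => ?_⟩
  have hne' : A ∩ B ≠ B := fun h => hne (inter_eq_right.1 h)
  have := u2 hne'
  omega

theorem finite_family (SUB : Stmt_SUB) (UNI : Stmt_UNI) (w : WS S) (A H : Set S) (hA : Cor w A)
    (hfin : (cob w A).Finite) (h2 : (H \ A).Finite) (F : Set (Set S)) (hF : F.Finite) :
    (∀ B ∈ F, ArcSet w B ∧ B ⊆ H) →
    Cor w (A ∪ ⋃₀ F) ∧ (cob w (A ∪ ⋃₀ F)).Finite ∧ (cob w (A ∪ ⋃₀ F)).ncard ≤ (cob w A).ncard ∧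
      (¬ ⋃₀ F ⊆ A → (cob w (A ∪ ⋃₀ F)).ncard < (cob w A).ncard) := by
  induction F, hF using Set.Finite.induction_on with
  | empty =>
    intro _
    simp only [sUnion_empty, union_empty]
    exact ⟨hA, hfin, le_rfl, fun h => absurd (empty_subset _) h⟩
  | @insert B F hBF hF ih =>
    intro hall
    obtain ⟨i1, i2, i3, i4⟩ := ih fun B' hB' => hall B' (mem_insert_of_mem _ hB')
    obtain ⟨hB, hBH⟩ := hall B (mem_insert _ _)
    have h2' : (H \ (A ∪ ⋃₀ F)).Finite := h2.subset fun x hx => ⟨hx.1, fun hxA => hx.2 (Or.inl hxA)⟩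
    obtain ⟨j1, j2, j3, j4⟩ := single SUB UNI w (A ∪ ⋃₀ F) H B i1 i2 h2' hB hBH
    have e : A ∪ ⋃₀ insert B F = (A ∪ ⋃₀ F) ∪ B := by
      rw [sUnion_insert, union_comm B, union_assoc]
    rw [e]
    refine ⟨j1, j2, j3.trans i3, fun hne => ?_⟩
    by_cases hF' : ⋃₀ F ⊆ A
    · have hB' : ¬ B ⊆ A := by
        intro hBA
        apply hne
        rw [sUnion_insert]
        exact union_subset hBA hF'
      have e2 : A ∪ ⋃₀ F = A := union_eq_left.2 hF'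
      have := j4 (by rw [e2]; exact hB')
      exact lt_of_lt_of_le this i3
    · exact lt_of_le_of_lt j3 (i4 hF')

end ABS

open ABS in
theorem blk_ABS (SUB : Stmt_SUB) (UNI : Stmt_UNI) : Stmt_ABS := by
  classical
  intro S w A H 𝓤 hA hfin h1 h2 h𝓤
  have hD : ((⋃₀ 𝓤) \ A).Finite := by
    refine h2.subset fun x hx => ?_
    obtain ⟨B, hB, hxB⟩ := hx.1
    exact ⟨(h𝓤 B hB).2 hxB, hx.2⟩
  have hch : ∀ x ∈ (⋃₀ 𝓤) \ A, ∃ B ∈ 𝓤, x ∈ B := fun x hx => hx.1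
  choose! c hc1 hc2 using hch
  set F : Set (Set S) := c '' ((⋃₀ 𝓤) \ A) with hFdef
  have hF : F.Finite := hD.image c
  have hFU : F ⊆ 𝓤 := by
    rintro _ ⟨x, hx, rfl⟩
    exact hc1 x hx
  have e : A ∪ ⋃₀ 𝓤 = A ∪ ⋃₀ F := by
    ext x
    constructor
    · rintro (hx | hx)
      · exact Or.inl hx
      · by_cases hxA : x ∈ A
        · exact Or.inl hxA
        · exact Or.inr ⟨c x, ⟨x, ⟨hx, hxA⟩, rfl⟩, hc2 x ⟨hx, hxA⟩⟩
    · rintro (hx | hx)
      · exact Or.inl hx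
      · exact Or.inr (sUnion_subset_sUnion hFU hx)
  obtain ⟨i1, i2, i3, i4⟩ := finite_family SUB UNI w A H hA hfin h2 F hF
    fun B hB => h𝓤 B (hFU hB)
  rw [e]
  refine ⟨i1, i2, i3, fun hne => i4 fun hsub => hne fun x hx => ?_⟩
  by_contra hxA
  exact hxA (hsub ⟨c x, ⟨x, ⟨hx, hxA⟩, rfl⟩, hc2 x ⟨hx, hxA⟩⟩)

end Pool.CX.Low
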