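import Pool.Agent.Work.MP_727c87_lo.Loc

/-!
# MP_727c87_gt, part LOW, block ARC: the halves of an arc are arc sets of the wall system
-/

set_option autoImplicit false

namespace Pool.CX

open Pool.CS Pool.W1P

variable {Mo : Model}

namespace Low

namespace ArcB

theorem adj_succ (j : ZMod 12) : G12.Adj j (j + 1) := Or.inl rfl

theorem rgc (j : ZMod 12) : rg G12 (j + 1) * rg G12 j = rg G12 j * rg G12 (j + 1) :=
  (rg_comm (adj_succ j)).symm

theorem conj_eq (w a b : W) (h : a * b = b * a) : (w * a) * b * (w * a)⁻¹ = w * b * w⁻¹ := by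
  rw [_root_.mul_inv_rev, ← mul_assoc, mul_assoc (w * a) b a⁻¹, mul_assoc w a, ← mul_assoc a b a⁻¹,
    h, mul_assoc b a a⁻¹, mul_inv_cancel, mul_one]

theorem rg_ne (j : ZMod 12) : rg G12 j ≠ rg G12 (j + 1) := by
  intro h
  have h1 : Rig G12 [j] := List.isChain_singleton _
  have h2 : Rig G12 [j + 1] := List.isChain_singleton _
  have h3 : wp G12 [j + 1] = wp G12 [j] := by
    rw [wp_cons, wp_cons, wp_nil, mul_one, mul_one, h]
  have h4 := h1.unique h2.red h3
  have h5 : j + 1 = j := (List.cons.injEq _ _ _ _ ▸ h4).1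
  have h6 : ∀ k : ZMod 12, k + 1 ≠ k := by decide
  exact h6 j h5

variable {C : Cov Mo} {M : W → ZMod 12 → ZMod 12} (dv : Dev C M)

/-- the reflection of the wall of a state -/
noncomputable def rho (s : St C) : W := match s with
  | ⟨y, false⟩ => (dv.f y).1 * rg G12 (dv.f y).2 * (dv.f y).1⁻¹
  | ⟨y, true⟩ => (dv.f y).1 * rg G12 ((dv.f y).2 + 1) * (dv.f y).1⁻¹

/-- the flag whose side is the next step of the walker -/
def nx (s : St C) : C.Y := match s with
  | ⟨y, false⟩ => C.b y
  | ⟨y, true⟩ => C.r (C.a y)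

theorem rho_sh (s : St C) : rho dv (sh C s) = rho dv s := by
  rcases s with ⟨y, _ | _⟩
  · simp only [sh, Equiv.coe_fn_mk, rho, dv.f_rs, dv.f_b, sub_add_cancel]
    exact conj_eq _ _ _ (rgc _)
  · simp only [sh, Equiv.coe_fn_mk, rho, dv.f_r, dv.f_a]
    exact conj_eq _ _ _ (rgc _).symm

theorem rho_pow (s : St C) (n : ℤ) : rho dv ((sh C ^ n) s) = rho dv s := by
  have hinv : ∀ t : St C, rho dv ((sh C)⁻¹ t) = rho dv t := by
    intro t
    have h := rho_sh dv ((sh C).symm t)
    rw [Equiv.apply_symm_apply] at h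
    exact h.symm
  induction n with
  | zero => rfl
  | succ n ih => rw [add_comm, zpow_add, zpow_one, Equiv.Perm.mul_apply, rho_sh, ih]
  | pred n ih => rw [sub_eq_neg_add, zpow_add, zpow_neg_one, Equiv.Perm.mul_apply, hinv, ih]

theorem ref_nx (s : St C) : Dev.ref dv (nx s) = rho dv s := by
  rcases s with ⟨y, _ | _⟩
  · simp only [nx, Dev.ref, rho, dv.f_b]
    exact conj_eq _ _ _ (rgc _)
  · simp only [nx, Dev.ref, rho, dv.f_r, dv.f_a]
    exact conj_eq _ _ _ (rgc _).symm

theorem ref_a (y : C.Y) : Dev.ref dv (C.a y) = Dev.ref dv y := by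
  simp only [Dev.ref, dv.f_a]
  exact conj_eq _ _ _ rfl

theorem rho_spp_ne (s : St C) : rho dv (spp C s) ≠ rho dv s := by
  rcases s with ⟨y, _ | _⟩
  · simp only [spp, rho, dv.f_a]
    rw [conj_eq _ _ _ (rgc _).symm]
    intro h
    have h1 := mul_left_cancel (mul_right_cancel h)
    exact rg_ne _ h1.symm
  · simp only [spp, rho, dv.f_b]
    rw [conj_eq _ _ _ (rgc _)]
    intro h
    have h1 := mul_left_cancel (mul_right_cancel h)
    exact rg_ne _ h1

theorem conj_mul (w a b : W) : (w * a * w⁻¹) * (w * b * w⁻¹) = w * (a * b) * w⁻¹ := by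
  group

theorem rho_spp_comm (s : St C) :
    rho dv (spp C s) * rho dv s = rho dv s * rho dv (spp C s) := by
  rcases s with ⟨y, _ | _⟩
  · simp only [spp, rho, dv.f_a]
    rw [conj_eq _ _ _ (rgc _).symm, conj_mul, conj_mul, rgc]
  · simp only [spp, rho, dv.f_b]
    rw [conj_eq _ _ _ (rgc _), conj_mul, conj_mul, rgc]

theorem mem_cob {y0 : C.Y} {B : Set C.Y} (hB : C.ArcPot y0 B) (s : St C) :
    (¬ (s ∈ up B ↔ sh C s ∈ up B)) ↔ C.SameArc y0 (nx s) := by
  rcases s with ⟨y, _ | _⟩
  · have h := hB.r (C.r.symm (C.b y))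
    rw [Equiv.apply_symm_apply, hB.b] at h
    exact not_iff_comm.mp h.symm
  · have h := hB.r (C.a y)
    rw [hB.a] at h
    change (¬ (y ∈ B ↔ C.r (C.a y) ∈ B)) ↔ C.SameArc y0 (C.r (C.a y))
    rw [iff_comm (a := y ∈ B)]
    exact not_iff_comm.mp h.symm

/-- states whose next steps cross the same side -/
theorem nx_eq (s t : St C) (h : nx t = nx s ∨ nx t = C.a (nx s)) :
    (t = s ∨ t = smi C s) ∨ t = srv C (sh C s) ∨ t = srv C (smi C (sh C s)) := by
  have hb : Function.Injective C.b := fun x y hxy => by rw [← C.b_b x, hxy, C.b_b]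
  rcases s with ⟨y, _ | _⟩ <;> rcases t with ⟨z, _ | _⟩
  · left
    simp only [nx] at h
    rcases h with h | h
    · left
      rw [hb h]
    · right
      rw [C.a_b] at h
      simp only [smi]
      rw [hb h]
  · right
    simp only [nx] at h
    simp only [sh, srv, smi, Equiv.coe_fn_mk]
    rcases h with h | h
    · left
      rw [← h, Equiv.symm_apply_apply, C.a_a]
    · right
      have h1 : C.b (C.r.symm (C.b y)) = C.a z := by
        rw [Cov.b, Equiv.apply_symm_apply, ← h, Equiv.symm_apply_apply]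
      rw [h1, C.a_a]
  · right
    simp only [nx] at h
    simp only [sh, srv, smi, Equiv.coe_fn_mk]
    rcases h with h | h
    · left
      rw [← h, C.b_b]
    · right
      rw [← h, C.b_b]
  · left
    simp only [nx] at h
    rcases h with h | h
    · left
      rw [C.a_inj (C.r.injective h)]
    · right
      have h1 : C.a z = C.b (C.a y) := by
        rw [Cov.b, ← h, Equiv.symm_apply_apply]
      simp only [smi]
      rw [← C.a_b] at h1
      rw [C.a_inj h1]

end ArcB

theorem blk_ARC (ARF : Stmt_ARF) (ART : Stmt_ART) : Stmt_ARC := by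
  intro EMB Mo C M hM dv y0 B hB
  have hcob : ∀ s : St C, s ∈ cob (fws EMB dv) (up B) ↔ C.SameArc y0 (ArcB.nx s) :=
    fun s => ArcB.mem_cob hB s
  refine ⟨⟨?_, ?_, ?_⟩, ?_, ?_, ?_⟩
  · intro s
    rcases s with ⟨y, _ | _⟩
    · exact hB.b y
    · exact hB.a y
  · intro s
    rcases s with ⟨y, _ | _⟩
    · exact hB.a y
    · exact hB.b y
  · intro s
    rcases s with ⟨y, _ | _⟩
    · exact hB.a y
    · exact hB.b y
  · have hfin := ARF Mo C y0
    refine ((hfin.image (fun z => (⟨C.b z, false⟩ : St C))).union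
      (hfin.image (fun z => (⟨C.a (C.r.symm z), true⟩ : St C)))).subset ?_
    intro s hs
    rw [hcob] at hs
    rcases s with ⟨y, _ | _⟩
    · left
      refine ⟨C.b y, hs, ?_⟩
      simp only [C.b_b]
    · right
      refine ⟨C.r (C.a y), hs, ?_⟩
      simp only [Equiv.symm_apply_apply, C.a_a]
  · intro s n hs hn
    rw [hcob] at hs hn
    have h1 : C.SameArc (ArcB.nx s) (ArcB.nx ((sh C ^ n) s)) := hs.symm.trans hn
    have h2 : Dev.ref dv (ArcB.nx ((sh C ^ n) s)) = Dev.ref dv (ArcB.nx s) := by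
      rw [ArcB.ref_nx, ArcB.ref_nx, ArcB.rho_pow]
    have h3 : ArcB.nx ((sh C ^ n) s) = ArcB.nx s ∨ ArcB.nx ((sh C ^ n) s) = C.a (ArcB.nx s) := by
      rcases ART Mo C M hM dv _ _ h1 with h | h | h
      · exact Or.inl h
      · exact Or.inr h
      · rw [h2] at h
        exact absurd rfl h
    have hrv := (fws EMB dv).h_rv s
    have hmi := (fws EMB dv).h_mi s
    have hrvm := (fws EMB dv).h_rv ((fws EMB dv).mi s)
    rcases ArcB.nx_eq s ((sh C ^ n) s) h3 with h | h
    · refine EMB Mo C M dv s n ?_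
      rcases h with h | h
      · exact Or.inl h
      · exact Or.inr (Or.inr (Or.inl h))
    · exfalso
      have h4 : n - 1 = 0 := by
        refine EMB Mo C M dv (sh C s) (n - 1) ?_
        have h5 : (sh C ^ (n - 1)) (sh C s) = (sh C ^ n) s := by
          rw [zpow_sub_one, Equiv.Perm.mul_apply]
          have h8 : (sh C)⁻¹ (sh C s) = s := (sh C).symm_apply_apply s
          rw [h8]
        rw [h5]
        rcases h with h | h
        · exact Or.inr (Or.inl h)
        · exact Or.inr (Or.inr (Or.inr (Or.inl h)))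
      have h6 : n + 1 = 0 := by
        refine EMB Mo C M dv s (n + 1) ?_
        have h5 : (sh C ^ (n + 1)) s = sh C ((sh C ^ n) s) := by
          rw [add_comm, zpow_add, zpow_one, Equiv.Perm.mul_apply]
        rw [h5]
        rcases h with h | h
        · right; left
          rw [h]
          exact hrv
        · right; right; right; left
          rw [h]
          have h7 : smi C (sh C s) = sh C (smi C s) := hmi.symm
          rw [h7]
          exact hrvm
      omega
  · intro s n m hn hm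
    rw [hcob] at hn hm
    have h1 : C.SameArc (ArcB.nx ((sh C ^ n) s)) (ArcB.nx ((sh C ^ m) (spp C s))) := hn.symm.trans hm
    have h2 : Dev.ref dv (ArcB.nx ((sh C ^ n) s)) = ArcB.rho dv s := by
      rw [ArcB.ref_nx, ArcB.rho_pow]
    have h3 : Dev.ref dv (ArcB.nx ((sh C ^ m) (spp C s))) = ArcB.rho dv (spp C s) := by
      rw [ArcB.ref_nx, ArcB.rho_pow]
    rcases ART Mo C M hM dv _ _ h1 with h | h | h
    · rw [h, h2] at h3
      exact ArcB.rho_spp_ne dv s h3.symm
    · rw [h, ArcB.ref_a, h2] at h3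
      exact ArcB.rho_spp_ne dv s h3.symm
    · rw [h2, h3] at h
      exact h (ArcB.rho_spp_comm dv s).symm

end Low

end Pool.CX
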