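import Pool.Agent.Work.MP_727c87_lo.Loc
import Pool.Agent.Work.MP_727c87_up.Up4

/-! # MP_727c87_gt, part LOW, block ARQ (helper78) -/

set_option autoImplicit false

namespace Pool.CX

open Pool.CS Pool.W1P

namespace Low

namespace ARQ

variable {Mo : Model} {C : Cov Mo}

theorem mu_ne (y : C.Y) : Mo.mu (C.p y).1 (C.p y).2 ≠ (C.p y).2 := by
  intro h
  have h1 := (Mo.good (C.p y).1).far (C.p y).2
  rw [h] at h1
  revert h1
  generalize (C.p y).2 = i
  revert i
  decide

theorem d_pos (y : C.Y) : 0 < (Mo.mu (C.p y).1 (C.p y).2 - (C.p y).2).val := by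
  rw [Nat.pos_iff_ne_zero]
  intro h
  exact mu_ne y (sub_eq_zero.1 ((ZMod.val_eq_zero _).1 h))

theorem sameArc_pow (hC : C.Univ) {y : C.Y} (hy : (C.p y).1 ∉ Mo.D) {j : ℕ} (h1 : 1 ≤ j) (h12 : j < 12) :
    C.SameArc y ((C.r ^ j) y) ↔ j = (Mo.mu (C.p y).1 (C.p y).2 - (C.p y).2).val := by
  constructor
  · intro h
    have e1 : (UP.fs hC).fl y ((C.p y).2 + j) = (C.r ^ j) y := ((UP.fs hC).pow_eq_fl hy j).symm
    have h2 : (UP.fs hC).Arc y ((UP.fs hC).fl y ((C.p y).2 + j)) := by rw [e1]; exact h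
    have h3 := (UP.fs hC).arc_chamber hy h2
    rw [e1] at h3
    have hlt : ((j : ℕ) : ZMod 12).val = j := by rw [ZMod.val_natCast]; exact Nat.mod_eq_of_lt h12
    rcases h3 with h3 | h3
    · exfalso
      have h4 := congrArg (fun z => (C.p z).2) h3
      simp only [Cov.p_pow] at h4
      have h5 : ((j : ℕ) : ZMod 12) = 0 := by
        have := add_eq_left.mp h4
        exact this
      rw [h5] at hlt
      simp at hlt
      omega
    · have h4 : (C.r ^ j) y = C.m y := h3
      have h5 := congrArg (fun z => (C.p z).2) h4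
      simp only [Cov.p_pow, Cov.p_m] at h5
      rw [← h5, add_sub_cancel_left, hlt]
  · intro h
    rw [h]
    exact C.sameArc_m y hy

end ARQ

open ARQ in
theorem blk_ARQ : Stmt_ARQ := by
  intro Mo C hC y B hy hB k
  set d := (Mo.mu (C.p y).1 (C.p y).2 - (C.p y).2).val with hd
  have hd0 : 0 < d := d_pos y
  induction k with
  | zero =>
    intro _
    simp [hd0]
  | succ k ih =>
    intro hk
    have ih' := ih (by omega)
    have h1 := hB.r ((C.r ^ k) y)
    have e : C.r ((C.r ^ k) y) = (C.r ^ (k + 1)) y := by rw [pow_succ', Equiv.Perm.mul_apply]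
    rw [e, sameArc_pow hC hy (by omega) hk, ← hd] at h1
    by_cases hkd : k + 1 = d
    · have h2 : ¬ ((C.r ^ (k + 1)) y ∈ B ↔ (C.r ^ k) y ∈ B) := fun h => (h1.1 h) hkd
      have h3 : (C.r ^ k) y ∈ B ↔ y ∈ B := ih'.2 (by omega)
      rw [h3] at h2
      constructor
      · intro h; exact absurd h h2
      · intro h; omega
    · have h2 : (C.r ^ (k + 1)) y ∈ B ↔ (C.r ^ k) y ∈ B := h1.2 hkd
      rw [h2, ih']
      omega

end Low

end Pool.CX
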