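import Pool.Agent.Work.MP_727c87_lo.Loc

/-!
# MP_727c87_gt, part LOW, block ART (helper40)

Different sides of one arc have non-commuting reflections.
-/

set_option autoImplicit false

namespace Pool.CX

open Pool.CS Pool.W1P Relation

variable {Mo : Model}

namespace Low

namespace ART

/-- one step along an arc -/
def Fwd (C : Cov Mo) (v w : C.Y) : Prop := (C.p v).1 ∉ Mo.D ∧ w = C.a (C.m v)

theorem m_fst (C : Cov Mo) (y : C.Y) : (C.p (C.m y)).1 = (C.p y).1 := by rw [C.p_m]

theorem fwd_m {C : Cov Mo} {y : C.Y} (h : (C.p y).1 ∉ Mo.D) : Fwd C (C.m y) (C.a y) :=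
  ⟨by rw [m_fst]; exact h, by rw [Cov.m_m C y h]⟩

theorem fwd_a {C : Cov Mo} {v w : C.Y} (h : Fwd C v (C.a w)) :
    v = C.m w ∧ (C.p w).1 ∉ Mo.D := by
  obtain ⟨h1, h2⟩ := h
  have h3 : w = C.m v := C.a_inj h2
  subst h3
  exact ⟨(Cov.m_m C v h1).symm, by rw [m_fst]; exact h1⟩

/-- flags of an arc are joined by a walk, up to `a` at both ends -/
theorem arc_cases {C : Cov Mo} {z w : C.Y} (h : C.SameArc z w) :
    ∃ z' w', (z' = z ∨ z' = C.a z) ∧ (w' = w ∨ w' = C.a w) ∧ ReflTransGen (Fwd C) z' w' := by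
  let Gen : C.Y → C.Y → Prop := fun y y' => y' = C.a y ∨ ((C.p y).1 ∉ Mo.D ∧ y' = C.m y)
  have key : ∀ w v, Gen w v →
      (∃ z' w', (z' = z ∨ z' = C.a z) ∧ (w' = w ∨ w' = C.a w) ∧ ReflTransGen (Fwd C) z' w') →
      (∃ z' w', (z' = z ∨ z' = C.a z) ∧ (w' = v ∨ w' = C.a v) ∧ ReflTransGen (Fwd C) z' w') := by
    rintro w v (rfl | ⟨hnd, rfl⟩) ⟨z', w', hz, hw, hr⟩
    · exact ⟨z', w', hz, by rw [C.a_a]; exact hw.symm, hr⟩
    · rcases hw with rfl | rfl
      · exact ⟨z', C.a (C.m w'), hz, Or.inr rfl, hr.tail ⟨hnd, rfl⟩⟩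
      · rcases ReflTransGen.cases_tail hr with h0 | ⟨v, hv, hv2⟩
        · refine ⟨C.a z', C.a (C.m w), ?_, Or.inr rfl, ?_⟩
          · rcases hz with rfl | rfl
            · exact Or.inr rfl
            · exact Or.inl (C.a_a z)
          · have : C.a z' = w := by rw [← h0, C.a_a]
            rw [this]
            exact ReflTransGen.single ⟨hnd, rfl⟩
        · obtain ⟨h1, _⟩ := fwd_a hv2
          subst h1
          exact ⟨z', C.m w, hz, Or.inl rfl, hv⟩
  have hsymm : ∀ w v, Gen w v → Gen v w := by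
    rintro w v (rfl | ⟨hnd, rfl⟩)
    · exact Or.inl (C.a_a w).symm
    · exact Or.inr ⟨by rw [m_fst]; exact hnd, (Cov.m_m C w hnd).symm⟩
  have h2 : ReflTransGen Gen z w := by
    have : ReflTransGen Gen z w ∧ ReflTransGen Gen w z := by
      clear key
      induction h with
      | rel x y h => exact ⟨ReflTransGen.single h, ReflTransGen.single (hsymm _ _ h)⟩
      | refl x => exact ⟨ReflTransGen.refl, ReflTransGen.refl⟩
      | symm x y _ ih => exact ⟨ih.2, ih.1⟩
      | trans x y z _ _ ih1 ih2 => exact ⟨ih1.1.trans ih2.1, ih2.2.trans ih1.2⟩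
    exact this.1
  clear h
  induction h2 with
  | refl => exact ⟨z, z, Or.inl rfl, Or.inl rfl, ReflTransGen.refl⟩
  | tail _ hg ih => exact key _ _ hg ih

/-- the word of a walk -/
theorem reach_word {C : Cov Mo} {M : W → ZMod 12 → ZMod 12} (hM : ∀ w, Good (M w)) (dv : Dev C M)
    {z w : C.Y} (h : ReflTransGen (Fwd C) z w) :
    ∃ u : List (ZMod 12), ((dv.f z).2 :: u).IsChain Far ∧
      (dv.f w).1 = (dv.f z).1 * wp G12 u ∧ (dv.f w).2 = lst (dv.f z).2 u ∧ (u = [] → w = z) := by
  induction h using ReflTransGen.head_induction_on with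
  | refl => exact ⟨[], List.isChain_singleton _, by rw [wp_nil, mul_one], rfl, fun _ => rfl⟩
  | @head z v h1 _ ih =>
    obtain ⟨u, hu1, hu2, hu3, -⟩ := ih
    obtain ⟨hnd, rfl⟩ := h1
    have e : dv.f (C.a (C.m z)) = ((dv.f z).1 * rg G12 (M (dv.f z).1 (dv.f z).2),
        M (dv.f z).1 (dv.f z).2) := by
      rw [dv.f_a, dv.f_m z hnd]
      rfl
    rw [e] at hu1 hu2 hu3
    simp only at hu1 hu2 hu3
    refine ⟨M (dv.f z).1 (dv.f z).2 :: u, ?_, ?_, ?_, by simp⟩
    · exact List.isChain_cons_cons.mpr ⟨(hM _).far _, hu1⟩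
    · rw [hu2, wp_cons, mul_assoc]
    · rw [hu3, lst_cons]

theorem ref_a {C : Cov Mo} {M : W → ZMod 12 → ZMod 12} (dv : Dev C M) (y : C.Y) :
    Dev.ref dv (C.a y) = Dev.ref dv y := by
  unfold Dev.ref
  rw [dv.f_a]
  simp only
  group

theorem far_symm {i j : ZMod 12} (h : Far i j) : Far j i := by
  revert i j; decide

theorem far_irrefl {i : ZMod 12} (h : Far i i) : False := by
  revert i; decide

end ART

theorem blk_ART : Stmt_ART := by
  intro Mo C M hM dv y z h
  obtain ⟨y', z', hy, hz, hr⟩ := ART.arc_cases h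
  have hry : Dev.ref dv y' = Dev.ref dv y := by
    rcases hy with rfl | rfl
    · rfl
    · exact ART.ref_a dv y
  have hrz : Dev.ref dv z' = Dev.ref dv z := by
    rcases hz with rfl | rfl
    · rfl
    · exact ART.ref_a dv z
  obtain ⟨u, hu1, hu2, hu3, hu4⟩ := ART.reach_word hM dv hr
  rcases List.eq_nil_or_concat u with rfl | ⟨v, t, rfl⟩
  · have e := hu4 rfl
    subst e
    rcases hy with rfl | rfl
    · rcases hz with e | e
      · exact Or.inl e.symm
      · refine Or.inr (Or.inl ?_)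
        rw [e, C.a_a]
    · rcases hz with e | e
      · exact Or.inr (Or.inl e.symm)
      · exact Or.inl (C.a_inj e).symm
  · refine Or.inr (Or.inr fun hcomm => ?_)
    rw [List.concat_eq_append] at hu1 hu2 hu3
    rw [lst_concat] at hu3
    rw [← hry, ← hrz] at hcomm
    set t0 := (dv.f y').2 with ht0
    set g := (dv.f y').1 with hg
    have e1 : Dev.ref dv y' = g * rg G12 t0 * g⁻¹ := rfl
    have e2 : Dev.ref dv z' = g * wp G12 (v ++ t :: v.reverse) * g⁻¹ := by
      unfold Dev.ref
      rw [hu2, hu3, wp_append, wp_append, wp_cons, wp_cons, wp_nil, mul_one, wp_reverse]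
      group
    have e3 : wp G12 (t0 :: (v ++ t :: v.reverse)) = wp G12 ((v ++ t :: v.reverse) ++ [t0]) := by
      rw [wp_cons, wp_append _ (v ++ t :: v.reverse), wp_cons, wp_nil, mul_one]
      rw [e1, e2] at hcomm
      have h3 : g * rg G12 t0 * g⁻¹ * (g * wp G12 (v ++ t :: v.reverse) * g⁻¹) =
          g * (rg G12 t0 * wp G12 (v ++ t :: v.reverse)) * g⁻¹ := by group
      have h4 : g * wp G12 (v ++ t :: v.reverse) * g⁻¹ * (g * rg G12 t0 * g⁻¹) =
          g * (wp G12 (v ++ t :: v.reverse) * rg G12 t0) * g⁻¹ := by group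
      rw [h3, h4] at hcomm
      exact mul_left_cancel (mul_right_cancel hcomm)
    -- the chains
    have c1 : ((t0 :: v) ++ [t]).IsChain Far := by simpa using hu1
    have c2 : (([t] ++ (v.reverse ++ [t0])) : List (ZMod 12)).IsChain Far := by
      have : (t0 :: (v ++ [t])).reverse.IsChain Far :=
        List.isChain_reverse.mpr (List.IsChain.imp (fun _ _ h => ART.far_symm h) hu1)
      simpa using this
    have c3 := c1.append_overlap c2 (List.cons_ne_nil _ _)
    have c4 : (t0 :: (v ++ t :: v.reverse)).IsChain Far := by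
      have : ((t0 :: v) ++ [t] ++ (v.reverse ++ [t0])) =
          (t0 :: (v ++ t :: v.reverse)) ++ [t0] := by simp
      rw [this] at c3
      exact c3.left_of_append
    have c5 : ((v ++ t :: v.reverse) ++ [t0]).IsChain Far := by
      have : ((t0 :: v) ++ [t] ++ (v.reverse ++ [t0])) =
          t0 :: ((v ++ t :: v.reverse) ++ [t0]) := by simp
      rw [this] at c3
      exact c3.tail
    have h5 := (rig_of_far c4).unique (rig_of_far c5).red e3.symm
    rcases v with _ | ⟨s, v⟩
    · simp only [List.nil_append, List.reverse_nil, List.cons_append, List.cons.injEq] at h5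
      have h6 := (List.isChain_cons_cons.mp hu1).1
      rw [h5.1] at h6
      exact ART.far_irrefl h6
    · simp only [List.cons_append, List.cons.injEq] at h5
      have h6 := (List.isChain_cons_cons.mp hu1).1
      rw [h5.1] at h6
      exact ART.far_irrefl h6

end Low

end Pool.CX
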