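import Pool.Agent.Work.MP_727c87_lo.Border

set_option autoImplicit false

/-! # CNT: the final counting, `Stmt_TRK`, `Stmt_STRX`, `Stmt_RCX` imply `Stmt_LOW` -/

namespace Pool.CX

open Pool.CS Pool.W1P

namespace CNT

section
variable {Mo : Model} (C : Cov Mo)

/-- chambers reached from `q` by words of length at most `n` -/
def Ball (L : LS G12 Mo.Q) (q : Mo.Q) (n : ℕ) : Set Mo.Q := {q' | ∃ l : List (ZMod 12), l.length ≤ n ∧ act L q l = q'}

theorem elem_ball {q : Mo.Q} {n : ℕ} {z z' : C.Y} (h : (C.p z).1 ∈ Ball Mo.L q n) (hz : C.Elem z z') :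
    (C.p z').1 ∈ Ball Mo.L q (n + 1) := by
  obtain ⟨l, hl, he⟩ := h
  rcases hz with rfl | rfl | rfl
  · refine ⟨l ++ [(C.p z).2], by rw [List.length_append]; simpa using hl, ?_⟩
    rw [act_append, he, C.p_a]
    rfl
  · refine ⟨l, by omega, ?_⟩
    rw [he, C.p_r]
    rfl
  · refine ⟨l, by omega, ?_⟩
    rw [he, C.p_rsymm]
    rfl

/-- paths as lists of moves: there is a path of `n` moves from `y` to `z` -/
def PN : ℕ → C.Y → C.Y → Prop
  | 0, y, z => y = z
  | n + 1, y, z => ∃ u, PN n y u ∧ C.Elem u z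

theorem PN.trans {m n : ℕ} {x y z : C.Y} (h : PN C m x y) (h' : PN C n y z) : PN C (m + n) x z := by
  induction n generalizing z with
  | zero => have : y = z := h'; rw [← this]; exact h
  | succ n ih =>
    obtain ⟨u, h1, h2⟩ := h'
    exact ⟨u, ih h1, h2⟩

theorem PN.b (y : C.Y) : PN C 3 y (C.b y) :=
  ⟨C.a (C.r y), ⟨C.r y, ⟨y, rfl, Or.inr (Or.inl rfl)⟩, Or.inl rfl⟩, Or.inr (Or.inr rfl)⟩

theorem PN.c (y : C.Y) : PN C 3 y (C.c y) :=
  ⟨C.a (C.r.symm y), ⟨C.r.symm y, ⟨y, rfl, Or.inr (Or.inr rfl)⟩, Or.inl rfl⟩, Or.inr (Or.inl rfl)⟩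

theorem PN.wallR (y : C.Y) (n : ℕ) : PN C (3 * n) y (C.wallR y n) := by
  induction n with
  | zero => exact rfl
  | succ n ih =>
    rw [Nat.mul_succ, Cov.wallR]
    split_ifs
    · exact ih.trans C (PN.b C _)
    · exact ih.trans C (PN.c C _)

/-- a path leaving a set closed under `a` crosses a boundary side, in the ball -/
theorem exit {y z : C.Y} {n : ℕ} (h : PN C n y z) (A : Set C.Y) (hA : ∀ y, C.a y ∈ A ↔ y ∈ A) (hy : y ∈ A)
    (hz : z ∉ A) : ∃ u, ¬ (C.r u ∈ A ↔ u ∈ A) ∧ (C.p u).1 ∈ Ball Mo.L (C.p y).1 n := by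
  have main : ∀ (n : ℕ) (z : C.Y), PN C n y z → (C.p z).1 ∈ Ball Mo.L (C.p y).1 n ∧
      (z ∉ A → ∃ u, ¬ (C.r u ∈ A ↔ u ∈ A) ∧ (C.p u).1 ∈ Ball Mo.L (C.p y).1 n) := by
    intro n
    induction n with
    | zero =>
      intro z h
      have : y = z := h
      rw [← this]
      exact ⟨⟨[], le_rfl, rfl⟩, fun h' => absurd hy h'⟩
    | succ n ih =>
      intro z h
      obtain ⟨w, h1, h2⟩ := h
      obtain ⟨h3, h4⟩ := ih w h1
      have mono : Ball Mo.L (C.p y).1 n ⊆ Ball Mo.L (C.p y).1 (n + 1) :=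
        fun q ⟨l, hl, he⟩ => ⟨l, by omega, he⟩
      refine ⟨elem_ball C h3 h2, fun hz => ?_⟩
      by_cases hw : w ∈ A
      · rcases h2 with rfl | rfl | rfl
        · exact absurd ((hA w).2 hw) hz
        · exact ⟨w, fun hh => hz (hh.2 hw), mono h3⟩
        · refine ⟨C.r.symm w, fun hh => hz (hh.1 ?_), ?_⟩
          · rw [Equiv.apply_symm_apply]; exact hw
          · exact elem_ball C h3 (Or.inr (Or.inr rfl))
      · obtain ⟨u, hu, hu'⟩ := h4 hw
        exact ⟨u, hu, mono hu'⟩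
  exact (main n z h).2 hz

end

/-- counting: if every chamber of `G` has a member of `T` in its ball of radius `n`, then `|G| ≤ c |T|` -/
theorem ball_count {Q : Type} [Finite Q] (L : LS G12 Q) (n : ℕ) (G T : Set Q)
    (h : ∀ q ∈ G, ∃ l : List (ZMod 12), l.length ≤ n ∧ act L q l ∈ T) :
    G.ncard ≤ {l : List (ZMod 12) | l.length ≤ n}.ncard * T.ncard := by
  classical
  have hfin : {l : List (ZMod 12) | l.length ≤ n}.Finite := List.finite_length_le (ZMod 12) n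
  have hT : T.Finite := Set.toFinite T
  have hback : ∀ (l : List (ZMod 12)) (q : Q), act L (act L q l) l.reverse = q := by
    intro l
    induction l with
    | nil => intro q; rfl
    | cons a l ih =>
      intro q
      rw [List.reverse_cons, act_append]
      have h1 : act L q (a :: l) = act L (L.τ a q) l := rfl
      rw [h1, ih]
      exact L.inv a q
  have hsub : G ⊆ (fun x : List (ZMod 12) × Q => act L x.2 x.1) ''
      ({l : List (ZMod 12) | l.length ≤ n} ×ˢ T) := by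
    intro q hq
    obtain ⟨l, hl, hlT⟩ := h q hq
    exact ⟨(l.reverse, act L q l), ⟨by simpa using hl, hlT⟩, hback l q⟩
  calc G.ncard ≤ ((fun x : List (ZMod 12) × Q => act L x.2 x.1) ''
      ({l : List (ZMod 12) | l.length ≤ n} ×ˢ T)).ncard :=
        Set.ncard_le_ncard hsub ((hfin.prod hT).image _)
    _ ≤ ({l : List (ZMod 12) | l.length ≤ n} ×ˢ T).ncard := Set.ncard_image_le (hfin.prod hT)
    _ = _ := Set.ncard_prod

end CNT

open CNT in
/-- **CNT** -/
theorem low_of (hC1 : Stmt_TRK) (hS : Stmt_STRX) (hR : W1.Stmt_RCX) : Stmt_LOW := by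
  classical
  intro K
  obtain ⟨K1, K2, hN⟩ := hC1 K
  obtain ⟨K3, hStr⟩ := hS K1 K2
  set n0 : ℕ := 3 * K2 + 2 with hn0
  set n1 : ℕ := 3 * n0 + 2 with hn1
  set cW : ℕ := {l : List (ZMod 12) | l.length ≤ n1}.ncard with hcW
  have hfin : {l : List (ZMod 12) | l.length ≤ n1}.Finite := List.finite_length_le (ZMod 12) n1
  have hcW0 : 0 < cW := (Set.ncard_pos hfin).2 ⟨[], Nat.zero_le _⟩
  have hcWr : (0 : ℝ) < cW := by exact_mod_cast hcW0
  obtain ⟨a, ha, R, hrc⟩ := hR K3 (1 / (4 * cW)) (by positivity)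
  obtain ⟨s0, hs0⟩ := exists_nat_gt (12 / a)
  set s : ℕ := max (s0 + 1) (12 * (4 * cW)) with hs
  obtain ⟨N, hFine⟩ := hN s
  obtain ⟨Q, hQf, hQn, L, ε, hconn, hinj, -⟩ := exists_tiling (max (max R N) (max 12 s))
  have := hQf
  have := hQn
  let _ : Fintype Q := Fintype.ofFinite Q
  obtain ⟨mu, hgood, hmu⟩ := hrc Q L (fun q l hl => hinj q l (hl.trans (le_max_of_le_left (le_max_left _ _))))
  have hspos : 0 < s := lt_of_lt_of_le (Nat.succ_pos _) (le_max_left _ _)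
  obtain ⟨D, hDc, hDcut⟩ := exists_defects L mu hgood (max (max R N) (max 12 s)) s
    (fun q l hl => hinj q l hl) hspos (by
      have : s ≤ max (max R N) (max 12 s) := le_max_of_le_right (le_max_right _ _)
      omega)
  let Mo : Model := mkModel L hconn
    (fun q l hl => hinj q l (hl.trans (le_max_of_le_right (le_max_left _ _)))) mu hgood (D : Set Q)
    (fun y => by
      obtain ⟨n, -, h⟩ := hDcut y
      exact ⟨n, h⟩)
  have hMoFine : Mo.Fine s N :=
    { inj := fun q l hl => hinj q l (hl.trans (le_max_of_le_left (le_max_right _ _)))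
      cut := hDcut }
  refine ⟨Mo, ?_⟩
  intro h Λ l hh
  by_contra hno
  push Not at hno
  have hsmall : l.Small K := fun y y' i j i' j' h1 h2 h3 => by
    have := hno y y' i j i' j' h1 h2 h3
    simpa using this
  obtain ⟨C, hC⟩ := uce Mo
  obtain ⟨yb⟩ := hC.ne
  obtain ⟨dv, -, hp⟩ := hC.exists_dev yb
  obtain ⟨T⟩ := hFine Mo hMoFine h Λ l hh hsmall C hC _ dv hp
  obtain ⟨A, S, hncr, hAa, hA1, hAs⟩ := hStr Mo C hC _ dv hp T
  -- the size of the reached set
  have hcardpos : (0 : ℝ) < Nat.card Q := by exact_mod_cast Nat.card_pos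
  have hcardeq : Nat.card Q = Fintype.card Q := Nat.card_eq_fintype_card
  have hDs : (D.card : ℝ) * s ≤ 12 * Nat.card Q := by
    rw [hcardeq]
    exact_mod_cast hDc
  have hsr : (0 : ℝ) < s := by exact_mod_cast hspos
  have hDncard : ((D : Set Q).ncard : ℝ) = D.card := by rw [Set.ncard_coe_finset]
  have hZ : ((Mo.D).ncard : ℝ) ≤ a * Nat.card Q := by
    change ((D : Set Q).ncard : ℝ) ≤ _
    rw [hDncard]
    have h1 : (12 / a : ℝ) ≤ s := by
      have h2 : ((s0 + 1 : ℕ) : ℝ) ≤ s := by exact_mod_cast le_max_left _ _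
      push_cast at h2
      linarith
    have h3 : 12 ≤ a * s := by
      rw [div_le_iff₀ ha] at h1
      linarith
    have h4 : (D.card : ℝ) * s ≤ (a * Nat.card Q) * s := by nlinarith
    exact le_of_mul_le_mul_right h4 hsr
  have hreach := hmu S hncr Mo.D hZ
  -- bad chambers
  have hDsmall : ((D : Set Q).ncard : ℝ) ≤ 1 / (4 * cW) * Nat.card Q := by
    rw [hDncard]
    have h1 : (12 * (4 * cW) : ℝ) ≤ s := by
      have : (12 * (4 * cW) : ℕ) ≤ s := le_max_right _ _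
      exact_mod_cast this
    have h2 : (D.card : ℝ) * (12 * (4 * cW)) ≤ 12 * Nat.card Q :=
      le_trans (mul_le_mul_of_nonneg_left h1 (Nat.cast_nonneg _)) hDs
    rw [div_mul_eq_mul_div, one_mul, le_div_iff₀ (by positivity)]
    linarith
  -- every chamber has a defect or a reached chamber in its ball
  have hkey : ∀ q ∈ (Set.univ : Set Q), ∃ l : List (ZMod 12), l.length ≤ n1 ∧
      act L q l ∈ W1.lreach L mu S (D : Set Q) K3 ∪ (D : Set Q) := by
    intro q _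
    by_contra hq
    push Not at hq
    have hq1 : ∀ q' ∈ Ball (Mo := Mo) Mo.L q n1, q' ∉ Mo.D ∧ q' ∉ W1.lreach Mo.L Mo.mu S Mo.D K3 := by
      rintro q' ⟨l, hl, rfl⟩
      exact ⟨fun h5 => hq l hl (Or.inr h5), fun h5 => hq l hl (Or.inl h5)⟩
    obtain ⟨y, hy⟩ := hC.p_surj ((q, 0) : Mo.F)
    set y' := C.wallR y n0 with hy'
    obtain ⟨B, hBa, hBb, hBr⟩ := hC.arc_sides y
    obtain ⟨B', hBa', hBb', hBr'⟩ := hC.arc_sides y'
    have hfar : ¬ PF.Dle (Mo.pmu (C.p yb).1) K2 (dv.f y) (dv.f y') := by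
      intro hd
      have h1 := hd.runs (Mo.mu_inv _)
      rw [hy', dv.f_wallR] at h1
      have h2 := alt_le (Mo.mu_farG _) _ K2 (Dev.pm_ne _).symm (fun e => Dev.pm_not_adj _ e.symm)
        (fun e => Dev.pm_not_far _ e.symm) n0 h1
      omega
    obtain ⟨c, hc1, hc2⟩ := T.complete y y' B B' hfar ⟨hBa, hBb, hBr⟩ ⟨hBa', hBb', hBr'⟩
    have hm := hA1 c y B ⟨hBa, hBb, hBr⟩
    have hm' := hA1 c y' B' ⟨hBa', hBb', hBr'⟩
    have hd1 : B ⊆ A c ∨ Bᶜ ⊆ A c := hc1.imp hm.1 hm.2.1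
    have hd2 : B' ⊆ (A c)ᶜ ∨ B'ᶜ ⊆ (A c)ᶜ := hc2.imp hm'.2.2.1 hm'.2.2.2
    have hside : ∀ (y : C.Y) (B : Set C.Y), (∀ z, (C.r z ∈ B ↔ z ∈ B) ↔ ¬ C.SameArc y (C.r z)) →
        ¬ (y ∈ B ↔ C.r.symm y ∈ B) := by
      intro y B hB hh
      have h1 := (hB (C.r.symm y)).1 (by rw [Equiv.apply_symm_apply]; exact hh)
      rw [Equiv.apply_symm_apply] at h1
      exact h1 (Cov.SameArc.refl C y)
    have hs1 := hside y B hBr
    have hs2 := hside y' B' hBr'
    obtain ⟨u0, hu0, hu0A⟩ : ∃ u0, (u0 = y ∨ u0 = C.r.symm y) ∧ u0 ∈ A c := by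
      rcases hd1 with h1 | h1
      · by_cases h2 : y ∈ B
        · exact ⟨y, Or.inl rfl, h1 h2⟩
        · refine ⟨C.r.symm y, Or.inr rfl, h1 ?_⟩
          by_contra h3
          exact hs1 ⟨fun h4 => absurd h4 h2, fun h4 => absurd h4 h3⟩
      · by_cases h2 : y ∈ B
        · refine ⟨C.r.symm y, Or.inr rfl, h1 ?_⟩
          intro h3
          exact hs1 ⟨fun _ => h3, fun _ => h2⟩
        · exact ⟨y, Or.inl rfl, h1 h2⟩
    obtain ⟨u1, hu1, hu1A⟩ : ∃ u1, (u1 = y' ∨ u1 = C.r.symm y') ∧ u1 ∉ A c := by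
      rcases hd2 with h1 | h1
      · by_cases h2 : y' ∈ B'
        · exact ⟨y', Or.inl rfl, h1 h2⟩
        · refine ⟨C.r.symm y', Or.inr rfl, h1 ?_⟩
          by_contra h3
          exact hs2 ⟨fun h4 => absurd h4 h2, fun h4 => absurd h4 h3⟩
      · by_cases h2 : y' ∈ B'
        · refine ⟨C.r.symm y', Or.inr rfl, h1 ?_⟩
          intro h3
          exact hs2 ⟨fun _ => h3, fun _ => h2⟩
        · exact ⟨y', Or.inl rfl, h1 h2⟩
    -- the path from `u0` to `u1`
    have hpath : ∃ n ≤ n1, PN C n u0 u1 := by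
      have h1 : ∃ n ≤ 1, PN C n u0 y := by
        rcases hu0 with rfl | rfl
        · exact ⟨0, by omega, rfl⟩
        · exact ⟨1, le_rfl, C.r.symm y, rfl, Or.inr (Or.inl (by rw [Equiv.apply_symm_apply]))⟩
      have h2 : ∃ n ≤ 1, PN C n y' u1 := by
        rcases hu1 with h | h
        · exact ⟨0, by omega, h.symm⟩
        · exact ⟨1, le_rfl, y', rfl, Or.inr (Or.inr h)⟩
      obtain ⟨n2, hn2, h3⟩ := h1
      obtain ⟨n3, hn3, h4⟩ := h2
      exact ⟨n2 + 3 * n0 + n3, by omega, (h3.trans C (PN.wallR C y n0)).trans C h4⟩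
    obtain ⟨n, hn, hpn⟩ := hpath
    obtain ⟨u, hu, hub⟩ := CNT.exit C hpn (A c) (hAa c) hu0A hu1A
    have hpu0 : (C.p u0).1 = q := by
      rcases hu0 with rfl | rfl
      · rw [hy]
      · rw [C.p_rsymm, hy]; rfl
    rw [hpu0] at hub
    have hub' : (C.p u).1 ∈ Ball (Mo := Mo) Mo.L q n1 := by
      obtain ⟨l, hl, he⟩ := hub
      exact ⟨l, hl.trans hn, he⟩
    obtain ⟨h6, h7⟩ := hq1 _ hub'
    exact h7 (hAs c u hu h6)
  have hcount := ball_count L n1 Set.univ (W1.lreach L mu S (D : Set Q) K3 ∪ (D : Set Q)) hkey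
  rw [Set.ncard_univ] at hcount
  have h8 : ((W1.lreach L mu S (D : Set Q) K3 ∪ (D : Set Q)).ncard : ℝ) ≤
      (W1.lreach L mu S (D : Set Q) K3).ncard + (D : Set Q).ncard := by
    rw [← Nat.cast_add]
    exact Nat.cast_le.2 (Set.ncard_union_le _ _)
  have h9 : (Nat.card Q : ℝ) ≤ cW * ((W1.lreach L mu S (D : Set Q) K3 ∪ (D : Set Q)).ncard : ℝ) := by
    exact_mod_cast hcount
  have h10 : ((W1.lreach L mu S (D : Set Q) K3).ncard : ℝ) < 1 / (4 * cW) * Nat.card Q := hreach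
  have h11 : (cW : ℝ) * (1 / (4 * cW) * Nat.card Q + 1 / (4 * cW) * Nat.card Q) = Nat.card Q / 2 := by
    field_simp
    ring
  have h12 : (cW : ℝ) * ((W1.lreach L mu S (D : Set Q) K3 ∪ (D : Set Q)).ncard : ℝ) ≤
      cW * (1 / (4 * cW) * Nat.card Q + 1 / (4 * cW) * Nat.card Q) :=
    mul_le_mul_of_nonneg_left (by linarith) hcWr.le
  rw [h11] at h12
  linarith

end Pool.CX
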