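import Pool.Agent.Work.MP_727c87_lo.Loc

/-!
# MP_727c87_gt, part LOW, block EMB (helper50): walls are embedded in a covering with a development
-/

set_option autoImplicit false

namespace Pool.CX

open Pool.CS Pool.W1P

variable {Mo : Model}

namespace Low

namespace EmbAux

/-- the chamber of a state -/
noncomputable def pos {C : Cov Mo} {M : W → ZMod 12 → ZMod 12} (dv : Dev C M) (s : St C) : W :=
  (dv.f s.y).1

/-- the number of the wall of a state -/
noncomputable def ltr {C : Cov Mo} {M : W → ZMod 12 → ZMod 12} (dv : Dev C M) (s : St C) :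
    ZMod 12 := match s with
  | ⟨y, false⟩ => (dv.f y).2
  | ⟨y, true⟩ => (dv.f y).2 + 1

/-- the alternating word along a wall -/
def aw (l : ZMod 12) : Bool → ℕ → List (ZMod 12)
  | _, 0 => []
  | false, m + 1 => (l + 1) :: aw l true m
  | true, m + 1 => (l - 1) :: aw l false m

theorem aw_length (l : ZMod 12) (m : ℕ) : ∀ e, (aw l e m).length = m := by
  induction m with
  | zero => intro e; cases e <;> rfl
  | succ m ih => intro e; cases e <;> simp [aw, ih]

theorem aw_rig (l : ZMod 12) (m : ℕ) : ∀ e, Rig G12 (aw l e m) := by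
  have h1 : ∀ l : ZMod 12, (l + 1 ≠ l - 1 ∧ ¬ G12.Adj (l + 1) (l - 1)) := by decide
  have h2 : ∀ l : ZMod 12, (l - 1 ≠ l + 1 ∧ ¬ G12.Adj (l - 1) (l + 1)) := by decide
  induction m with
  | zero => intro e; cases e <;> exact List.isChain_nil
  | succ m ih =>
    intro e
    cases e
    · cases m with
      | zero => exact List.isChain_singleton _
      | succ m =>
        have := ih true
        simp only [aw] at this ⊢
        exact List.isChain_cons_cons.2 ⟨h1 l, this⟩
    · cases m with
      | zero => exact List.isChain_singleton _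
      | succ m =>
        have := ih false
        simp only [aw] at this ⊢
        exact List.isChain_cons_cons.2 ⟨h2 l, this⟩

theorem aw_not_mem (l : ZMod 12) (m : ℕ) : ∀ e, l ∉ aw l e m := by
  have h1 : ∀ l : ZMod 12, l ≠ l + 1 := by decide
  have h2 : ∀ l : ZMod 12, l ≠ l - 1 := by decide
  induction m with
  | zero => intro e; cases e <;> simp [aw]
  | succ m ih =>
    intro e
    cases e
    · simp only [aw, List.mem_cons, not_or]
      exact ⟨h1 l, ih true⟩
    · simp only [aw, List.mem_cons, not_or]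
      exact ⟨h2 l, ih false⟩

variable {C : Cov Mo} {M : W → ZMod 12 → ZMod 12} (dv : Dev C M)

theorem ltr_sh (s : St C) : ltr dv (sh C s) = ltr dv s := by
  rcases s with ⟨y, _ | _⟩
  · simp [sh, ltr, dv.f_rs, dv.f_b]
  · simp [sh, ltr, dv.f_r, dv.f_a]

theorem e_sh (s : St C) : (sh C s).e = !s.e := by
  rcases s with ⟨y, _ | _⟩ <;> simp [sh]

theorem pos_sh_false (y : C.Y) :
    pos dv (sh C ⟨y, false⟩) = pos dv ⟨y, false⟩ * rg G12 (ltr dv ⟨y, false⟩ + 1) := by
  simp [sh, ltr, pos, dv.f_rs, dv.f_b]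

theorem pos_sh_true (y : C.Y) :
    pos dv (sh C ⟨y, true⟩) = pos dv ⟨y, true⟩ * rg G12 (ltr dv ⟨y, true⟩ - 1) := by
  simp [sh, ltr, pos, dv.f_r, dv.f_a]

theorem walk (m : ℕ) : ∀ s : St C,
    pos dv ((sh C ^ m) s) = pos dv s * wp G12 (aw (ltr dv s) s.e m) ∧
    ltr dv ((sh C ^ m) s) = ltr dv s ∧ (((sh C ^ m) s).e = s.e ↔ Even m) := by
  induction m with
  | zero => intro s; simp [aw, wp_nil]
  | succ m ih =>
    intro s
    obtain ⟨h1, h2, h3⟩ := ih (sh C s)
    rw [pow_succ, Equiv.Perm.mul_apply]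
    refine ⟨?_, h2.trans (ltr_sh dv s), ?_⟩
    · rw [h1, ltr_sh, e_sh]
      rcases s with ⟨y, _ | _⟩
      · rw [pos_sh_false]
        simp only [Bool.not_false, aw, wp_cons, mul_assoc]
      · rw [pos_sh_true]
        simp only [Bool.not_true, aw, wp_cons, mul_assoc]
    · rw [e_sh] at h3
      rw [Nat.even_add_one, ← h3]
      generalize ((sh C ^ m) (sh C s)).e = u
      generalize s.e = v
      cases u <;> cases v <;> simp

/-- the key lemma -/
theorem key (m : ℕ) (s t : St C) (h : (sh C ^ m) s = t) (l : List (ZMod 12)) (hl : Red G12 l)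
    (hw : pos dv t = pos dv s * wp G12 l) (he : t.e = s.e) (h2 : l.length ≤ 2)
    (h3 : l.length = 2 → ltr dv s ∈ l) : m = 0 := by
  obtain ⟨h1, -, h4⟩ := walk dv m s
  rw [h] at h1 h4
  have h5 : Even m := h4.1 he
  have hr := aw_rig (ltr dv s) m s.e
  have h6 : wp G12 l = wp G12 (aw (ltr dv s) s.e m) := mul_left_cancel (hw.symm.trans h1)
  have h7 := Rig.unique hr hl h6
  have h8 : l.length = m := by rw [h7, aw_length]
  rcases Nat.lt_or_ge m 2 with h9 | h9
  · rcases h5 with ⟨k, hk⟩
    omega
  · exfalso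
    have h10 : l.length = 2 := by omega
    have := h3 h10
    rw [h7] at this
    exact aw_not_mem _ _ _ this

theorem red_one (x : ZMod 12) : Red G12 [x] := Rig.red (List.isChain_singleton _)

theorem red_two {x y : ZMod 12} (h : x ≠ y) : Red G12 [x, y] := by
  rw [red_cons, red_cons]
  refine ⟨?_, rfl, trivial⟩
  by_cases h' : G12.Adj y x
  · rw [del_adj h', del_nil]; rfl
  · rw [del_other (Ne.symm h) h']

end EmbAux

open EmbAux in
theorem blk_EMB : Stmt_EMB := by
  intro Mo C M dv s n h
  -- the word from `s` to `t`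
  have hs : ∀ j : ZMod 12, j ≠ j + 1 := by decide
  set t := (sh C ^ n) s with ht
  have hltr : ltr dv t = ltr dv s := by
    rcases Int.eq_nat_or_neg n with ⟨m, rfl | rfl⟩
    · rw [ht, zpow_natCast]; exact (walk dv m s).2.1
    · have h1 : (sh C ^ m) t = s := by
        rw [ht, zpow_neg, zpow_natCast, ← Equiv.Perm.mul_apply, mul_inv_cancel, Equiv.Perm.one_apply]
      rw [← (walk dv m t).2.1, h1]
  have hmain : ∃ l : List (ZMod 12), Red G12 l ∧ pos dv t = pos dv s * wp G12 l ∧ t.e = s.e ∧
      l.length ≤ 2 ∧ (l.length = 2 → ltr dv s ∈ l) := by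
    clear_value t
    rcases h with h | h | h | h | h | h | h | h
    · subst h
      exact ⟨[], red_nil, by simp [wp_nil], rfl, by simp, by simp⟩
    · subst h
      rcases s with ⟨y, _ | _⟩
      · exact ⟨[(dv.f y).2 + 1], red_one _, by simp [srv, pos, dv.f_b, wp_cons, wp_nil], rfl,
          by simp, by simp⟩
      · exact ⟨[(dv.f y).2], red_one _, by simp [srv, pos, dv.f_a, wp_cons, wp_nil], rfl,
          by simp, by simp⟩
    · subst h
      rcases s with ⟨y, _ | _⟩
      · exact ⟨[(dv.f y).2], red_one _, by simp [smi, pos, dv.f_a, wp_cons, wp_nil], rfl,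
          by simp, by simp⟩
      · exact ⟨[(dv.f y).2 + 1], red_one _, by simp [smi, pos, dv.f_b, wp_cons, wp_nil], rfl,
          by simp, by simp⟩
    · subst h
      rcases s with ⟨y, _ | _⟩
      · refine ⟨[(dv.f y).2, (dv.f y).2 + 1], red_two (hs _), ?_, rfl, by simp, ?_⟩
        · simp [srv, smi, pos, dv.f_a, dv.f_b, wp_cons, wp_nil, mul_assoc]
        · simp [ltr]
      · refine ⟨[(dv.f y).2 + 1, (dv.f y).2], red_two (Ne.symm (hs _)), ?_, rfl, by simp, ?_⟩
        · simp [srv, smi, pos, dv.f_a, dv.f_b, wp_cons, wp_nil, mul_assoc]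
        · simp [ltr]
    all_goals
      exfalso
      subst h
      rcases s with ⟨y, _ | _⟩
      · simp [ltr, srv, smi, spp, dv.f_a, dv.f_b] at hltr; exact absurd hltr (by decide)
      · simp [ltr, srv, smi, spp, dv.f_a, dv.f_b] at hltr; exact absurd hltr (by decide)
  obtain ⟨l, h1, h2, h3, h4, h5⟩ := hmain
  rcases Int.eq_nat_or_neg n with ⟨m, rfl | rfl⟩
  · have := key dv m s t (by rw [ht, zpow_natCast]) l h1 h2 h3 h4 h5
    simp [this]
  · have h6 : (sh C ^ m) t = s := by
      rw [ht, zpow_neg, zpow_natCast, ← Equiv.Perm.mul_apply, mul_inv_cancel, Equiv.Perm.one_apply]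
    have := key dv m t s h6 l.reverse h1.reverse
      (by rw [h2, wp_reverse, mul_inv_cancel_right]) h3.symm (by simpa using h4)
      (by intro h; rw [hltr]; simpa using h5 (by simpa using h))
    simp [this]

end Low

end Pool.CX
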