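import Pool.Agent.Work.MP_727c87_lo.Min

/-!
Block EXI (helper78): a minimal family exists.
-/

set_option autoImplicit false

namespace Pool.CX.Low

open Set

namespace EXIAux

theorem cob_smul {S G I : Type} [Group G] [MulAction G S] [MulAction G I] {w : WS S}
    {N : Nest G I} {A : I → Set S} (hG : Acts G w) (hA : Fam w N A) (g : G) (c : I) :
    cob w (A (g • c)) = (fun s : S => g • s) '' cob w (A c) := by
  have key : ∀ t : S, g • t ∈ cob w (A (g • c)) ↔ t ∈ cob w (A c) := by
    intro t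
    unfold cob
    rw [mem_setOf_eq, mem_setOf_eq, ← hG.h g t, hA.eqv, hA.eqv]
  ext s
  constructor
  · intro hs
    refine ⟨g⁻¹ • s, ?_, by simp⟩
    rw [← key]
    simpa using hs
  · rintro ⟨t, ht, rfl⟩
    exact (key t).mpr ht

theorem ncard_smul {S G I : Type} [Group G] [MulAction G S] [MulAction G I] {w : WS S}
    {N : Nest G I} {A : I → Set S} (hG : Acts G w) (hA : Fam w N A) (g : G) (c : I) :
    (cob w (A (g • c))).ncard = (cob w (A c)).ncard := by
  rw [cob_smul hG hA, ncard_image_of_injective _ (MulAction.injective g)]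

end EXIAux

theorem blk_EXI : Stmt_EXI := by
  intro S G I _ _ _ w N H hG hH
  obtain ⟨T, hT⟩ := N.orb
  let F : Set (I → Set S) := {A | Fam w N A ∧ (∀ c, (A c \ H c).Finite) ∧
    ∀ c, (H c \ A c).Finite}
  let m : (I → Set S) → ℕ := fun A => ∑ c ∈ T, (cob w (A c)).ncard
  have hF : F.Nonempty := ⟨H, hH, fun c => by simp, fun c => by simp⟩
  obtain ⟨A, ⟨hA, h1, h2⟩, hmin⟩ := WellFounded.has_min (measure m).wf F hF
  refine ⟨A, hA, h1, h2, ?_⟩
  intro A' hA' h1' h2' hle
  have hm : m A ≤ m A' := by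
    have := hmin A' ⟨hA', h1', h2'⟩
    exact not_lt.mp this
  have hsum : ∑ c ∈ T, (cob w (A' c)).ncard = ∑ c ∈ T, (cob w (A c)).ncard :=
    le_antisymm (Finset.sum_le_sum fun c _ => hle c) hm
  have hT' := (Finset.sum_eq_sum_iff_of_le (fun c _ => hle c)).mp hsum
  intro c
  obtain ⟨g, hg⟩ := hT c
  rw [← EXIAux.ncard_smul hG hA' g c, ← EXIAux.ncard_smul hG hA g c]
  exact hT' _ hg

end Pool.CX.Low
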