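import Pool.Agent.Work.MP_727c87_lo.OVL

/-! MP_727c87, part LOW, block FLIP (helper53). -/

set_option autoImplicit false

namespace Pool.CX.Low

open Set

namespace FLIP

variable {S : Type} {w : WS S}

open OVL

lemma body_sc {s t t' : S} {k : ℕ} (h : SC w.rv w.mi w.pp t t') (ht : t ∈ body w s k) :
    t' ∈ body w s k := by
  obtain ⟨i, hi, h1⟩ := ht
  exact ⟨i, hi, sc_trans w h1 h⟩

lemma cor_body (s : S) (k : ℕ) : Cor w (body w s k) where
  rv t := ⟨fun h => body_sc (sc_symm w (Or.inr (Or.inl rfl))) h, fun h => body_sc (Or.inr (Or.inl rfl)) h⟩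
  mi t := ⟨fun h => body_sc (sc_symm w (Or.inr (Or.inr (Or.inl rfl)))) h,
    fun h => body_sc (Or.inr (Or.inr (Or.inl rfl))) h⟩
  pp t := ⟨fun h => body_sc (sc_symm w (Or.inr (Or.inr (Or.inr (Or.inr (Or.inl rfl)))))) h,
    fun h => body_sc (Or.inr (Or.inr (Or.inr (Or.inr (Or.inl rfl))))) h⟩

lemma body_sub {A : Set S} {s : S} {k : ℕ} (hA : Cor w A) (st : Strip w A s k) :
    body w s k ⊆ A := by
  rintro t ⟨i, hi, h⟩
  exact (mem_iff hA h).2 (st.mem i hi)

/-- the key case analysis: a state of the strip which looks into `A \ F` -/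
lemma key {A : Set S} {s : S} {k : ℕ} (hA : Cor w A) (st : Strip w A s k) {t : S}
    (ht : t ∈ body w s k) (h1 : w.h t ∈ A) (h2 : w.h t ∉ body w s k) :
    ∃ i : ℕ, i < k ∧ (t = w.rv (w.pp ((w.h ^ i) s)) ∨ t = w.rv (w.mi (w.pp ((w.h ^ i) s)))) := by
  obtain ⟨i, hi, h⟩ := ht
  have hF := cor_body (w := w) s k
  set u := (w.h ^ i) s with hu
  have hsucc : w.h u = (w.h ^ (i + 1)) s := by
    rw [hu, pow_succ', Equiv.Perm.mul_apply]
  -- along the wall, forwards
  have fwd : w.h u ∈ A → w.h u ∈ body w s k := by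
    intro h3
    rw [hsucc] at h3 ⊢
    have : i + 1 < k := by
      by_contra hcon
      have e : i + 1 = k := by omega
      rw [e] at h3
      exact st.right h3
    exact ⟨i + 1, this, Or.inl rfl⟩
  -- along the wall, backwards
  have bwd : w.h.symm u ∈ A → w.h.symm u ∈ body w s k := by
    intro h3
    rcases Nat.eq_zero_or_pos i with h0 | h0
    · exfalso
      rw [hu, h0, pow_zero, Equiv.Perm.one_apply] at h3
      exact st.left h3
    · obtain ⟨j, rfl⟩ := Nat.exists_eq_succ_of_ne_zero h0.ne'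
      have e : w.h.symm u = (w.h ^ j) s := by
        rw [hu, Nat.succ_eq_add_one, pow_succ', Equiv.Perm.mul_apply, Equiv.symm_apply_apply]
      rw [e]
      exact ⟨j, by omega, Or.inl rfl⟩
  have hfar : w.h (w.pp u) ∉ A := st.far i hi
  rcases h with rfl | rfl | rfl | rfl | rfl | rfl | rfl | rfl
  · exact absurd (fwd h1) h2
  · rw [h_rv', hA.rv] at h1
    rw [h_rv', hF.rv] at h2
    exact absurd (bwd h1) h2
  · rw [w.h_mi, hA.mi] at h1
    rw [w.h_mi, hF.mi] at h2
    exact absurd (fwd h1) h2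
  · rw [w.rv_mi, w.h_mi, hA.mi, h_rv', hA.rv] at h1
    rw [w.rv_mi, w.h_mi, hF.mi, h_rv', hF.rv] at h2
    exact absurd (bwd h1) h2
  · exact absurd h1 hfar
  · exact ⟨i, hi, Or.inl rfl⟩
  · rw [w.h_mi, hA.mi] at h1
    exact absurd h1 hfar
  · exact ⟨i, hi, Or.inr rfl⟩

end FLIP

open OVL FLIP in
theorem blk_FLIP : Stmt_FLIP := by
  classical
  intro S w A s k hA hfin st
  have hF := cor_body (w := w) s k
  have hFA := body_sub hA st
  set F := body w s k with hFdef
  have hs0 : s ∈ F := ⟨0, st.pos, Or.inl (by simp)⟩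
  have hsA : s ∈ A := hFA hs0
  -- the other end of an edge, turned round
  have hinv : ∀ x, w.h.symm (w.rv x) = w.rv (w.h x) := by
    intro x
    rw [Equiv.symm_apply_eq, w.h_rv]
  -- case 1
  have c1 : ∀ t, t ∈ F → w.h t ∈ A → w.h t ∉ F → w.rv t ∈ F ∧ w.h (w.rv t) ∉ A := by
    intro t ht h1 h2
    refine ⟨(hF.rv t).2 ht, ?_⟩
    obtain ⟨i, hi, h⟩ := key hA st ht h1 h2
    have hfar : w.h (w.pp ((w.h ^ i) s)) ∉ A := st.far i hi
    rcases h with rfl | rfl
    · rw [w.rv_rv]; exact hfar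
    · rw [w.rv_rv, w.h_mi, hA.mi]; exact hfar
  -- case 2
  have c2 : ∀ t, t ∈ A → t ∉ F → w.h t ∈ F →
      (w.rv (w.h (w.h t)) ∉ A ∧ w.h (w.rv (w.h (w.h t))) ∈ F) ∧
      ∃ i : ℕ, i < k ∧ (w.h t = w.pp ((w.h ^ i) s) ∨ w.h t = w.mi (w.pp ((w.h ^ i) s))) := by
    intro t ht h1 h2
    have e1 : w.h (w.rv (w.h t)) = w.rv t := w.h_rv t
    have h3 : w.rv (w.h t) ∈ F := (hF.rv _).2 h2
    obtain ⟨i, hi, h⟩ := key hA st h3 (by rw [e1, hA.rv]; exact ht) (by rw [e1, hF.rv]; exact h1)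
    have hfar : w.h (w.pp ((w.h ^ i) s)) ∉ A := st.far i hi
    have h4 : w.h t = w.pp ((w.h ^ i) s) ∨ w.h t = w.mi (w.pp ((w.h ^ i) s)) := by
      rcases h with h | h
      · left; rw [← w.rv_rv (w.h t), h, w.rv_rv]
      · right; rw [← w.rv_rv (w.h t), h, w.rv_rv]
    refine ⟨⟨?_, ?_⟩, i, hi, h4⟩
    · rw [hA.rv]
      rcases h4 with h4 | h4
      · rw [h4]; exact hfar
      · rw [h4, w.h_mi, hA.mi]; exact hfar
    · rw [w.h_rv]; exact h3
  -- the states in `cob A'` which are not in `cob A`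
  have c0 : ∀ t, t ∈ cob w (A \ F) → t ∉ cob w A →
      (t ∈ F ∧ w.h t ∈ A ∧ w.h t ∉ F) ∨ (t ∈ A ∧ t ∉ F ∧ w.h t ∈ F) := by
    intro t h1 h2
    have h2' : t ∈ A ↔ w.h t ∈ A := not_not.1 h2
    have h1' : ¬ ((t ∈ A ∧ t ∉ F) ↔ (w.h t ∈ A ∧ w.h t ∉ F)) := h1
    by_cases a : t ∈ A
    · have b : w.h t ∈ A := h2'.1 a
      by_cases c : t ∈ F
      · left
        refine ⟨c, b, fun d => h1' ?_⟩
        exact ⟨fun e => absurd c e.2, fun e => absurd d e.2⟩
      · right
        refine ⟨a, c, ?_⟩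
        by_contra d
        exact h1' ⟨fun _ => ⟨b, d⟩, fun _ => ⟨a, c⟩⟩
    · exfalso
      have b : w.h t ∉ A := fun b => a (h2'.2 b)
      exact h1' ⟨fun e => absurd e.1 a, fun e => absurd e.1 b⟩
  let Φ : S → S := fun t => if t ∈ cob w A then t else if t ∈ F then w.rv t else
    w.rv (w.h (w.h t))
  have p0 : ∀ t, t ∈ cob w A → Φ t = t := fun t h => if_pos h
  have p1 : ∀ t, t ∉ cob w A → t ∈ F → Φ t = w.rv t := fun t h h' => by
    show (if t ∈ cob w A then t else if t ∈ F then w.rv t else w.rv (w.h (w.h t))) = _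
    rw [if_neg h, if_pos h']
  have p2 : ∀ t, t ∉ cob w A → t ∉ F → Φ t = w.rv (w.h (w.h t)) := fun t h h' => by
    show (if t ∈ cob w A then t else if t ∈ F then w.rv t else w.rv (w.h (w.h t))) = _
    rw [if_neg h, if_neg h']
  -- values
  have v1 : ∀ t, t ∈ cob w (A \ F) → t ∉ cob w A → Φ t ∈ cob w A ∧ Φ t ∉ cob w (A \ F) := by
    intro t h1 h2
    rcases c0 t h1 h2 with ⟨a, b, c⟩ | ⟨a, b, c⟩
    · rw [p1 t h2 a]
      obtain ⟨d, e⟩ := c1 t a b c
      refine ⟨fun f => e (f.1 (hFA d)), fun f => f ⟨fun g => absurd d g.2, fun g => absurd g.1 e⟩⟩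
    · rw [p2 t h2 b]
      obtain ⟨⟨d, e⟩, -⟩ := c2 t a b c
      refine ⟨fun f => d (f.2 (hFA e)), fun f => f ⟨fun g => absurd g.1 d, fun g => absurd e g.2⟩⟩
  have hmaps : ∀ t ∈ cob w (A \ F), Φ t ∈ cob w A \ {w.h.symm s} := by
    intro t ht
    by_cases h : t ∈ cob w A
    · rw [p0 t h]
      refine ⟨h, fun e => ?_⟩
      have e' : t = w.h.symm s := e
      have h3 : w.h t = s := by rw [e', Equiv.apply_symm_apply]
      refine ht ⟨fun g => ?_, fun g => ?_⟩
      · exfalso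
        rw [e'] at g
        exact st.left g.1
      · exfalso
        rw [h3] at g
        exact g.2 hs0
    · refine ⟨(v1 t ht h).1, fun e => ?_⟩
      have e' : Φ t = w.h.symm s := e
      rcases c0 t ht h with ⟨a, b, c⟩ | ⟨a, b, c⟩
      · rw [p1 t h a] at e'
        have h3 := hFA (c1 t a b c).1
        rw [e'] at h3
        exact st.left h3
      · rw [p2 t h b, ← hinv] at e'
        obtain ⟨-, i, hi, h4⟩ := c2 t a b c
        have h5 : w.rv (w.h t) = s := w.h.symm.injective e'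
        have h6 : SC w.rv w.mi w.pp ((w.h ^ i) s) s := by
          rcases h4 with h4 | h4
          · rw [h4] at h5
            exact Or.inr (Or.inr (Or.inr (Or.inr (Or.inr (Or.inl h5.symm)))))
          · rw [h4] at h5
            exact Or.inr (Or.inr (Or.inr (Or.inr (Or.inr (Or.inr (Or.inr h5.symm))))))
        have h7 : (i : ℤ) = 0 := by
          apply w.emb s
          rw [zpow_natCast]
          exact sc_symm w h6
        have h8 : i = 0 := by exact_mod_cast h7
        rw [h8, pow_zero, Equiv.Perm.one_apply] at h4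
        rcases h4 with h4 | h4
        · rw [h4] at h5
          exact (w.dir s).2.1 h5.symm
        · rw [h4] at h5
          exact (w.dir s).2.2.2 h5.symm
  have hinj : InjOn Φ (cob w (A \ F)) := by
    intro t ht t' ht' e
    by_cases h : t ∈ cob w A <;> by_cases h' : t' ∈ cob w A
    · rwa [p0 t h, p0 t' h'] at e
    · exfalso
      rw [p0 t h] at e
      exact (v1 t' ht' h').2 (e ▸ ht)
    · exfalso
      rw [p0 t' h'] at e
      exact (v1 t ht h).2 (e.symm ▸ ht')
    · rcases c0 t ht h with ⟨a, b, c⟩ | ⟨a, b, c⟩ <;>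
        rcases c0 t' ht' h' with ⟨a', b', c'⟩ | ⟨a', b', c'⟩
      · rw [p1 t h a, p1 t' h' a'] at e
        rw [← w.rv_rv t, e, w.rv_rv]
      · exfalso
        rw [p1 t h a, p2 t' h' b'] at e
        exact (c2 t' a' b' c').1.1 (e ▸ hFA (c1 t a b c).1)
      · exfalso
        rw [p2 t h b, p1 t' h' a'] at e
        exact (c2 t a b c).1.1 (e.symm ▸ hFA (c1 t' a' b' c').1)
      · rw [p2 t h b, p2 t' h' b'] at e
        have e1 : w.h (w.h t) = w.h (w.h t') := by
          rw [← w.rv_rv (w.h (w.h t)), e, w.rv_rv]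
        exact w.h.injective (w.h.injective e1)
  have hfin' : (cob w A \ {w.h.symm s}).Finite := hfin.subset sdiff_subset
  refine ⟨hF, hFA, Set.Finite.of_injOn (t := cob w A \ {w.h.symm s}) hmaps hinj hfin', ?_⟩
  have hle : (cob w (A \ F)).ncard ≤ (cob w A \ {w.h.symm s}).ncard :=
    Set.ncard_le_ncard_of_injOn Φ hmaps hinj hfin'
  refine lt_of_le_of_lt hle (Set.ncard_sdiff_singleton_lt_of_mem ?_ hfin)
  intro h
  have h3 : w.h (w.h.symm s) = s := Equiv.apply_symm_apply _ _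
  rw [h3] at h
  exact st.left (h.2 hsA)

end Pool.CX.Low
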