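import Pool.Agent.Work.MP_727c87_lo.Min

set_option autoImplicit false

namespace Pool.CX.Low

open Set

theorem blk_INN : Stmt_INN := by
  classical
  intro S w A L s k i0 hS hLA hi0 hL
  -- left end of the run
  have hz : ∀ i : ℕ, (w.h ^ (i + 1)) s = w.h ((w.h ^ i) s) := by
    intro i; rw [pow_succ']; rfl
  -- the least i1 ≤ i0 such that all h^j s ∈ L for i1 ≤ j ≤ i0
  let P : ℕ → Prop := fun i => i ≤ i0 ∧ ∀ j, i ≤ j → j ≤ i0 → (w.h ^ j) s ∈ L
  have hP : ∃ i, P i := ⟨i0, le_refl _, fun j h1 h2 => by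
    have : j = i0 := le_antisymm h2 h1
    rw [this]; exact hL⟩
  let i1 := Nat.find hP
  have hi1 : P i1 := Nat.find_spec hP
  have hi1min : ∀ m, m < i1 → ¬ P m := fun m hm => Nat.find_min hP hm
  -- right end: the least i2 ≥ i0 with h^i2 s ∉ L
  let Q : ℕ → Prop := fun i => i0 ≤ i ∧ (w.h ^ i) s ∉ L
  have hQ : ∃ i, Q i := ⟨k, hi0.le, fun h => hS.right (hLA h)⟩
  let i2 := Nat.find hQ
  have hi2 : Q i2 := Nat.find_spec hQ
  have hi2min : ∀ m, m < i2 → ¬ Q m := fun m hm => Nat.find_min hQ hm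
  have hi2k : i2 ≤ k := Nat.find_min' hQ ⟨hi0.le, fun h => hS.right (hLA h)⟩
  have hi02 : i0 < i2 := by
    rcases Nat.lt_or_ge i0 i2 with h | h
    · exact h
    · exfalso
      have : i0 = i2 := le_antisymm hi2.1 h
      exact hi2.2 (this ▸ hL)
  have hi10 : i1 ≤ i0 := hi1.1
  have hmem : ∀ j, i1 ≤ j → j < i2 → (w.h ^ j) s ∈ L := by
    intro j h1 h2
    rcases le_or_gt j i0 with h | h
    · exact hi1.2 j h1 h
    · by_contra hc
      exact hi2min j h2 ⟨h.le, hc⟩
  refine ⟨i1, i2 - i1, by omega, ?_⟩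
  have hpow : ∀ i : ℕ, (w.h ^ i) ((w.h ^ i1) s) = (w.h ^ (i1 + i)) s := by
    intro i
    rw [← Equiv.Perm.mul_apply, ← pow_add, add_comm]
  refine ⟨by omega, ?_, ?_, ?_, ?_⟩
  · intro i hi
    rw [hpow]
    exact hmem _ (by omega) (by omega)
  · intro i hi
    rw [hpow]
    exact fun h => hS.far (i1 + i) (by omega) (hLA h)
  · rcases Nat.eq_zero_or_pos i1 with h0 | h0
    · rw [h0]
      intro h
      exact hS.left (hLA (by simpa using h))
    · intro h
      obtain ⟨m, hm⟩ : ∃ m, i1 = m + 1 := ⟨i1 - 1, by omega⟩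
      rw [hm, hz, Equiv.symm_apply_apply] at h
      apply hi1min m (by omega)
      refine ⟨by omega, ?_⟩
      intro j h1 h2
      rcases Nat.eq_or_lt_of_le h1 with h3 | h3
      · rw [← h3]; exact h
      · exact hi1.2 j (by omega) h2
  · rw [hpow]
    have : i1 + (i2 - i1) = i2 := by omega
    rw [this]
    exact hi2.2

end Pool.CX.Low
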