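import Pool.Agent.Work.MP_727c87_lo.Loc

/-!
# MP_727c87_gt, part LOW, block LOCQ (helper53)
-/

set_option autoImplicit false

namespace Pool.CX

open Pool.CS Pool.W1P

variable {Mo : Model}

namespace Low

namespace LOCQ

variable {C : Cov Mo}

lemma p_rpow (y : C.Y) (n : ℕ) : C.p ((C.r ^ n) y) = ((C.p y).1, (C.p y).2 + (n : ZMod 12)) := by
  induction n with
  | zero => exact Prod.ext rfl (by simp)
  | succ n ih =>
    rw [pow_succ', Equiv.Perm.mul_apply, C.p_r, ih]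
    show ((C.p y).1, (C.p y).2 + (n : ZMod 12) + 1) = _
    rw [Nat.cast_succ, add_assoc]

lemma r12 {z : C.Y} (hz : (C.p z).1 ∉ Mo.D) (k : ℕ) : ((C.r ^ 12) ^ k) z = z := by
  induction k with
  | zero => rfl
  | succ k ih => rw [pow_succ, Equiv.Perm.mul_apply, C.nd z hz, ih]

lemma rmod {z : C.Y} (hz : (C.p z).1 ∉ Mo.D) (m n : ℕ) (h : (m : ZMod 12) = (n : ZMod 12)) :
    (C.r ^ m) z = (C.r ^ n) z := by
  have key : ∀ m : ℕ, (C.r ^ m) z = (C.r ^ (m % 12)) z := by
    intro m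
    conv_lhs => rw [← Nat.mod_add_div m 12]
    rw [pow_add, pow_mul, Equiv.Perm.mul_apply, r12 hz]
  rw [key m, key n, (ZMod.natCast_eq_natCast_iff' m n 12).1 h]

/-- the flag at the corner `k` of the chamber of `z` -/
def fl (z : C.Y) (k : ZMod 12) : C.Y := (C.r ^ (k - (C.p z).2).val) z

lemma p_fl (z : C.Y) (k : ZMod 12) : C.p (fl z k) = ((C.p z).1, k) := by
  unfold fl
  rw [p_rpow, ZMod.natCast_zmod_val]
  simp

lemma fl_of_pow {z : C.Y} (hz : (C.p z).1 ∉ Mo.D) (n : ℕ) :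
    (C.r ^ n) z = fl z ((C.p z).2 + (n : ZMod 12)) := by
  unfold fl
  apply rmod hz
  rw [ZMod.natCast_zmod_val]
  ring

lemma pow_fl {z : C.Y} (hz : (C.p z).1 ∉ Mo.D) (i j : ZMod 12) :
    (C.r ^ (j - i).val) (fl z i) = fl z j := by
  have h : (C.r ^ (j - i).val) (fl z i) = (C.r ^ ((j - i).val + (i - (C.p z).2).val)) z := by
    unfold fl
    rw [pow_add, Equiv.Perm.mul_apply]
  rw [h]
  unfold fl
  apply rmod hz
  rw [Nat.cast_add, ZMod.natCast_zmod_val, ZMod.natCast_zmod_val, ZMod.natCast_zmod_val]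
  ring

/-- the four quadrants -/
def Quads (C : Cov Mo) (A : Set C.Y) (y0 : C.Y) : Prop :=
  ∀ B, C.ArcPot y0 B → (A ∩ B).Nonempty ∧ (A ∩ Bᶜ).Nonempty ∧
    (Aᶜ ∩ B).Nonempty ∧ (Aᶜ ∩ Bᶜ).Nonempty

/-- four flags in the four quadrants -/
lemma quads_of {A B : Set C.Y} {y0 k1 k2 k3 k4 : C.Y} (a1 : k1 ∈ A) (a2 : k2 ∉ A) (a3 : k3 ∈ A)
    (a4 : k4 ∉ A) (b1 : k1 ∈ B ↔ y0 ∈ B) (b2 : k2 ∈ B ↔ y0 ∈ B) (b3 : ¬ (k3 ∈ B ↔ y0 ∈ B))
    (b4 : ¬ (k4 ∈ B ↔ y0 ∈ B)) : (A ∩ B).Nonempty ∧ (A ∩ Bᶜ).Nonempty ∧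
    (Aᶜ ∩ B).Nonempty ∧ (Aᶜ ∩ Bᶜ).Nonempty := by
  by_cases h : y0 ∈ B
  · have b3' : k3 ∉ B := fun e => b3 ⟨fun _ => h, fun _ => e⟩
    have b4' : k4 ∉ B := fun e => b4 ⟨fun _ => h, fun _ => e⟩
    exact ⟨⟨k1, a1, b1.2 h⟩, ⟨k3, a3, b3'⟩, ⟨k2, a2, b2.2 h⟩, ⟨k4, a4, b4'⟩⟩
  · have b3' : k3 ∈ B := by
      by_contra e
      exact b3 ⟨fun f => absurd f e, fun f => absurd f h⟩
    have b4' : k4 ∈ B := by
      by_contra e
      exact b4 ⟨fun f => absurd f e, fun f => absurd f h⟩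
    exact ⟨⟨k3, a3, b3'⟩, ⟨k1, a1, fun e => h (b1.1 e)⟩, ⟨k4, a4, b4'⟩,
      ⟨k2, a2, fun e => h (b2.1 e)⟩⟩

/-- the halves of an arc in a chamber -/
lemma arc_in (ARQ : Stmt_ARQ) (hC : C.Univ) {z : C.Y} (hz : (C.p z).1 ∉ Mo.D) (i j : ZMod 12)
    {B : Set C.Y} (hB : C.ArcPot (fl z i) B) :
    (fl z j ∈ B ↔ fl z i ∈ B) ↔ In (Mo.mu (C.p z).1) i j := by
  have h := ARQ Mo C hC (fl z i) B (by rw [p_fl]; exact hz) hB (j - i).val (ZMod.val_lt _)
  rw [pow_fl hz, p_fl] at h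
  exact h

/-- first alternative of ODD -/
lemma quads_one (ARQ : Stmt_ARQ) (hC : C.Univ) {z : C.Y} (hz : (C.p z).1 ∉ Mo.D) (A : Set C.Y)
    (i : ZMod 12) (h : (∃ k, In (Mo.mu (C.p z).1) i k ∧ fl z k ∈ A) ∧
      (∃ k, In (Mo.mu (C.p z).1) i k ∧ ¬ fl z k ∈ A) ∧
      (∃ k, ¬ In (Mo.mu (C.p z).1) i k ∧ fl z k ∈ A) ∧
      ∃ k, ¬ In (Mo.mu (C.p z).1) i k ∧ ¬ fl z k ∈ A) : Quads C A (fl z i) := by
  obtain ⟨⟨k1, h1, h1'⟩, ⟨k2, h2, h2'⟩, ⟨k3, h3, h3'⟩, ⟨k4, h4, h4'⟩⟩ := h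
  intro B hB
  exact quads_of h1' h2' h3' h4' ((arc_in ARQ hC hz i k1 hB).2 h1)
    ((arc_in ARQ hC hz i k2 hB).2 h2) (fun e => h3 ((arc_in ARQ hC hz i k3 hB).1 e))
    (fun e => h4 ((arc_in ARQ hC hz i k4 hB).1 e))

/-! ### distances -/

lemma dle_mono {k k' : ℕ} (hk : k ≤ k') {y z : C.Y} (h : C.Dle k y z) : C.Dle k' y z := by
  induction hk with
  | refl => exact h
  | step _ ih => exact ⟨z, ih, Or.inl rfl⟩

lemma dle_pow {k : ℕ} {y z : C.Y} (h : C.Dle k y z) (n : ℕ) : C.Dle (k + n) y ((C.r ^ n) z) := by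
  induction n with
  | zero => exact h
  | succ n ih =>
    refine ⟨_, ih, Or.inr (Or.inl ?_)⟩
    rw [pow_succ', Equiv.Perm.mul_apply]

lemma dle_a {k : ℕ} {y z : C.Y} (h : C.Dle k y z) : C.Dle (k + 1) y (C.a z) :=
  ⟨z, h, Or.inr (Or.inr (Or.inr (Relation.EqvGen.rel _ _ (Or.inl rfl))))⟩

lemma dle_fl {k : ℕ} {y z : C.Y} (h : C.Dle k y z) (i : ZMod 12) : C.Dle (k + 11) y (fl z i) :=
  dle_mono (by have := ZMod.val_lt (i - (C.p z).2); omega) (dle_pow h _)

lemma three (P Q X : Prop) (f : ¬ (Q ↔ P)) (h3 : ¬ (P ↔ X)) (h4 : ¬ (Q ↔ X)) : False := by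
  by_cases p : P <;> by_cases q : Q <;> by_cases x : X <;> simp_all

lemma far_val : ∀ i j : ZMod 12, Far i j → 3 ≤ (j - i).val ∧ (j - i).val ≤ 9 := by decide

lemma val_m1 : ∀ v : ZMod 12, (v - (v + 1)).val = 11 := by decide

lemma val_m2 : ∀ v : ZMod 12, (v - 1 - (v + 1)).val = 10 := by decide

lemma val_p1 : ∀ v : ZMod 12, (v + 1 - v).val = 1 := by decide

lemma val_p2 : ∀ v : ZMod 12, (v - 1 - v).val = 11 := by decide

lemma ne_p : ∀ v : ZMod 12, v + 1 ≠ v := by decide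

lemma ne_m : ∀ v : ZMod 12, v - 1 ≠ v := by decide

lemma r11 {z : C.Y} (hz : (C.p z).1 ∉ Mo.D) : (C.r ^ 11) z = C.r.symm z := by
  rw [Equiv.eq_symm_apply]
  have h := C.nd z hz
  rwa [pow_succ', Equiv.Perm.mul_apply] at h

lemma fl_self {z : C.Y} : fl z (C.p z).2 = z := by
  unfold fl
  rw [sub_self]
  rfl

lemma fl_succ {z : C.Y} (hz : (C.p z).1 ∉ Mo.D) (v : ZMod 12) : fl z (v + 1) = C.r (fl z v) := by
  rw [← pow_fl hz v (v + 1), val_p1, pow_one]

lemma fl_pred {z : C.Y} (hz : (C.p z).1 ∉ Mo.D) (v : ZMod 12) :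
    fl z (v - 1) = C.r.symm (fl z v) := by
  rw [← pow_fl hz v (v - 1), val_p2, r11]
  rw [p_fl]; exact hz

end LOCQ

open LOCQ in
theorem blk_LOCQ (ODD : Stmt_ODD) (ARQ : Stmt_ARQ) : Stmt_LOCQ := by
  intro Mo C hC A ha hb hS hS' y hy hnb hk
  have hself : fl y (C.p y).2 = y := fl_self
  have hx : ∃ u v, fl y u ∈ A ∧ ¬ fl y v ∈ A := by
    obtain ⟨k, hk⟩ := hk
    rw [fl_of_pow hy k] at hk
    by_cases h : y ∈ A
    · refine ⟨(C.p y).2, _, by rw [hself]; exact h, fun e => hk ⟨fun _ => h, fun _ => e⟩⟩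
    · refine ⟨(C.p y).2 + (k : ZMod 12), (C.p y).2, ?_, by rw [hself]; exact h⟩
      by_contra e
      exact hk ⟨fun f => absurd f e, fun f => absurd f h⟩
  rcases ODD (Mo.mu (C.p y).1) (Mo.good _) (fun k => fl y k ∈ A) hx with ⟨i, h⟩ | ⟨v, hv⟩
  · exact ⟨fl y i, dle_mono (by omega) (dle_fl (k := 0) (rfl : y = y) i),
      quads_one ARQ hC hy A i h⟩
  · -- one odd corner in the chamber of `y`
    have hv' : ∀ u, u ≠ v → ¬ (fl y u ∈ A ↔ fl y v ∈ A) := hv
    set y1 := fl y v with hy1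
    have hr1 : fl y (v + 1) = C.r y1 := fl_succ hy v
    have hr2 : fl y (v - 1) = C.r.symm y1 := fl_pred hy v
    have f1 : ¬ (C.r y1 ∈ A ↔ y1 ∈ A) := by rw [← hr1]; exact hv' _ (ne_p v)
    have f2 : ¬ (C.r.symm y1 ∈ A ↔ y1 ∈ A) := by rw [← hr2]; exact hv' _ (ne_m v)
    -- the neighbour chamber
    set w1 := C.a (C.r y1) with hw1
    have hpw : C.p w1 = (Mo.L.τ (v + 1) (C.p y).1, v + 1) := by
      rw [hw1, C.p_a, ← hr1, p_fl]
      rfl
    have hq' : (C.p w1).1 ∉ Mo.D := by rw [hpw]; exact hnb (v + 1)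
    have hw1s : fl w1 (v + 1) = w1 := by
      have h := fl_self (C := C) (z := w1)
      rw [hpw] at h
      exact h
    have hbw : C.b y1 = C.r.symm w1 := rfl
    have hw1v : fl w1 v = C.b y1 := by
      have h := fl_pred hq' (v + 1)
      rw [hw1s, ← hbw] at h
      rw [← h]
      congr 1
      ring
    have g1 : w1 ∈ A ↔ C.r y1 ∈ A := ha _
    have g2 : C.b y1 ∈ A ↔ y1 ∈ A := hb _
    have hx' : ∃ u u', fl w1 u ∈ A ∧ ¬ fl w1 u' ∈ A := by
      by_cases h : y1 ∈ A
      · refine ⟨v, v + 1, by rw [hw1v]; exact g2.2 h, ?_⟩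
        rw [hw1s]
        intro e
        exact f1 ⟨fun _ => h, fun _ => g1.1 e⟩
      · refine ⟨v + 1, v, ?_, by rw [hw1v]; exact fun e => h (g2.1 e)⟩
        rw [hw1s]
        by_contra e
        exact f1 ⟨fun f => absurd (g1.2 f) e, fun f => absurd f h⟩
    have hd1 : C.Dle 13 y w1 := by
      have h1 : C.Dle 11 y y1 := dle_fl (k := 0) (rfl : y = y) v
      exact dle_a (dle_pow h1 1)
    rcases ODD (Mo.mu (C.p w1).1) (Mo.good _) (fun k => fl w1 k ∈ A) hx' with ⟨i, h⟩ | ⟨v', hv2⟩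
    · exact ⟨fl w1 i, dle_mono (by omega) (dle_fl hd1 i), quads_one ARQ hC hq' A i h⟩
    · have hv3 : ∀ u, u ≠ v' → ¬ (fl w1 u ∈ A ↔ fl w1 v' ∈ A) := hv2
      by_cases c1 : v' = v
      · -- a strip of length one
        exfalso
        have h1 := hv3 (v - 1) (by rw [c1]; exact ne_m v)
        rw [c1, fl_pred hq' v, hw1v] at h1
        have f3 : ¬ (C.r.symm (C.b y1) ∈ A ↔ y1 ∈ A) := fun e => h1 (e.trans g2.symm)
        by_cases h : y1 ∈ A
        · have e1 : C.r y1 ∉ A := fun e => f1 ⟨fun _ => h, fun _ => e⟩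
          have e2 : C.r.symm y1 ∉ A := fun e => f2 ⟨fun _ => h, fun _ => e⟩
          have e3 : C.r.symm (C.b y1) ∉ A := fun e => f3 ⟨fun _ => h, fun _ => e⟩
          apply hS ⟨y1, false⟩ 1
          refine ⟨le_rfl, ?_, ?_, ?_, ?_⟩
          · intro i hi
            have : i = 0 := by omega
            subst this
            exact h
          · intro i hi
            have : i = 0 := by omega
            subst this
            show C.r (C.a (C.a y1)) ∉ A
            rw [C.a_a]; exact e1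
          · show C.a (C.r.symm y1) ∉ A
            rw [ha]; exact e2
          · exact e3
        · have e1 : C.r y1 ∈ A := by
            by_contra e; exact f1 ⟨fun f => absurd f e, fun f => absurd f h⟩
          have e2 : C.r.symm y1 ∈ A := by
            by_contra e; exact f2 ⟨fun f => absurd f e, fun f => absurd f h⟩
          have e3 : C.r.symm (C.b y1) ∈ A := by
            by_contra e; exact f3 ⟨fun f => absurd f e, fun f => absurd f h⟩
          apply hS' ⟨y1, false⟩ 1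
          refine ⟨le_rfl, ?_, ?_, ?_, ?_⟩
          · intro i hi
            have : i = 0 := by omega
            subst this
            exact h
          · intro i hi
            have : i = 0 := by omega
            subst this
            show ¬ (C.r (C.a (C.a y1)) ∉ A)
            rw [C.a_a]; exact not_not.2 e1
          · show ¬ (C.a (C.r.symm y1) ∉ A)
            rw [ha]; exact not_not.2 e2
          · exact not_not.2 e3
      · by_cases c2 : v' = v + 1
        · -- the arc of the common side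
          have h1 := hv3 (v + 1 + 1) (by rw [c2]; exact ne_p (v + 1))
          rw [c2, fl_succ hq' (v + 1), hw1s] at h1
          refine ⟨fl y (v + 1), dle_mono (by omega) (dle_fl (k := 0) (rfl : y = y) (v + 1)), ?_⟩
          intro B hB
          have n1 := far_val _ _ ((Mo.good (C.p y).1).far (v + 1))
          have n2 := far_val _ _ ((Mo.good (C.p w1).1).far (v + 1))
          -- corners of the chamber of `y`
          have b3 : ¬ (y1 ∈ B ↔ fl y (v + 1) ∈ B) := by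
            intro e
            have h2 := (arc_in ARQ hC hy (v + 1) v hB).1 e
            unfold In at h2
            rw [val_m1] at h2
            omega
          have b4 : ¬ (C.r.symm y1 ∈ B ↔ fl y (v + 1) ∈ B) := by
            rw [← hr2]
            intro e
            have h2 := (arc_in ARQ hC hy (v + 1) (v - 1) hB).1 e
            unfold In at h2
            rw [val_m2] at h2
            omega
          -- corners of the neighbour chamber
          have b1 : w1 ∈ B ↔ fl y (v + 1) ∈ B := by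
            rw [hr1]; exact hB.a _
          have hB' : C.ArcPot (fl w1 (v + 1)) B := by
            rw [hw1s]
            refine ⟨hB.a, hB.b, fun z => ?_⟩
            rw [hB.r z, hr1]
            have h5 : C.SameArc (C.r y1) w1 := Relation.EqvGen.rel _ _ (Or.inl rfl)
            exact not_congr ⟨fun e => (Relation.EqvGen.symm _ _ h5).trans _ _ _ e,
              fun e => Relation.EqvGen.trans _ _ _ h5 e⟩
          have b2 : C.r w1 ∈ B ↔ fl y (v + 1) ∈ B := by
            have h2 := (arc_in ARQ hC hq' (v + 1) (v + 1 + 1) hB').2 (by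
              unfold In
              rw [val_p1]
              omega)
            rw [fl_succ hq' (v + 1), hw1s] at h2
            exact h2.trans b1
          by_cases a1 : w1 ∈ A
          · have a2 : C.r w1 ∉ A := fun e => h1 ⟨fun _ => a1, fun _ => e⟩
            by_cases a3 : y1 ∈ A
            · exact quads_of a1 a2 a3 (fun e => f2 ⟨fun _ => a3, fun _ => e⟩) b1 b2 b3 b4
            · have a4 : C.r.symm y1 ∈ A := by
                by_contra e; exact f2 ⟨fun f => absurd f e, fun f => absurd f a3⟩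
              exact quads_of a1 a2 a4 a3 b1 b2 b4 b3
          · have a2 : C.r w1 ∈ A := by
              by_contra e; exact h1 ⟨fun f => absurd f e, fun f => absurd f a1⟩
            by_cases a3 : y1 ∈ A
            · exact quads_of a2 a1 a3 (fun e => f2 ⟨fun _ => a3, fun _ => e⟩) b2 b1 b3 b4
            · have a4 : C.r.symm y1 ∈ A := by
                by_contra e; exact f2 ⟨fun f => absurd f e, fun f => absurd f a3⟩
              exact quads_of a2 a1 a4 a3 b2 b1 b4 b3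
        · exfalso
          have h1 := hv3 v (fun e => c1 e.symm)
          have h2 := hv3 (v + 1) (fun e => c2 e.symm)
          rw [hw1v] at h1
          rw [hw1s] at h2
          have h3 : ¬ (y1 ∈ A ↔ fl w1 v' ∈ A) := fun e => h1 (g2.trans e)
          have h4 : ¬ (C.r y1 ∈ A ↔ fl w1 v' ∈ A) := fun e => h2 (g1.trans e)
          exact three _ _ _ f1 h3 h4

end Low

end Pool.CX
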