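import Pool.Agent.Work.MP_727c87_lo.Loc

/-!
# MP_727c87_gt, part LOW, block LOC (helper45)
-/

set_option autoImplicit false

namespace Pool.CX

open Pool.CS Pool.W1P

namespace Low

/-- the coarse balls increase -/
theorem LOC.dle_succ {Mo : Model} {C : Cov Mo} {n : ℕ} {y y' : C.Y} (h : C.Dle n y y') :
    C.Dle (n + 1) y y' := ⟨y', h, Or.inl rfl⟩

theorem LOC.dle_add {Mo : Model} {C : Cov Mo} {n : ℕ} {y y' : C.Y} (h : C.Dle n y y') (k : ℕ) :
    C.Dle (n + k) y y' := by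
  induction k with
  | zero => exact h
  | succ k ih => exact LOC.dle_succ ih

theorem blk_LOC (LOCQ : Stmt_LOCQ) : Stmt_LOC := by
  intro Mo C hC M dv K1 K2 T A hS c y hD hN hk
  have hstrip : ∀ s k, ¬ FStrip C (A c)ᶜ s k := by
    intro s k
    have h := hS.m2 (T.rev c) s k
    rw [hS.op c] at h
    exact h
  obtain ⟨y0, hy0, hQ⟩ := LOCQ Mo C hC (A c) (hS.a c) (hS.b c) (hS.m2 c) hstrip y hD hN hk
  obtain ⟨B, h1, h2, h3⟩ := hC.arc_sides y0
  have hB : C.ArcPot y0 B := ⟨h1, h2, h3⟩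
  obtain ⟨q1, q2, q3, q4⟩ := hQ B hB
  -- a half which misses the head side of `c` is outside `A c`
  have key1 : ∀ B' : Set C.Y, C.ArcPot y0 B' → (A c ∩ B').Nonempty → (T.H c ∩ B').Nonempty := by
    intro B' hB' hne
    by_contra hcon
    have hsub : B' ⊆ T.H (T.rev c) := by
      intro z hz
      rw [T.H_rev]
      intro hz'
      exact hcon ⟨z, hz', hz⟩
    have hsub2 := hS.m1 (T.rev c) y0 B' hB' hsub
    obtain ⟨z, hzA, hzB⟩ := hne
    have h4 := hsub2 hzB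
    rw [hS.op c] at h4
    exact h4 hzA
  have key2 : ∀ B' : Set C.Y, C.ArcPot y0 B' → ((A c)ᶜ ∩ B').Nonempty →
      ((T.H c)ᶜ ∩ B').Nonempty := by
    intro B' hB' hne
    by_contra hcon
    have hsub : B' ⊆ T.H c := by
      intro z hz
      by_contra hz'
      exact hcon ⟨z, hz', hz⟩
    have hsub2 := hS.m1 c y0 B' hB' hsub
    obtain ⟨z, hzA, hzB⟩ := hne
    exact hzA (hsub2 hzB)
  obtain ⟨y', hy', hs⟩ := T.miss c y0 B hB (key1 B hB q1) (key1 Bᶜ (arcPot_compl hB) q2)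
    (key2 B hB q3) (key2 Bᶜ (arcPot_compl hB) q4)
  refine ⟨y', hy', ?_⟩
  have h41 : C.Dle (40 + 1) y y' := ⟨y0, hy0, Or.inr (Or.inr (Or.inr hs))⟩
  exact LOC.dle_add h41 19

end Low

end Pool.CX
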