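import Pool.Agent.Work.MP_727c87_lo.Loc

/-!
# Block MINF: part MIN for the flags
-/

set_option autoImplicit false

namespace Pool.CX

open Pool.CS Pool.W1P

variable {Mo : Model}

namespace Low

namespace MINF

theorem deck_a {C : Cov Mo} (g : C.deck) (y : C.Y) : g.1 (C.a y) = C.a (g.1 y) := g.2.1 y

theorem deck_r {C : Cov Mo} (g : C.deck) (y : C.Y) : g.1 (C.r y) = C.r (g.1 y) := g.2.2.1 y

theorem deck_rs {C : Cov Mo} (g : C.deck) (y : C.Y) : g.1 (C.r.symm y) = C.r.symm (g.1 y) := by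
  apply C.r.injective
  rw [← deck_r, Equiv.apply_symm_apply, Equiv.apply_symm_apply]

theorem deck_b {C : Cov Mo} (g : C.deck) (y : C.Y) : g.1 (C.b y) = C.b (g.1 y) := by
  unfold Cov.b
  rw [deck_rs, deck_a, deck_r]

theorem smul_def {C : Cov Mo} (g : C.deck) (y : C.Y) (e : Bool) :
    g • (⟨y, e⟩ : St C) = ⟨g.1 y, e⟩ := rfl

theorem acts (EMB : Stmt_EMB) {C : Cov Mo} (hC : C.Univ) {M : W → ZMod 12 → ZMod 12} (dv : Dev C M) :
    Acts C.deck (fws EMB dv) where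
  h g s := by
    rcases s with ⟨y, _ | _⟩
    · change (⟨g.1 (C.r.symm (C.b y)), true⟩ : St C) = ⟨C.r.symm (C.b (g.1 y)), true⟩
      rw [deck_rs, deck_b]
    · change (⟨g.1 (C.r (C.a y)), false⟩ : St C) = ⟨C.r (C.a (g.1 y)), false⟩
      rw [deck_r, deck_a]
  rv g s := by
    rcases s with ⟨y, _ | _⟩
    · change (⟨g.1 (C.b y), false⟩ : St C) = ⟨C.b (g.1 y), false⟩
      rw [deck_b]
    · change (⟨g.1 (C.a y), true⟩ : St C) = ⟨C.a (g.1 y), true⟩
      rw [deck_a]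
  mi g s := by
    rcases s with ⟨y, _ | _⟩
    · change (⟨g.1 (C.a y), false⟩ : St C) = ⟨C.a (g.1 y), false⟩
      rw [deck_a]
    · change (⟨g.1 (C.b y), true⟩ : St C) = ⟨C.b (g.1 y), true⟩
      rw [deck_b]
  pp g s := by
    rcases s with ⟨y, _ | _⟩
    · change (⟨g.1 (C.a y), true⟩ : St C) = ⟨C.a (g.1 y), true⟩
      rw [deck_a]
    · change (⟨g.1 (C.b y), false⟩ : St C) = ⟨C.b (g.1 y), false⟩
      rw [deck_b]
  free g s hgs := by
    have h1 : g.1 s.y = s.y := congrArg St.y hgs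
    have h2 := Cov.Conn.aut_ext hC.conn (e := ⟨g.1, g.2.1, g.2.2.1, g.2.2.2⟩)
      (e' := ⟨Equiv.refl _, fun _ => rfl, fun _ => rfl, fun _ => rfl⟩) (y := s.y) h1
    exact Subtype.ext h2

theorem cor_up (EMB : Stmt_EMB) {C : Cov Mo} {M : W → ZMod 12 → ZMod 12} (dv : Dev C M)
    {A : Set C.Y} (ha : ∀ y, C.a y ∈ A ↔ y ∈ A) (hb : ∀ y, C.b y ∈ A ↔ y ∈ A) :
    Cor (fws EMB dv) (up A) where
  rv s := by
    rcases s with ⟨y, _ | _⟩
    · exact hb y
    · exact ha y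
  mi s := by
    rcases s with ⟨y, _ | _⟩
    · exact ha y
    · exact hb y
  pp s := by
    rcases s with ⟨y, _ | _⟩
    · exact ha y
    · exact hb y

theorem fam (EMB : Stmt_EMB) {C : Cov Mo} {M : W → ZMod 12 → ZMod 12} (dv : Dev C M) {K1 K2 : ℕ}
    (T : Tracks C dv K1 K2) : Fam (fws EMB dv) (nest T) (fun c => up (T.H c)) where
  cor c := cor_up EMB dv (T.H_a c) (T.H_b c)
  fin c := by
    have h1 : ((fun v => (⟨C.b v, false⟩ : St C)) '' T.vis c ∪
        (fun v => (⟨C.a (C.r.symm v), true⟩ : St C)) '' T.vis c).Finite :=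
      ((T.vis_fin c).image _).union ((T.vis_fin c).image _)
    refine h1.subset ?_
    intro s hs
    rcases s with ⟨y, _ | _⟩
    · left
      refine ⟨C.b y, ?_, by change (⟨C.b (C.b y), false⟩ : St C) = _; rw [Cov_bb]⟩
      have h2 : ¬ (y ∈ T.H c ↔ C.r.symm (C.b y) ∈ T.H c) := hs
      have h3 := T.bd c (C.r.symm (C.b y))
      rw [Equiv.apply_symm_apply, T.H_b] at h3
      exact h3 h2
    · right
      refine ⟨C.r (C.a y), ?_, by
        change (⟨C.a (C.r.symm (C.r (C.a y))), true⟩ : St C) = _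
        rw [Equiv.symm_apply_apply, C.a_a]⟩
      have h2 : ¬ (y ∈ T.H c ↔ C.r (C.a y) ∈ T.H c) := hs
      have h3 := T.bd c (C.a y)
      rw [T.H_a] at h3
      exact h3 (fun h => h2 h.symm)
  op c := by
    change up (T.H (T.rev c)) = (up (T.H c))ᶜ
    rw [T.H_rev]
    rfl
  mono c d h := by
    intro s hs
    exact T.H_mono c d h hs
  eqv g c s := T.g_H g c s.y

end MINF

theorem blk_MINF (MIN : Stmt_MIN) (EMB : Stmt_EMB) (ARC : Stmt_ARC) : Stmt_MINF := by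
  intro Mo C hC M hM dv K1 K2 T
  obtain ⟨A', hA', h1, -, h3⟩ := MIN (St C) C.deck T.Tr (fws EMB dv) (nest T)
    (fun c => up (T.H c)) (MINF.acts EMB hC dv) (MINF.fam EMB dv T)
  have hup : ∀ c (s : St C), s ∈ A' c ↔ (⟨s.y, false⟩ : St C) ∈ A' c := by
    intro c s
    rcases s with ⟨y, _ | _⟩
    · exact Iff.rfl
    · have e1 := (hA'.cor c).pp ⟨y, false⟩
      have e2 := (hA'.cor c).rv ⟨y, true⟩
      change ((⟨C.a y, true⟩ : St C) ∈ A' c ↔ (⟨y, false⟩ : St C) ∈ A' c) at e1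
      change ((⟨C.a y, true⟩ : St C) ∈ A' c ↔ (⟨y, true⟩ : St C) ∈ A' c) at e2
      exact e2.symm.trans e1
  have ha : ∀ c y, (⟨C.a y, false⟩ : St C) ∈ A' c ↔ (⟨y, false⟩ : St C) ∈ A' c :=
    fun c y => (hA'.cor c).mi ⟨y, false⟩
  have hb : ∀ c y, (⟨C.b y, false⟩ : St C) ∈ A' c ↔ (⟨y, false⟩ : St C) ∈ A' c :=
    fun c y => (hA'.cor c).rv ⟨y, false⟩
  refine ⟨fun c => {y | (⟨y, false⟩ : St C) ∈ A' c}, ?_⟩
  refine ⟨ha, hb, ?_, ?_, ?_, ?_, ?_, ?_⟩
  · intro c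
    have hinj : Function.Injective (fun y => (⟨C.a y, true⟩ : St C)) := by
      intro y y' h
      have h2 : C.a y = C.a y' := congrArg St.y h
      have h4 := congrArg C.a h2
      rwa [C.a_a, C.a_a] at h4
    refine (Set.Finite.preimage hinj.injOn (hA'.fin c)).subset ?_
    intro y hy
    change ¬ ((⟨C.a y, true⟩ : St C) ∈ A' c ↔ (⟨C.r (C.a (C.a y)), false⟩ : St C) ∈ A' c)
    rw [C.a_a, hup c ⟨C.a y, true⟩, ha]
    exact hy
  · intro c
    have h4 := hA'.op c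
    ext y
    exact iff_of_eq (congrArg (fun X : Set (St C) => (⟨y, false⟩ : St C) ∈ X) h4)
  · intro c d h y hy
    exact hA'.mono c d h hy
  · intro g c y
    exact hA'.eqv g c ⟨y, false⟩
  · intro c y0 B hB hsub y hy
    have h5 := ARC EMB Mo C M hM dv y0 B hB
    have h6 : up B ⊆ up (T.H c) := fun s hs => hsub hs
    exact h1 c (up B) h5 h6 (show (⟨y, false⟩ : St C) ∈ up B from hy)
  · intro c s k hs
    refine h3 c s k ⟨hs.pos, fun i hi => (hup c _).2 (hs.mem i hi), fun i hi h => ?_, fun h => ?_, fun h => ?_⟩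
    · exact hs.far i hi ((hup c _).1 h)
    · exact hs.left ((hup c _).1 h)
    · exact hs.right ((hup c _).1 h)

end Low

end Pool.CX
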