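import Pool.Agent.Work.MP_727c87_lo.Min

set_option autoImplicit false

namespace Pool.CX.Low

open Set

namespace MINaux

theorem cob_compl {S : Type} (w : WS S) (B : Set S) : cob w Bᶜ = cob w B := by
  ext s
  simp only [cob, mem_setOf_eq, mem_compl_iff]
  tauto

theorem arc_compl {S : Type} {w : WS S} {B : Set S} (hB : ArcSet w B) : ArcSet w Bᶜ where
  cor := ⟨fun s => by simp only [mem_compl_iff, hB.cor.rv],
    fun s => by simp only [mem_compl_iff, hB.cor.mi],
    fun s => by simp only [mem_compl_iff, hB.cor.pp]⟩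
  fin := by rw [cob_compl]; exact hB.fin
  one := by rw [cob_compl]; exact hB.one
  two := by rw [cob_compl]; exact hB.two

end MINaux

theorem blk_MIN (EXI : Stmt_EXI) (MONE : Stmt_MONE) (MTWO : Stmt_MTWO) : Stmt_MIN := by
  intro S G I _ _ _ w N H hact hH
  obtain ⟨A, hA⟩ := EXI S G I w N H hact hH
  refine ⟨A, hA.fam, MONE S G I w N H A hact hH hA, ?_, MTWO S G I w N H A hact hH hA⟩
  intro c B hB hcB
  have h1 : Bᶜ ⊆ H (N.op c) := by
    rw [hH.op]
    exact compl_subset_compl.mpr hcB
  have h2 := MONE S G I w N H A hact hH hA (N.op c) Bᶜ (MINaux.arc_compl hB) h1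
  rw [hA.fam.op] at h2
  exact compl_subset_compl.mp h2

end Pool.CX.Low
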