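import Pool.Agent.Work.MP_727c87_lo.Min

/-! MP_727c87, part LOW, block MONE (helper51). -/

set_option autoImplicit false

namespace Pool.CX.Low

open Set

namespace MONE

variable {S : Type}

lemma cor_compl {w : WS S} {A : Set S} (h : Cor w A) : Cor w Aᶜ :=
  ⟨fun s => not_congr (h.rv s), fun s => not_congr (h.mi s), fun s => not_congr (h.pp s)⟩

lemma cor_inter {w : WS S} {A B : Set S} (h : Cor w A) (h' : Cor w B) : Cor w (A ∩ B) :=
  ⟨fun s => and_congr (h.rv s) (h'.rv s), fun s => and_congr (h.mi s) (h'.mi s),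
    fun s => and_congr (h.pp s) (h'.pp s)⟩

lemma cob_compl (w : WS S) (A : Set S) : cob w Aᶜ = cob w A := by
  ext s
  simp only [cob, mem_setOf_eq, mem_compl_iff]
  tauto

section act
variable {G : Type} [Group G] [MulAction G S] {w : WS S}

lemma g_hn (hG : Acts G w) (g : G) (n : ℕ) (s : S) : g • (w.h ^ n) s = (w.h ^ n) (g • s) := by
  induction n generalizing s with
  | zero => simp
  | succ n ih => rw [pow_succ, Equiv.Perm.mul_apply, Equiv.Perm.mul_apply, ih, hG.h]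

lemma g_hz (hG : Acts G w) (g : G) (n : ℤ) (s : S) : g • (w.h ^ n) s = (w.h ^ n) (g • s) := by
  obtain ⟨m, rfl | rfl⟩ := Int.eq_nat_or_neg n
  · rw [zpow_natCast, g_hn hG]
  · rw [zpow_neg, zpow_natCast, eq_comm, Equiv.Perm.inv_eq_iff_eq, ← g_hn hG,
      ← Equiv.Perm.mul_apply, mul_inv_cancel, Equiv.Perm.one_apply]

/-- the translate of an arc set -/
lemma arc_smul (hG : Acts G w) (g : G) {B : Set S} (hB : ArcSet w B) :
    ArcSet w {t | g • t ∈ B} := by
  have hcob : ∀ s, s ∈ cob w {t | g • t ∈ B} ↔ g • s ∈ cob w B := by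
    intro s
    simp only [cob, mem_setOf_eq, hG.h]
  refine ⟨⟨fun s => ?_, fun s => ?_, fun s => ?_⟩, ?_, ?_, ?_⟩
  · simp only [mem_setOf_eq, hG.rv]; exact hB.cor.rv _
  · simp only [mem_setOf_eq, hG.mi]; exact hB.cor.mi _
  · simp only [mem_setOf_eq, hG.pp]; exact hB.cor.pp _
  · have : cob w {t | g • t ∈ B} = (fun t => g • t) ⁻¹' cob w B := by
      ext s; exact hcob s
    rw [this]
    exact hB.fin.preimage (fun x _ y _ h => smul_left_cancel g h)
  · intro s n h1 h2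
    rw [hcob] at h1 h2
    rw [g_hz hG] at h2
    exact hB.one _ n h1 h2
  · intro s n m h1 h2
    rw [hcob, g_hz hG] at h1 h2
    rw [hG.pp] at h2
    exact hB.two _ n m h1 h2

end act

end MONE

open MONE in
theorem blk_MONE (SUB : Stmt_SUB) (ABS : Stmt_ABS) : Stmt_MONE := by
  intro S G I _ _ _ w N H A hG hH hmin c B hB hBH
  set F : I → Set (Set S) := fun c => {B | ArcSet w B ∧ B ⊆ H c} with hF
  set U : I → Set S := fun c => ⋃₀ F c with hU
  have hUH : ∀ c, U c ⊆ H c := fun c => sUnion_subset fun B hB => hB.2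
  have hUop : ∀ c x, x ∈ U (N.op c) → x ∉ H c := by
    intro c x hx hxH
    have := hUH _ hx
    rw [hH.op] at this
    exact this hxH
  -- first step
  have stp1 : ∀ c, Cor w (A c ∪ U c) ∧ (cob w (A c ∪ U c)).Finite ∧
      (cob w (A c ∪ U c)).ncard ≤ (cob w (A c)).ncard ∧
      (¬ U c ⊆ A c → (cob w (A c ∪ U c)).ncard < (cob w (A c)).ncard) := by
    intro c
    exact ABS S w (A c) (H c) (F c) (hmin.fam.cor c) (hmin.fam.fin c) (hmin.fin1 c) (hmin.fin2 c)
      (fun B hB => hB)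
  -- second step
  have stp2 : ∀ c, Cor w ((A c ∪ U c)ᶜ ∪ U (N.op c)) ∧
      (cob w ((A c ∪ U c)ᶜ ∪ U (N.op c))).Finite ∧
      (cob w ((A c ∪ U c)ᶜ ∪ U (N.op c))).ncard ≤ (cob w (A c ∪ U c)).ncard := by
    intro c
    obtain ⟨h1, h2, -⟩ := stp1 c
    have := ABS S w (A c ∪ U c)ᶜ (H (N.op c)) (F (N.op c)) (cor_compl h1)
      (by rw [cob_compl]; exact h2)
      (by
        refine (hmin.fin2 c).subset ?_
        rintro x ⟨hx1, hx2⟩
        rw [hH.op] at hx2
        exact ⟨not_not.1 hx2, fun h => hx1 (Or.inl h)⟩)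
      (by
        refine (hmin.fin1 c).subset ?_
        rintro x ⟨hx1, hx2⟩
        rw [hH.op] at hx1
        refine ⟨?_, hx1⟩
        rcases not_not.1 hx2 with h | h
        · exact h
        · exact absurd (hUH c h) hx1)
      (fun B hB => hB)
    rw [cob_compl w (A c ∪ U c)] at this
    exact ⟨this.1, this.2.1, this.2.2.1⟩
  -- the new family
  set A' : I → Set S := fun c => ((A c ∪ U c)ᶜ ∪ U (N.op c))ᶜ with hA'
  have mem' : ∀ c x, x ∈ A' c ↔ (x ∈ A c ∨ x ∈ U c) ∧ x ∉ U (N.op c) := by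
    intro c x
    simp only [hA', mem_compl_iff, mem_union]
    tauto
  have hdis : ∀ c x, x ∈ U c → x ∉ U (N.op c) := by
    intro c x hx hx'
    exact hUop c x hx' (hUH c hx)
  have hUmono : ∀ c d, N.le c d → U c ⊆ U d := by
    intro c d hcd x hx
    obtain ⟨B, ⟨hB1, hB2⟩, hxB⟩ := hx
    exact ⟨B, ⟨hB1, hB2.trans (hH.mono c d hcd)⟩, hxB⟩
  have hUeqv1 : ∀ (g : G) c s, s ∈ U c → g • s ∈ U (g • c) := by
    intro g c s hs
    obtain ⟨B, ⟨hB1, hB2⟩, hxB⟩ := hs
    refine ⟨{t | g⁻¹ • t ∈ B}, ⟨arc_smul hG g⁻¹ hB1, ?_⟩, ?_⟩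
    · intro t ht
      have := (hH.eqv g c (g⁻¹ • t)).2 (hB2 ht)
      rwa [smul_inv_smul] at this
    · simpa using hxB
  have hUeqv : ∀ (g : G) c s, g • s ∈ U (g • c) ↔ s ∈ U c := by
    intro g c s
    refine ⟨fun h => ?_, hUeqv1 g c s⟩
    have := hUeqv1 g⁻¹ _ _ h
    rwa [inv_smul_smul, inv_smul_smul] at this
  have fam' : Fam w N A' := by
    refine ⟨fun c => cor_compl (stp2 c).1, fun c => ?_, fun c => ?_, fun c d hcd => ?_,
      fun g c s => ?_⟩
    · simp only [hA']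
      rw [cob_compl]
      exact (stp2 c).2.1
    · ext x
      rw [mem', mem_compl_iff, mem', hmin.fam.op, N.op_op]
      have := hdis c x
      simp only [mem_compl_iff]
      tauto
    · intro x hx
      rw [mem'] at hx ⊢
      refine ⟨hx.1.imp (fun h => hmin.fam.mono c d hcd h) (fun h => hUmono c d hcd h), fun h => ?_⟩
      exact hx.2 (hUmono _ _ (N.le_op c d hcd) h)
    · rw [mem', mem', hmin.fam.eqv, hUeqv, ← N.g_op, hUeqv]
  have f1 : ∀ c, (A' c \ H c).Finite := by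
    intro c
    refine (hmin.fin1 c).subset ?_
    rintro x ⟨hx1, hx2⟩
    rw [mem'] at hx1
    refine ⟨?_, hx2⟩
    rcases hx1.1 with h | h
    · exact h
    · exact absurd (hUH c h) hx2
  have f2 : ∀ c, (H c \ A' c).Finite := by
    intro c
    refine (hmin.fin2 c).subset ?_
    rintro x ⟨hx1, hx2⟩
    rw [mem'] at hx2
    refine ⟨hx1, fun h => hx2 ⟨Or.inl h, fun h' => hUop c x h' hx1⟩⟩
  have le1 : ∀ c, (cob w (A' c)).ncard ≤ (cob w (A c ∪ U c)).ncard := by
    intro c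
    simp only [hA']
    rw [cob_compl]
    exact (stp2 c).2.2
  have eq1 := hmin.min A' fam' f1 f2 (fun c => (le1 c).trans (stp1 c).2.2.1) c
  have hsub : U c ⊆ A c := by
    by_contra hcon
    have h1 := (stp1 c).2.2.2 hcon
    have h2 := le1 c
    omega
  intro x hx
  exact hsub ⟨B, ⟨hB, hBH⟩, hx⟩

end Pool.CX.Low
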