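import Pool.Agent.Work.MP_727c87_lo.Min

/-! MP_727c87, part LOW, block MTWO (helper26): a minimal family has no strips. -/

set_option autoImplicit false

namespace Pool.CX.Low

open Set

namespace MTWO

variable {S : Type}

theorem sc_mem {w : WS S} {A : Set S} (h : Cor w A) {s t : S} (hst : SC w.rv w.mi w.pp s t) :
    t ∈ A ↔ s ∈ A := by
  rcases hst with rfl | rfl | rfl | rfl | rfl | rfl | rfl | rfl <;>
    simp only [h.rv, h.mi, h.pp]

theorem body_finite (w : WS S) (s : S) (k : ℕ) : (body w s k).Finite := by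
  have : body w s k ⊆ ⋃ i ∈ Finset.range k, {t | SC w.rv w.mi w.pp ((w.h ^ i) s) t} := by
    rintro t ⟨i, hi, ht⟩
    simp only [mem_iUnion]
    exact ⟨i, Finset.mem_range.2 hi, ht⟩
  refine Finite.subset ?_ this
  refine (Finset.range k).finite_toSet.biUnion fun i _ => ?_
  generalize (w.h ^ i) s = u
  have h2 : {t | SC w.rv w.mi w.pp u t} ⊆ {u, w.rv u, w.mi u, w.rv (w.mi u), w.pp u,
      w.rv (w.pp u), w.mi (w.pp u), w.rv (w.mi (w.pp u))} := by
    rintro t (rfl | rfl | rfl | rfl | rfl | rfl | rfl | rfl) <;> simp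
  exact (Set.toFinite _).subset h2

section act

variable {G : Type} [Group G] [MulAction G S] {w : WS S}

theorem g_hn (hG : Acts G w) (g : G) (n : ℕ) (s : S) : g • (w.h ^ n) s = (w.h ^ n) (g • s) := by
  induction n generalizing s with
  | zero => simp
  | succ n ih => rw [pow_succ, Equiv.Perm.mul_apply, Equiv.Perm.mul_apply, ih, hG.h]

theorem g_hs (hG : Acts G w) (g : G) (s : S) : g • w.h.symm s = w.h.symm (g • s) := by
  rw [Equiv.eq_symm_apply, ← hG.h, Equiv.apply_symm_apply]

theorem sc_smul (hG : Acts G w) (g : G) {s t : S} (h : SC w.rv w.mi w.pp s t) :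
    SC w.rv w.mi w.pp (g • s) (g • t) := by
  unfold SC
  rcases h with rfl | rfl | rfl | rfl | rfl | rfl | rfl | rfl <;>
    simp only [hG.rv, hG.mi, hG.pp, true_or, or_true]

theorem mem_body_smul (hG : Acts G w) (g : G) (s : S) (k : ℕ) (t : S) :
    t ∈ body w (g • s) k ↔ g⁻¹ • t ∈ body w s k := by
  constructor
  · rintro ⟨i, hi, ht⟩
    refine ⟨i, hi, ?_⟩
    have := sc_smul hG g⁻¹ ht
    rwa [← g_hn hG, inv_smul_smul] at this
  · rintro ⟨i, hi, ht⟩
    refine ⟨i, hi, ?_⟩
    have := sc_smul hG g ht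
    rwa [g_hn hG, smul_inv_smul] at this

variable {I : Type} [MulAction G I] {N : Nest G I} {A : I → Set S}

theorem strip_smul (hG : Acts G w) (hA : Fam w N A) (g : G) {c : I} {s : S} {k : ℕ}
    (h : Strip w (A c) s k) : Strip w (A (g • c)) (g • s) k where
  pos := h.pos
  mem i hi := by rw [← g_hn hG, hA.eqv]; exact h.mem i hi
  far i hi := by rw [← g_hn hG, ← hG.pp, ← hG.h, hA.eqv]; exact h.far i hi
  left := by rw [← g_hs hG, hA.eqv]; exact h.left
  right := by rw [← g_hn hG, hA.eqv]; exact h.right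

theorem cob_pre (hG : Acts G w) (g : G) (B : Set S) :
    cob w {t | g⁻¹ • t ∈ B} = (fun s : S => g • s) '' cob w B := by
  ext t
  constructor
  · intro ht
    refine ⟨g⁻¹ • t, ?_, smul_inv_smul g t⟩
    simp only [cob, mem_setOf_eq] at ht ⊢
    rwa [← hG.h]
  · rintro ⟨u, hu, rfl⟩
    simp only [cob, mem_setOf_eq] at hu ⊢
    rw [← hG.h, inv_smul_smul, inv_smul_smul]
    exact hu

theorem smul_inv_mem (hA : Fam w N A) (g : G) (c : I) (t : S) :
    g⁻¹ • t ∈ A c ↔ t ∈ A (g • c) := by
  rw [← hA.eqv g c (g⁻¹ • t), smul_inv_smul]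

theorem mem_inv (hA : Fam w N A) (g : G) (c : I) (t : S) :
    g⁻¹ • t ∈ A (g⁻¹ • c) ↔ t ∈ A c := hA.eqv g⁻¹ c t

/-- finitely many indices have a given state in the coboundary -/
theorem cob_finite (hG : Acts G w) (hA : Fam w N A) (u : S) : {c | u ∈ cob w (A c)}.Finite := by
  obtain ⟨T, hT⟩ := N.orb
  have hsub : {c | u ∈ cob w (A c)} ⊆ ⋃ c0 ∈ T, ⋃ t ∈ cob w (A c0),
      {c | ∃ g : G, g • c = c0 ∧ g • u = t} := by
    intro c hc
    obtain ⟨g, hg⟩ := hT c
    simp only [mem_iUnion]
    refine ⟨g • c, hg, g • u, ?_, g, rfl, rfl⟩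
    simp only [cob, mem_setOf_eq] at hc ⊢
    rwa [← hG.h, hA.eqv, hA.eqv]
  refine Finite.subset ?_ hsub
  refine T.finite_toSet.biUnion fun c0 _ => (hA.fin c0).biUnion fun t _ => ?_
  refine Set.Subsingleton.finite ?_
  rintro c ⟨g, h1, h2⟩ c' ⟨g', h1', h2'⟩
  have h3 : g'⁻¹ * g = 1 := by
    apply hG.free _ u
    rw [mul_smul, h2, ← h2', inv_smul_smul]
  have h4 : g = g' := by
    rw [inv_mul_eq_one] at h3
    exact h3.symm
  subst h4
  rw [← h1'] at h1
  exact smul_left_cancel g h1

end act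

end MTWO

open MTWO in
theorem blk_MTWO (SUB : Stmt_SUB) (FLIP : Stmt_FLIP) (OVL : Stmt_OVL) (INN : Stmt_INN) :
    Stmt_MTWO := by
  classical
  intro S G I _ _ _ w N H A hG hH hmin c1 s1 k1 hs1
  have hA := hmin.fam
  -- a strip of least length
  have hex : ∃ k c s, Strip w (A c) s k := ⟨k1, c1, s1, hs1⟩
  obtain ⟨k, ⟨c2, s, hc2⟩, hk⟩ : ∃ k, (∃ c s, Strip w (A c) s k) ∧
      ∀ k' < k, ¬ ∃ c s, Strip w (A c) s k' :=
    ⟨Nat.find hex, Nat.find_spec hex, fun k' h => Nat.find_min hex h⟩
  -- the finite set of the indices with this strip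
  have hTfin : {c | Strip w (A c) s k}.Finite := by
    refine (cob_finite hG hA (w.h.symm s)).subset fun c hc => ?_
    simp only [cob, mem_setOf_eq, Equiv.apply_symm_apply]
    have h0 : s ∈ A c := hc.mem 0 hc.pos
    exact fun h => hc.left (h.2 h0)
  -- a minimal one
  obtain ⟨c0, hc0, hc0m⟩ : ∃ c0, Strip w (A c0) s k ∧
      ∀ c, Strip w (A c) s k → N.le c c0 → c = c0 := by
    letI : PartialOrder I :=
      { le := N.le
        le_refl := N.le_refl
        le_trans := N.le_trans
        le_antisymm := N.le_antisymm }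
    obtain ⟨m, hm⟩ := hTfin.exists_minimal ⟨c2, hc2⟩
    refine ⟨m, hm.1, fun c hc hle => ?_⟩
    exact N.le_antisymm _ _ hle (hm.2 hc hle)
  obtain ⟨hbC, hbA, hfin, hlt⟩ := FLIP S w (A c0) s k (hA.cor c0) (hA.fin c0) hc0
  have claim : ∀ L, N.le L c0 → L ≠ c0 → ∀ t ∈ body w s k, t ∉ A L := by
    rintro L hle hne t ⟨i, hi, ht⟩ htL
    have h1 : (w.h ^ i) s ∈ A L := (sc_mem (hA.cor L) ht).1 htL
    obtain ⟨i1, k', h2, h3⟩ := INN S w (A c0) (A L) s k i hc0 (hA.mono L c0 hle) hi h1
    have h4 : ¬ k' < k := fun h => hk k' h ⟨L, _, h3⟩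
    have h5 : k' = k := by omega
    have h6 : i1 = 0 := by omega
    subst h5 h6
    exact hne (hc0m L h3 hle)
  let X : I → Set S := fun d => {t | ∃ g : G, g • c0 = d ∧ g⁻¹ • t ∈ body w s k}
  have hXA : ∀ d t, t ∈ X d → t ∈ A d := by
    rintro d t ⟨g, rfl, ht⟩
    exact (smul_inv_mem hA g c0 t).1 (hbA ht)
  have hop : ∀ d t, t ∈ A (N.op d) ↔ t ∉ A d := by
    intro d t
    rw [hA.op]
    rfl
  -- elements of smaller sets are not in `X`
  have hcl : ∀ d e t, N.le d e → d ≠ e → t ∈ X e → t ∉ A d := by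
    rintro d e t hle hne ⟨g, rfl, ht⟩ htd
    refine claim (g⁻¹ • d) ?_ ?_ _ ht ((mem_inv hA g d t).2 htd)
    · have := N.g_le g⁻¹ _ _ hle
      rwa [inv_smul_smul] at this
    · intro h
      apply hne
      rw [← h, smul_inv_smul]
  have hXX : ∀ d e t, N.le d e → d ≠ e → t ∈ X (N.op d) → t ∉ X e := by
    rintro d e t hle hne ht ht'
    have hle' := N.le_op d e hle
    have hne' : N.op e ≠ N.op d := fun h => hne (by rw [← N.op_op d, ← h, N.op_op])
    obtain ⟨g, hg, h1⟩ := id ht
    obtain ⟨g2, hg2, h2⟩ := id ht'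
    have hS1 : Strip w (A (N.op d)) (g • s) k := by rw [← hg]; exact strip_smul hG hA g hc0
    have hS2 : Strip w (A e) (g2 • s) k := by rw [← hg2]; exact strip_smul hG hA g2 hc0
    have hdis := OVL S w _ _ _ _ k (hA.cor _) (hA.cor _) hS1 hS2 (by
        ext u
        simp only [mem_union, mem_univ, iff_true]
        by_cases hu : u ∈ A d
        · exact Or.inr (hA.mono d e hle hu)
        · exact Or.inl ((hop d u).2 hu)) (by
        intro u hu
        have hu2 : u ∈ X (N.op d) := ⟨g, hg, (mem_body_smul hG g s k u).1 hu⟩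
        have := hcl (N.op e) (N.op d) u hle' hne' hu2
        rw [hop] at this
        exact not_not.1 this) (by
        intro u hu
        have hu2 : u ∈ X e := ⟨g2, hg2, (mem_body_smul hG g2 s k u).1 hu⟩
        exact (hop d u).2 (hcl d e u hle hne hu2))
    exact Set.disjoint_left.1 hdis ((mem_body_smul hG g s k t).2 h1)
      ((mem_body_smul hG g2 s k t).2 h2)
  let A' : I → Set S := fun d => (A d \ X d) ∪ X (N.op d)
  have hXop : ∀ d t, t ∈ X d → t ∉ X (N.op d) := fun d t h h' =>
    (hop d t).1 (hXA _ t h') (hXA _ t h)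
  have hA'op : ∀ d, A' (N.op d) = (A' d)ᶜ := by
    intro d
    ext t
    have h1 := hXop d t
    have h2 := hop d t
    have h3 := hXA d t
    have h4 := hXA (N.op d) t
    simp only [A', N.op_op, mem_union, mem_diff, mem_compl_iff]
    tauto
  have hXg : ∀ (g : G) d t, g • t ∈ X (g • d) ↔ t ∈ X d := by
    intro g d t
    constructor
    · rintro ⟨g', h1, h2⟩
      refine ⟨g⁻¹ * g', ?_, ?_⟩
      · rw [mul_smul, h1, inv_smul_smul]
      · rw [mul_inv_rev, inv_inv, mul_smul]
        exact h2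
    · rintro ⟨g', h1, h2⟩
      refine ⟨g * g', ?_, ?_⟩
      · rw [mul_smul, h1]
      · rw [mul_inv_rev, mul_smul, inv_smul_smul]
        exact h2
  have hXcor : ∀ d, Cor w (X d) := by
    intro d
    refine ⟨fun t => ?_, fun t => ?_, fun t => ?_⟩
    · constructor
      · rintro ⟨g, h1, h2⟩
        exact ⟨g, h1, (hbC.rv _).1 (by rw [← hG.rv]; exact h2)⟩
      · rintro ⟨g, h1, h2⟩
        exact ⟨g, h1, by rw [hG.rv]; exact (hbC.rv _).2 h2⟩
    · constructor
      · rintro ⟨g, h1, h2⟩
        exact ⟨g, h1, (hbC.mi _).1 (by rw [← hG.mi]; exact h2)⟩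
      · rintro ⟨g, h1, h2⟩
        exact ⟨g, h1, by rw [hG.mi]; exact (hbC.mi _).2 h2⟩
    · constructor
      · rintro ⟨g, h1, h2⟩
        exact ⟨g, h1, (hbC.pp _).1 (by rw [← hG.pp]; exact h2)⟩
      · rintro ⟨g, h1, h2⟩
        exact ⟨g, h1, by rw [hG.pp]; exact (hbC.pp _).2 h2⟩
  have hXfin : ∀ d, (X d).Finite := by
    intro d
    by_cases h : ∃ g : G, g • c0 = d
    · obtain ⟨g, hg⟩ := h
      have : X d ⊆ (fun t : S => g • t) '' body w s k := by
        rintro t ⟨g', h1, h2⟩
        have h3 : g' = g := by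
          have h4 : g⁻¹ * g' = 1 := by
            apply N.free _ c0
            rw [mul_smul, h1, ← hg, inv_smul_smul]
          rw [inv_mul_eq_one] at h4
          exact h4.symm
        subst h3
        exact ⟨_, h2, smul_inv_smul _ _⟩
      exact ((body_finite w s k).image _).subset this
    · have : X d = ∅ := by
        ext t
        simp only [mem_empty_iff_false, iff_false]
        rintro ⟨g, h1, -⟩
        exact h ⟨g, h1⟩
      rw [this]
      exact finite_empty
  -- the coboundaries of `A'`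
  have hcob0 : ∀ g : G, (cob w (A' (g • c0))).Finite ∧
      (cob w (A' (g • c0))).ncard < (cob w (A (g • c0))).ncard := by
    intro g
    have h1 : A' (g • c0) = {t | g⁻¹ • t ∈ A c0 \ body w s k} := by
      ext t
      have h2 : t ∉ X (N.op (g • c0)) := by
        rintro ⟨g', h3, -⟩
        apply N.noinv (g⁻¹ * g') c0
        rw [mul_smul, h3, N.g_op, inv_smul_smul]
      have h3 : t ∈ X (g • c0) ↔ g⁻¹ • t ∈ body w s k := by
        constructor
        · rintro ⟨g', h4, h5⟩
          have h6 : g⁻¹ * g' = 1 := by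
            apply N.free _ c0
            rw [mul_smul, h4, inv_smul_smul]
          rw [inv_mul_eq_one] at h6
          rw [h6]
          exact h5
        · intro h4
          exact ⟨g, rfl, h4⟩
      have h4 := smul_inv_mem hA g c0 t
      simp only [A', mem_union, mem_diff, mem_setOf_eq]
      tauto
    have h2 : A (g • c0) = {t | g⁻¹ • t ∈ A c0} := by
      ext t
      exact (smul_inv_mem hA g c0 t).symm
    rw [h1, h2, cob_pre hG, cob_pre hG,
      ncard_image_of_injective _ (MulAction.injective g),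
      ncard_image_of_injective _ (MulAction.injective g)]
    exact ⟨hfin.image _, hlt⟩
  have hcob : ∀ d, (cob w (A' d)).Finite ∧ (cob w (A' d)).ncard ≤ (cob w (A d)).ncard := by
    intro d
    by_cases h : ∃ g : G, g • c0 = d
    · obtain ⟨g, rfl⟩ := h
      exact ⟨(hcob0 g).1, (hcob0 g).2.le⟩
    · by_cases h' : ∃ g : G, g • c0 = N.op d
      · obtain ⟨g, hg⟩ := h'
        have h1 := hcob0 g
        rw [hg] at h1
        rw [hA'op, hA.op, (SUB S w (A' d) (A' d)).1, (SUB S w (A d) (A d)).1] at h1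
        exact ⟨h1.1, h1.2.le⟩
      · have h1 : A' d = A d := by
          ext t
          have h2 : t ∉ X d := by
            rintro ⟨g, h3, -⟩
            exact h ⟨g, h3⟩
          have h3 : t ∉ X (N.op d) := by
            rintro ⟨g, h3, -⟩
            exact h' ⟨g, h3⟩
          simp only [A', mem_union, mem_diff]
          tauto
        rw [h1]
        exact ⟨hA.fin d, le_rfl⟩
  have hfam : Fam w N A' := by
    refine ⟨fun d => ?_, fun d => (hcob d).1, hA'op, ?_, ?_⟩
    · refine ⟨fun t => ?_, fun t => ?_, fun t => ?_⟩ <;>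
        simp only [A', mem_union, mem_diff, (hA.cor d).rv, (hXcor d).rv, (hXcor (N.op d)).rv,
          (hA.cor d).mi, (hXcor d).mi, (hXcor (N.op d)).mi,
          (hA.cor d).pp, (hXcor d).pp, (hXcor (N.op d)).pp]
    · intro d e hle t ht
      by_cases hne : d = e
      · rw [← hne]
        exact ht
      · have h1 := hcl d e t hle hne
        have h2 := hXX d e t hle hne
        have h3 := @hA.mono d e hle t
        have h4 : t ∈ X (N.op d) → t ∉ A (N.op e) := hcl (N.op e) (N.op d) t (N.le_op d e hle)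
          (fun h => hne (by rw [← N.op_op d, ← h, N.op_op]))
        have h5 := hop e t
        simp only [A', mem_union, mem_diff] at ht ⊢
        tauto
    · intro g d t
      simp only [A', mem_union, mem_diff, hXg, hA.eqv, ← N.g_op]
  have := hmin.min A' hfam (fun c => ?_) (fun c => ?_) (fun c => (hcob c).2) c0
  · have h1 := (hcob0 1).2
    rw [one_smul] at h1
    omega
  · refine ((hmin.fin1 c).union (hXfin (N.op c))).subset ?_
    rintro t ⟨ht, htH⟩
    rcases ht with ht | ht
    · exact Or.inl ⟨ht.1, htH⟩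
    · exact Or.inr ht
  · refine ((hmin.fin2 c).union (hXfin c)).subset ?_
    rintro t ⟨htH, ht⟩
    by_cases hX : t ∈ X c
    · exact Or.inr hX
    · refine Or.inl ⟨htH, fun hA1 => ht (Or.inl ⟨hA1, hX⟩)⟩

end Pool.CX.Low
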