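import Pool.Agent.Work.MP_727c87_lo.Loc

/-!
# MP_727c87_gt, part LOW, block ODD: colourings of the corners of an admissible chamber
-/

set_option autoImplicit false

namespace Pool.CX

open Pool.CS Pool.W1P

namespace Low

namespace ODD

theorem sub_val (a b : ZMod 12) : (a - b).val = (a.val + (12 - b.val)) % 12 := by
  revert a b; decide

theorem add_val (a : ZMod 12) (k : ℕ) : (a + (k : ZMod 12)).val = (a.val + k) % 12 := by
  rw [ZMod.val_add, ZMod.val_natCast]; omega

theorem ext_val {a b : ZMod 12} (h : a.val = b.val) : a = b := ZMod.val_injective 12 h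

theorem lt (a : ZMod 12) : a.val < 12 := ZMod.val_lt a

/-- the other side of a chord -/
theorem not_in {M : ZMod 12 → ZMod 12} (hM : Good M) (i k : ZMod 12) :
    ¬ In M i k ↔ In M (M i) k := by
  unfold In
  rw [hM.inv i]
  have hne : M i ≠ i := by
    intro h
    have h2 := hM.far i
    rw [h] at h2
    unfold Far cd at h2
    simp at h2
  have h1 : (M i).val ≠ i.val := fun h => hne (ext_val h)
  rw [sub_val, sub_val, sub_val, sub_val]
  have := lt i
  have := lt k
  have := lt (M i)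
  omega

theorem in_self {M : ZMod 12 → ZMod 12} (hM : Good M) (i : ZMod 12) : In M i i := by
  unfold In
  have hne : M i ≠ i := by
    intro h
    have h2 := hM.far i
    rw [h] at h2
    unfold Far cd at h2
    simp at h2
  have h1 : (M i).val ≠ i.val := fun h => hne (ext_val h)
  rw [sub_val, sub_val]
  have := lt i
  have := lt (M i)
  omega

theorem in_pred {M : ZMod 12 → ZMod 12} (hM : Good M) (i : ZMod 12) : In M (M i) (i - 1) := by
  unfold In
  rw [hM.inv i]
  have hne : M i ≠ i := by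
    intro h
    have h2 := hM.far i
    rw [h] at h2
    unfold Far cd at h2
    simp at h2
  have h1 : (M i).val ≠ i.val := fun h => hne (ext_val h)
  have h2 : (i - 1).val = (i.val + 11) % 12 := by rw [sub_val]; rfl
  rw [sub_val (i - 1) (M i), sub_val i (M i), h2]
  have := lt i
  have := lt (M i)
  omega

/-- every chord has a monochromatic side -/
theorem mono {M : ZMod 12 → ZMod 12} (hM : Good M) {x : ZMod 12 → Prop}
    (h : ¬ ∃ i, (∃ k, In M i k ∧ x k) ∧ (∃ k, In M i k ∧ ¬ x k) ∧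
      (∃ k, ¬ In M i k ∧ x k) ∧ ∃ k, ¬ In M i k ∧ ¬ x k) (i : ZMod 12) :
    (∀ k, In M i k → (x k ↔ x i)) ∨ (∀ k, In M (M i) k → (x k ↔ x (i - 1))) := by
  by_contra hcon
  push Not at hcon
  obtain ⟨⟨k1, hk1, hx1⟩, k2, hk2, hx2⟩ := hcon
  apply h
  have e1 := in_self hM i
  have e2 : ¬ In M i (i - 1) := (not_in hM i _).2 (in_pred hM i)
  have hk2' : ¬ In M i k2 := (not_in hM i _).2 hk2
  refine ⟨i, ?_, ?_, ?_, ?_⟩
  · by_cases hx : x i
    · exact ⟨i, e1, hx⟩
    · exact ⟨k1, hk1, by tauto⟩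
  · by_cases hx : x i
    · exact ⟨k1, hk1, by tauto⟩
    · exact ⟨i, e1, hx⟩
  · by_cases hx : x (i - 1)
    · exact ⟨i - 1, e2, hx⟩
    · exact ⟨k2, hk2', by tauto⟩
  · by_cases hx : x (i - 1)
    · exact ⟨k2, hk2', by tauto⟩
    · exact ⟨i - 1, e2, hx⟩

end ODD

theorem blk_ODD : Stmt_ODD := by
  classical
  intro M hM x hx
  by_cases hfirst : ∃ i, (∃ k, In M i k ∧ x k) ∧ (∃ k, In M i k ∧ ¬ x k) ∧
      (∃ k, ¬ In M i k ∧ x k) ∧ ∃ k, ¬ In M i k ∧ ¬ x k
  · exact Or.inl hfirst
  right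
  have hmono := ODD.mono hM hfirst
  -- a chord whose side `In M i0` is monochromatic
  obtain ⟨i0, hi0⟩ : ∃ i0, ∀ k, In M i0 k → (x k ↔ x i0) := by
    rcases hmono 0 with h | h
    · exact ⟨0, h⟩
    · refine ⟨M 0, fun k hk => ?_⟩
      exact (h k hk).trans (h (M 0) (ODD.in_self hM (M 0))).symm
  -- the maximal monochromatic interval which contains `i0`
  have hdiff : ∃ w, ¬ (x w ↔ x i0) := by
    obtain ⟨u, v, hu, hv⟩ := hx
    by_cases h : x i0
    · exact ⟨v, fun h' => hv (h'.2 h)⟩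
    · exact ⟨u, fun h' => h (h'.1 hu)⟩
  have hback : ∃ s : ℕ, ¬ (x (i0 - ((s + 1 : ℕ) : ZMod 12)) ↔ x i0) := by
    obtain ⟨w, hw⟩ := hdiff
    refine ⟨(i0 - w).val + 11, ?_⟩
    have : i0 - (((i0 - w).val + 11 + 1 : ℕ) : ZMod 12) = w := by
      have h12 : ((12 : ℕ) : ZMod 12) = 0 := by decide
      rw [show (i0 - w).val + 11 + 1 = (i0 - w).val + 12 from rfl, Nat.cast_add, h12, add_zero,
        ZMod.natCast_zmod_val]
      ring
    rw [this]
    exact hw
  set s : ℕ := Nat.find hback with hs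
  have hs1 := Nat.find_spec hback
  have hs2 : ∀ j < s, (x (i0 - ((j + 1 : ℕ) : ZMod 12)) ↔ x i0) := fun j hj =>
    not_not.1 (Nat.find_min hback hj)
  rw [← hs] at hs1
  set u : ZMod 12 := i0 - (s : ZMod 12) with hu
  have hxu : x u ↔ x i0 := by
    rcases Nat.eq_zero_or_pos s with h | h
    · rw [hu, h]; simp
    · have := hs2 (s - 1) (by omega)
      rwa [Nat.sub_add_cancel h] at this
  have hus : ∀ j ≤ s, (x (u + (j : ZMod 12)) ↔ x i0) := by
    intro j hj
    rcases Nat.eq_or_lt_of_le hj with h | h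
    · rw [h, hu, sub_add_cancel]
    · have h3 := hs2 (s - j - 1) (by omega)
      have h4 : i0 - ((s - j - 1 + 1 : ℕ) : ZMod 12) = u + (j : ZMod 12) := by
        rw [Nat.sub_add_cancel (by omega), Nat.cast_sub (by omega), hu]
        ring
      rwa [h4] at h3
  have hupred : ¬ (x (u - 1) ↔ x i0) := by
    have h4 : i0 - ((s + 1 : ℕ) : ZMod 12) = u - 1 := by
      rw [Nat.cast_add, Nat.cast_one, hu]; ring
    rwa [h4] at hs1
  have hforw : ∃ l : ℕ, ¬ (x (u + (l : ZMod 12)) ↔ x i0) := by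
    refine ⟨11, ?_⟩
    have : u + ((11 : ℕ) : ZMod 12) = u - 1 := by
      have h12 : ((11 : ℕ) : ZMod 12) = -1 := by decide
      rw [h12]; ring
    rw [this]
    exact hupred
  set L : ℕ := Nat.find hforw with hL
  have hL1 := Nat.find_spec hforw
  rw [← hL] at hL1
  have hL2 : ∀ j < L, (x (u + (j : ZMod 12)) ↔ x i0) := fun j hj =>
    not_not.1 (Nat.find_min hforw hj)
  have hL11 : L ≤ 11 := by
    apply Nat.find_min' hforw
    have : u + ((11 : ℕ) : ZMod 12) = u - 1 := by
      have h12 : ((11 : ℕ) : ZMod 12) = -1 := by decide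
      rw [h12]; ring
    rw [this]
    exact hupred
  have hsL : s < L := by
    by_contra h
    exact hL1 (hus L (by omega))
  -- offsets
  let off : ℕ → ℕ := fun b => (M (u + (b : ZMod 12)) - u).val
  have hoff_lt : ∀ b, off b < 12 := fun b => ZMod.val_lt _
  have hoff_eq : ∀ b, u + ((off b : ℕ) : ZMod 12) = M (u + (b : ZMod 12)) := by
    intro b
    change u + (((M (u + (b : ZMod 12)) - u).val : ℕ) : ZMod 12) = _
    rw [ZMod.natCast_zmod_val]
    ring
  have hoff_off : ∀ b < 12, off (off b) = b := by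
    intro b hb
    change (M (u + ((off b : ℕ) : ZMod 12)) - u).val = b
    rw [hoff_eq, hM.inv]
    have : u + (b : ZMod 12) - u = (b : ZMod 12) := by ring
    rw [this, ZMod.val_natCast, Nat.mod_eq_of_lt hb]
  have hvu := ODD.lt u
  -- the first claim, in the direction `In M j`
  have hfwd : ∀ b, b < L → (∀ k, In M (u + (b : ZMod 12)) k → (x k ↔ x i0)) → off b ≤ L := by
    intro b hb h
    by_contra hcon
    push Not at hcon
    apply hL1
    apply h
    unfold In
    have h1 : (M (u + (b : ZMod 12)) - u).val = off b := rfl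
    have h2 := hoff_lt b
    have h3 := ODD.lt (M (u + (b : ZMod 12)))
    have h5 := ODD.add_val u b
    have h6 := ODD.add_val u L
    rw [ODD.sub_val] at h1
    rw [ODD.sub_val (u + (L : ZMod 12)), ODD.sub_val (M (u + (b : ZMod 12))), h5, h6]
    omega
  have hbwd : ∀ b, 1 ≤ b → b < L →
      (∀ k, In M (M (u + (b : ZMod 12))) k → (x k ↔ x i0)) → off b ≤ L := by
    intro b hb1 hb h
    by_contra hcon
    push Not at hcon
    apply hupred
    apply h
    unfold In
    rw [hM.inv]
    have h1 : (M (u + (b : ZMod 12)) - u).val = off b := rfl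
    have h2 := hoff_lt b
    have h3 := ODD.lt (M (u + (b : ZMod 12)))
    have h4 : (u - 1).val = (u.val + 11) % 12 := by rw [ODD.sub_val]; rfl
    have h5 := ODD.add_val u b
    rw [ODD.sub_val] at h1
    rw [ODD.sub_val (u - 1), ODD.sub_val (u + (b : ZMod 12)), h4, h5]
    omega
  have hA : ∀ b, 1 ≤ b → b < L → off b ≤ L := by
    intro b hb1 hb
    rcases hmono (u + (b : ZMod 12)) with h | h
    · exact hfwd b hb fun k hk => (h k hk).trans (hL2 b hb)
    · apply hbwd b hb1 hb
      intro k hk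
      refine (h k hk).trans ?_
      have h6 : u + (b : ZMod 12) - 1 = u + ((b - 1 : ℕ) : ZMod 12) := by
        rw [Nat.cast_sub hb1]; push_cast; ring
      rw [h6]
      exact hL2 (b - 1) (by omega)
  have hB : off s ≤ L := by
    apply hfwd s hsL
    have : u + (s : ZMod 12) = i0 := by rw [hu]; ring
    rw [this]
    exact hi0
  -- the interval is everything
  have hL' : L = 11 := by
    by_contra hne
    have hL10 : L ≤ 10 := by omega
    let J : ℕ → Prop := fun b => b ≤ L ∧ off b ≤ L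
    have hJ : ∀ b, J b → J (off b) := by
      intro b hb
      exact ⟨hb.2, by rw [hoff_off b (by omega)]; exact hb.1⟩
    obtain ⟨α, hα⟩ : ∃ α : ℕ, (J 0 ∧ α = 0) ∨ (¬ J 0 ∧ α = 1) := by
      by_cases h : J 0
      · exact ⟨0, Or.inl ⟨h, rfl⟩⟩
      · exact ⟨1, Or.inr ⟨h, rfl⟩⟩
    obtain ⟨top, htop⟩ : ∃ top : ℕ, (J L ∧ top = L) ∨ (¬ J L ∧ top = L - 1) := by
      by_cases h : J L
      · exact ⟨L, Or.inl ⟨h, rfl⟩⟩
      · exact ⟨L - 1, Or.inr ⟨h, rfl⟩⟩
    have hin : ∀ b, J b → α ≤ b ∧ b ≤ top := by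
      intro b hb
      constructor
      · rcases hα with ⟨_, h⟩ | ⟨h0, h⟩
        · omega
        · have : b ≠ 0 := fun h' => h0 (h' ▸ hb)
          omega
      · rcases htop with ⟨_, h⟩ | ⟨h0, h⟩
        · rw [h]; exact hb.1
        · have : b ≠ L := fun h' => h0 (h' ▸ hb)
          have := hb.1
          omega
    have hout : ∀ b, α ≤ b → b ≤ top → J b := by
      intro b hb1 hb2
      have hbL : b ≤ L := by rcases htop with ⟨_, h⟩ | ⟨_, h⟩ <;> omega
      rcases Nat.eq_zero_or_pos b with h0 | h0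
      · rcases hα with ⟨hJ0, _⟩ | ⟨_, h⟩
        · rw [h0]; exact hJ0
        · omega
      · rcases Nat.eq_or_lt_of_le hbL with h1 | h1
        · rcases htop with ⟨hJL, _⟩ | ⟨_, h⟩
          · rw [h1]; exact hJL
          · omega
        · exact ⟨hbL, hA b h0 h1⟩
    have hJs : J s := ⟨hsL.le, hB⟩
    have hs3 := hin s hJs
    have htopL : top ≤ L := by rcases htop with ⟨_, h⟩ | ⟨_, h⟩ <;> omega
    obtain ⟨i, hi1, hi2⟩ := hM.conn (u + (α : ZMod 12)) (top - α + 1) (by omega) (by omega)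
    have hJi : J (α + i) := hout (α + i) (by omega) (by omega)
    have hJi2 := hin _ (hJ _ hJi)
    have h7 : u + (α : ZMod 12) + (i : ZMod 12) = u + ((α + i : ℕ) : ZMod 12) := by
      push_cast; ring
    rw [h7, ← hoff_eq] at hi2
    have h8 : u + ((off (α + i) : ℕ) : ZMod 12) - (u + (α : ZMod 12)) =
        ((off (α + i) - α : ℕ) : ZMod 12) := by
      rw [Nat.cast_sub hJi2.1]; ring
    rw [h8, ZMod.val_natCast, Nat.mod_eq_of_lt (by have := hoff_lt (α + i); omega)] at hi2
    omega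
  -- the odd corner
  refine ⟨u + ((11 : ℕ) : ZMod 12), fun w hw => ?_⟩
  rw [hL'] at hL1 hL2
  have h9 : w = u + (((w - u).val : ℕ) : ZMod 12) := by
    rw [ZMod.natCast_zmod_val]; ring
  have h10 : (w - u).val < 11 := by
    have h11 := ZMod.val_lt (w - u)
    have h12 : (w - u).val ≠ 11 := by
      intro h
      apply hw
      rw [h9, h]
    omega
  have h13 := hL2 _ h10
  rw [← h9] at h13
  tauto

end Low

end Pool.CX
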