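import Pool.Agent.Work.MP_727c87_lo.Min

/-! MP_727c87, part LOW, block OVL (helper51). -/

set_option autoImplicit false

namespace Pool.CX.Low

open Set

namespace OVL

variable {S : Type} (w : WS S)

lemma h_rv' (x : S) : w.h (w.rv x) = w.rv (w.h.symm x) := by
  have := w.h_rv (w.h.symm x)
  rwa [Equiv.apply_symm_apply] at this

lemma hn_mi (n : ℕ) (x : S) : (w.h ^ n) (w.mi x) = w.mi ((w.h ^ n) x) := by
  induction n generalizing x with
  | zero => simp
  | succ n ih => rw [pow_succ, Equiv.Perm.mul_apply, Equiv.Perm.mul_apply, w.h_mi, ih]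

lemma hz_mi (n : ℤ) (x : S) : (w.h ^ n) (w.mi x) = w.mi ((w.h ^ n) x) := by
  obtain ⟨m, rfl | rfl⟩ := Int.eq_nat_or_neg n
  · rw [zpow_natCast, hn_mi]
  · rw [zpow_neg, zpow_natCast, Equiv.Perm.inv_eq_iff_eq, hn_mi, ← Equiv.Perm.mul_apply,
      mul_inv_cancel, Equiv.Perm.one_apply]

lemma hn_rv (n : ℕ) (x : S) : (w.h ^ n) (w.rv x) = w.rv ((w.h⁻¹ ^ n) x) := by
  induction n generalizing x with
  | zero => simp
  | succ n ih =>
    rw [pow_succ, pow_succ, Equiv.Perm.mul_apply, Equiv.Perm.mul_apply, h_rv', ih]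
    rfl

lemma hz_rv (n : ℤ) (x : S) : (w.h ^ n) (w.rv x) = w.rv ((w.h ^ (-n)) x) := by
  obtain ⟨m, rfl | rfl⟩ := Int.eq_nat_or_neg n
  · rw [zpow_natCast, hn_rv, zpow_neg, zpow_natCast, inv_pow]
  · rw [neg_neg, zpow_neg, zpow_natCast, Equiv.Perm.inv_eq_iff_eq, hn_rv,
      ← Equiv.Perm.mul_apply, inv_pow, inv_mul_cancel, Equiv.Perm.one_apply]

variable {w}

/-- membership in a corner set does not depend on the state at the corner -/
lemma mem_iff {A : Set S} (hA : Cor w A) {s t : S} (h : SC w.rv w.mi w.pp s t) :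
    t ∈ A ↔ s ∈ A := by
  rcases h with rfl | rfl | rfl | rfl | rfl | rfl | rfl | rfl <;>
    simp only [hA.rv, hA.mi, hA.pp]

variable (w)

lemma mi_rv (x : S) : w.mi (w.rv x) = w.rv (w.mi x) := (w.rv_mi x).symm

lemma sc_symm {s t : S} (h : SC w.rv w.mi w.pp s t) : SC w.rv w.mi w.pp t s := by
  rcases h with rfl | rfl | rfl | rfl | rfl | rfl | rfl | rfl <;>
    simp [SC, mi_rv, w.rv_rv, w.mi_mi, w.pp_pp, w.pp_rv, w.pp_mi]

lemma sc_trans {s t u : S} (h : SC w.rv w.mi w.pp s t) (h' : SC w.rv w.mi w.pp t u) :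
    SC w.rv w.mi w.pp s u := by
  rcases h with rfl | rfl | rfl | rfl | rfl | rfl | rfl | rfl <;>
    rcases h' with rfl | rfl | rfl | rfl | rfl | rfl | rfl | rfl <;>
      simp [SC, mi_rv, w.rv_rv, w.mi_mi, w.pp_pp, w.pp_rv, w.pp_mi]

end OVL

open OVL in
theorem blk_OVL : Stmt_OVL := by
  intro S w A1 A2 s1 s2 k hA1 hA2 st1 st2 hcov hb1 hb2
  rw [Set.disjoint_left]
  rintro t ⟨i, hi, hit⟩ ⟨j, hj, hjt⟩
  have hsc : SC w.rv w.mi w.pp ((w.h ^ i) s1) ((w.h ^ j) s2) := sc_trans w hit (sc_symm w hjt)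
  -- places on the two walls, as integers
  set P : ℤ → S := fun n => (w.h ^ n) s1 with hP
  set Q : ℤ → S := fun n => (w.h ^ n) s2 with hQ
  have cov : ∀ x, x ∉ A1 → x ∈ A2 := fun x hx => by
    have : x ∈ A1 ∪ A2 := by rw [hcov]; trivial
    exact this.resolve_left hx
  have hPb : ∀ n : ℤ, 0 ≤ n → n < k → P n ∈ A2 := by
    intro n h0 hn
    apply hb1
    refine ⟨n.toNat, by omega, Or.inl ?_⟩
    simp only [hP]
    conv_lhs => rw [← Int.toNat_of_nonneg h0]
    rw [zpow_natCast]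
  have hQb : ∀ n : ℤ, 0 ≤ n → n < k → Q n ∈ A1 := by
    intro n h0 hn
    apply hb2
    refine ⟨n.toNat, by omega, Or.inl ?_⟩
    simp only [hQ]
    conv_lhs => rw [← Int.toNat_of_nonneg h0]
    rw [zpow_natCast]
  have hPl : P (-1) ∉ A1 := by
    have := st1.left
    simp only [hP, zpow_neg, zpow_one]
    exact this
  have hQl : Q (-1) ∉ A2 := by
    have := st2.left
    simp only [hQ, zpow_neg, zpow_one]
    exact this
  have hPr : P k ∉ A1 := by
    have := st1.right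
    simp only [hP, zpow_natCast]
    exact this
  have hQr : Q k ∉ A2 := by
    have := st2.right
    simp only [hQ, zpow_natCast]
    exact this
  have hPi : (w.h ^ i) s1 = P i := by simp only [hP, zpow_natCast]
  have hQj : (w.h ^ j) s2 = Q j := by simp only [hQ, zpow_natCast]
  have hPadd : ∀ m n : ℤ, (w.h ^ m) (P n) = P (m + n) := by
    intro m n
    simp only [hP]
    rw [zpow_add, Equiv.Perm.mul_apply]
  have hQadd : ∀ m n : ℤ, (w.h ^ m) (Q n) = Q (m + n) := by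
    intro m n
    simp only [hQ]
    rw [zpow_add, Equiv.Perm.mul_apply]
  have hfar : w.h (w.pp (P i)) ∉ A1 := by
    have := st1.far i hi
    rwa [hPi] at this
  rw [hPi, hQj] at hsc
  -- membership
  have m1 : ∀ x, w.mi x ∈ A1 ↔ x ∈ A1 := hA1.mi
  have m2 : ∀ x, w.mi x ∈ A2 ↔ x ∈ A2 := hA2.mi
  have r1 : ∀ x, w.rv x ∈ A1 ↔ x ∈ A1 := hA1.rv
  have r2 : ∀ x, w.rv x ∈ A2 ↔ x ∈ A2 := hA2.rv
  -- same wall, same direction
  have same : (∀ m : ℤ, ((Q (m + j) ∈ A1 ↔ P (m + i) ∈ A1) ∧ (Q (m + j) ∈ A2 ↔ P (m + i) ∈ A2))) →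
      False := by
    intro hm
    rcases lt_trichotomy i j with hij | hij | hij
    · have e1 := (hm (-1 - i)).1
      rw [show (-1 - (i : ℤ)) + i = -1 by ring] at e1
      exact hPl (e1.1 (hQb _ (by omega) (by omega)))
    · subst hij
      have e1 := (hm (-1 - i)).2
      rw [show (-1 - (i : ℤ)) + i = -1 by ring] at e1
      exact hQl (e1.2 (cov _ hPl))
    · have e1 := (hm (-1 - j)).2
      rw [show (-1 - (j : ℤ)) + j = -1 by ring] at e1
      exact hQl (e1.2 (hPb _ (by omega) (by omega)))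
  -- same wall, opposite direction
  have oppo : (∀ m : ℤ, ((Q (m + j) ∈ A1 ↔ P (-m + i) ∈ A1) ∧
      (Q (m + j) ∈ A2 ↔ P (-m + i) ∈ A2))) → False := by
    intro hm
    rcases lt_trichotomy (i + j + 1) k with hij | hij | hij
    · have e1 := (hm (-1 - j)).2
      rw [show (-1 - (j : ℤ)) + j = -1 by ring] at e1
      exact hQl (e1.2 (hPb _ (by omega) (by omega)))
    · have e1 := (hm (-1 - j)).2
      rw [show (-1 - (j : ℤ)) + j = -1 by ring,
        show (-(-1 - (j : ℤ)) + i) = (k : ℤ) by omega] at e1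
      exact hQl (e1.2 (cov _ hPr))
    · have e1 := (hm (k - j)).2
      rw [show ((k : ℤ) - (j : ℤ)) + j = k by ring] at e1
      exact hQr (e1.2 (hPb _ (by omega) (by omega)))
  -- perpendicular
  have perp1 : w.h (Q j) ∉ A1 → False := by
    intro hx
    have h1 : w.h (Q j) = Q (1 + j) := by
      rw [← hQadd, zpow_one]
    rw [h1] at hx
    have : ¬ ((1 : ℤ) + j < k) := fun h => hx (hQb _ (by omega) h)
    have e : (1 : ℤ) + j = k := by omega
    rw [e] at hx
    exact hQr (cov _ hx)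
  have perp2 : w.h.symm (Q j) ∉ A1 → False := by
    intro hx
    have h1 : w.h.symm (Q j) = Q (-1 + j) := by
      rw [← hQadd, zpow_neg, zpow_one]
      rfl
    rw [h1] at hx
    have : ¬ (0 < (j : ℤ)) := fun h => hx (hQb _ (by omega) (by omega))
    have e : (-1 : ℤ) + j = -1 := by omega
    rw [e] at hx
    exact hQl (cov _ hx)
  rcases hsc with h | h | h | h | h | h | h | h
  · apply same
    intro m
    rw [← hPadd, ← hQadd, h]
    exact ⟨Iff.rfl, Iff.rfl⟩
  · apply oppo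
    intro m
    rw [← hPadd, ← hQadd, h, hz_rv, r1, r2]
    exact ⟨Iff.rfl, Iff.rfl⟩
  · apply same
    intro m
    rw [← hPadd, ← hQadd, h, hz_mi, m1, m2]
    exact ⟨Iff.rfl, Iff.rfl⟩
  · apply oppo
    intro m
    rw [← hPadd, ← hQadd, h, hz_rv, r1, r2, hz_mi, m1, m2]
    exact ⟨Iff.rfl, Iff.rfl⟩
  · apply perp1
    rw [h]
    exact hfar
  · apply perp2
    rw [h, ← r1, ← h_rv', w.rv_rv]
    exact hfar
  · apply perp1
    rw [h, w.h_mi, m1]
    exact hfar
  · apply perp2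
    rw [h, ← r1, ← h_rv', w.rv_rv, w.h_mi, m1]
    exact hfar

end Pool.CX.Low
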