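import Pool.Agent.Work.MP_727c87_lo.Loc

/-! MP_727c87, part LOW, block PRN (helper26): properties of pieces. -/

set_option autoImplicit false

namespace Pool.CX.Low

open Pool.CS Pool.W1P

namespace PRN26

variable {Mo : Model} {C : Cov Mo}

theorem pow_add' (y : C.Y) (m n : ℕ) : (C.r ^ m) ((C.r ^ n) y) = (C.r ^ (m + n)) y := by
  rw [pow_add, Equiv.Perm.mul_apply]

theorem rs_pow (y : C.Y) (m : ℕ) (hm : 1 ≤ m) : C.r.symm ((C.r ^ m) y) = (C.r ^ (m - 1)) y := by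
  obtain ⟨k, rfl⟩ := Nat.exists_eq_add_of_le' hm
  rw [pow_succ', Equiv.Perm.mul_apply, Equiv.symm_apply_apply, Nat.add_sub_cancel]

theorem pow12 {y : C.Y} (hy : (C.p y).1 ∉ Mo.D) (m : ℕ) : (C.r ^ (m + 12)) y = (C.r ^ m) y := by
  rw [← pow_add', C.nd y hy]

theorem cast_inj {m n : ℕ} (h1 : 1 ≤ m) (h2 : m ≤ 12) (h3 : 1 ≤ n) (h4 : n ≤ 12)
    (h : ((m : ℕ) : ZMod 12) = ((n : ℕ) : ZMod 12)) : m = n := by
  rw [ZMod.natCast_eq_natCast_iff'] at h
  omega

theorem main (A : Set C.Y) (z z' : C.Y) (h : Pr C A z z') :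
    Pr C A z' z ∧ (C.p z).1 ∉ Mo.D ∧ (C.p z').1 = (C.p z).1 ∧ (C.p z').2 ≠ (C.p z).2 ∧
    (∃ e : ℕ, 1 ≤ e ∧ e ≤ 11 ∧ z' = (C.r ^ e) z) ∧
    ¬ (C.r.symm z ∈ A ↔ z ∈ A) ∧ ¬ (C.r.symm z' ∈ A ↔ z' ∈ A) ∧
    (z' = C.r (C.r z) → (z ∈ A ↔ C.r z ∈ A)) := by
  obtain ⟨y0, m, n, hP, h⟩ := h
  have hm := hP.pos
  have hmn := hP.lt
  have hn := hP.le
  have hc1 : ¬ (C.r.symm ((C.r ^ m) y0) ∈ A ↔ (C.r ^ m) y0 ∈ A) := by
    rw [rs_pow y0 m hm]
    have h1 := hP.left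
    have h2 := hP.mem m le_rfl hmn
    tauto
  have hc2 : ¬ (C.r.symm ((C.r ^ n) y0) ∈ A ↔ (C.r ^ n) y0 ∈ A) := by
    rw [rs_pow y0 n (by omega)]
    have h1 := hP.right
    have h2 := hP.mem (n - 1) (by omega) (by omega)
    tauto
  have hne : (((n : ℕ) : ZMod 12)) ≠ ((m : ℕ) : ZMod 12) := fun h => by
    have := cast_inj (by omega) hn hm (by omega) h
    omega
  have hD : ∀ k, (C.p ((C.r ^ k) y0)).1 ∉ Mo.D := by
    intro k
    rw [C.p_pow]
    exact hP.nd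
  rcases h with ⟨rfl, rfl⟩ | ⟨rfl, rfl⟩
  · refine ⟨⟨y0, m, n, hP, Or.inr ⟨rfl, rfl⟩⟩, hD m, ?_, ?_, ⟨n - m, by omega, by omega, ?_⟩,
      hc1, hc2, ?_⟩
    · rw [C.p_pow, C.p_pow]
    · rw [C.p_pow, C.p_pow, hP.base, zero_add, zero_add]
      exact hne
    · rw [pow_add']
      congr 2
      omega
    · intro he
      have h1 : C.r (C.r ((C.r ^ m) y0)) = (C.r ^ (2 + m)) y0 := by
        rw [← pow_add']
        rfl
      rw [h1] at he
      have h2 := congrArg (fun z => (C.p z).2) he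
      simp only [C.p_pow, hP.base, zero_add] at h2
      have h3 : n = m + 2 := by
        have h4 : ((n : ℕ) : ZMod 12) = ((2 + m : ℕ) : ZMod 12) := h2
        rw [ZMod.natCast_eq_natCast_iff'] at h4
        omega
      have h4 : C.r ((C.r ^ m) y0) = (C.r ^ (m + 1)) y0 := by
        rw [pow_succ', Equiv.Perm.mul_apply]
      have h5 := hP.mem m le_rfl hmn
      have h6 := hP.mem (m + 1) (by omega) (by omega)
      rw [h4]
      tauto
  · refine ⟨⟨y0, m, n, hP, Or.inl ⟨rfl, rfl⟩⟩, hD n, ?_, ?_, ⟨12 + m - n, by omega, by omega, ?_⟩,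
      hc2, hc1, ?_⟩
    · rw [C.p_pow, C.p_pow]
    · rw [C.p_pow, C.p_pow, hP.base, zero_add, zero_add]
      exact hne.symm
    · rw [pow_add', show 12 + m - n + n = m + 12 by omega, pow12 hP.nd]
    · intro he
      have h1 : C.r (C.r ((C.r ^ n) y0)) = (C.r ^ (2 + n)) y0 := by
        rw [← pow_add']
        rfl
      rw [h1] at he
      have h2 := congrArg (fun z => (C.p z).2) he
      simp only [C.p_pow, hP.base, zero_add] at h2
      have h3 : n = m + 10 := by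
        have h4 : ((m : ℕ) : ZMod 12) = ((2 + n : ℕ) : ZMod 12) := h2
        rw [ZMod.natCast_eq_natCast_iff'] at h4
        omega
      have h4 : C.r ((C.r ^ n) y0) = (C.r ^ (n + 1)) y0 := by
        rw [pow_succ', Equiv.Perm.mul_apply]
      have h5 := hP.right
      rw [h4]
      have h6 : (C.r ^ (n + 1)) y0 ∈ A ↔ y0 ∈ A := by
        have h7 := hP.left
        have h8 : n + 1 = (m - 1) + 12 := by omega
        rw [h8, pow12 hP.nd]
        exact h7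
      rw [h5, h6]

end PRN26

theorem blk_PRN : Stmt_PRN := fun _ _ A z z' h => PRN26.main A z z' h

end Pool.CX.Low
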