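import Pool.Agent.Work.MP_727c87_lo.Loc

/-!
# MP_727c87_gt, part LOW, block PRX: every side of a non-defect chamber in the coboundary is an end of a piece
-/

set_option autoImplicit false

namespace Pool.CX

open Pool.CS Pool.W1P

namespace Low

theorem blk_PRX : Stmt_PRX := by
  classical
  intro Mo C A z hz hcob
  set i : ℕ := (C.p z).2.val with hi
  have hi12 : i < 12 := ZMod.val_lt _
  set y0 : C.Y := (C.r ^ i)⁻¹ z with hy0
  have hz0 : (C.r ^ i) y0 = z := by rw [hy0]; exact (C.r ^ i).apply_symm_apply z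
  have hp := C.p_pow i y0
  rw [hz0] at hp
  have hp1 : (C.p y0).1 = (C.p z).1 := by rw [hp]
  have hp2 : (C.p y0).2 = 0 := by
    have h1 : (C.p z).2 = (C.p y0).2 + (i : ZMod 12) := by rw [hp]
    have h2 : (i : ZMod 12) = (C.p z).2 := by rw [hi]; exact ZMod.natCast_zmod_val _
    rw [h2] at h1
    exact left_eq_add.1 (by rw [add_comm]; exact h1)
  have hnd : (C.p y0).1 ∉ Mo.D := by rw [hp1]; exact hz
  have h12 : (C.r ^ 12) y0 = y0 := C.nd y0 hnd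
  -- the index k
  obtain ⟨k, hk1, hk12, hk⟩ : ∃ k : ℕ, 1 ≤ k ∧ k ≤ 12 ∧ (C.r ^ k) y0 = z := by
    rcases Nat.eq_zero_or_pos i with h0 | h0
    · refine ⟨12, by norm_num, le_refl _, ?_⟩
      rw [h12]
      rw [h0] at hz0
      simpa using hz0
    · exact ⟨i, h0, hi12.le, hz0⟩
  have hk' : (C.r ^ (k - 1)) y0 = C.r.symm z := by
    have h1 : C.r ((C.r ^ (k - 1)) y0) = z := by
      rw [← Equiv.Perm.mul_apply, ← pow_succ', Nat.sub_add_cancel hk1, hk]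
    rw [← h1, Equiv.symm_apply_apply]
  let P : ℕ → Prop := fun j => ((C.r ^ j) y0 ∈ A ↔ y0 ∈ A)
  have hP0 : P 0 := by
    change ((C.r ^ 0) y0 ∈ A ↔ y0 ∈ A)
    simp
  have hP12 : P 12 := by
    change ((C.r ^ 12) y0 ∈ A ↔ y0 ∈ A)
    rw [h12]
  have hPk : ¬ (P (k - 1) ↔ P k) := by
    change ¬ (((C.r ^ (k - 1)) y0 ∈ A ↔ y0 ∈ A) ↔ ((C.r ^ k) y0 ∈ A ↔ y0 ∈ A))
    rw [hk', hk]
    tauto
  by_cases hPk1 : P k
  · -- the piece ends at k
    have hPk2 : ¬ P (k - 1) := fun h => hPk ⟨fun _ => hPk1, fun _ => h⟩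
    have hk2 : k - 1 ≠ 0 := fun h => hPk2 (h ▸ hP0)
    set m' : ℕ := Nat.findGreatest P (k - 1) with hm'
    have hm1 : P m' := Nat.findGreatest_spec (P := P) (Nat.zero_le (k - 1)) hP0
    have hm2 : m' ≤ k - 1 := Nat.findGreatest_le _
    have hm3 : m' ≠ k - 1 := fun h => hPk2 (h ▸ hm1)
    refine ⟨(C.r ^ (m' + 1)) y0, y0, m' + 1, k, ⟨hp2, hnd, by omega, by omega, hk12, ?_, ?_, hPk1⟩,
      Or.inr ⟨hk.symm, rfl⟩⟩
    · intro j hj1 hj2 hPj
      exact Nat.findGreatest_is_greatest (P := P) (n := k - 1) (k := j) (by omega) (by omega) hPj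
    · exact hm1
  · have hPk2 : P (k - 1) := by
      by_contra h
      exact hPk ⟨fun h' => absurd h' h, fun h' => absurd h' hPk1⟩
    have hk2 : k ≠ 12 := fun h => hPk1 (h ▸ hP12)
    have hex : ∃ n, k < n ∧ P n := ⟨12, by omega, hP12⟩
    set n : ℕ := Nat.find hex with hn
    obtain ⟨hn1, hn2⟩ := Nat.find_spec hex
    have hn3 : n ≤ 12 := Nat.find_min' hex ⟨by omega, hP12⟩
    refine ⟨(C.r ^ n) y0, y0, k, n, ⟨hp2, hnd, hk1, hn1, hn3, ?_, hPk2, hn2⟩,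
      Or.inl ⟨hk.symm, rfl⟩⟩
    intro j hj1 hj2 hPj
    rcases Nat.eq_or_lt_of_le hj1 with h | h
    · exact hPk1 (h ▸ hPj)
    · exact Nat.find_min hex hj2 ⟨h, hPj⟩

end Low

end Pool.CX
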