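import Pool.Agent.Work.MP_727c87_lo.Loc

/-!
# Block STRE: a strand can be followed until it reaches the defects
-/

set_option autoImplicit false

namespace Pool.CX

open Pool.CS Pool.W1P

variable {Mo : Model}

namespace Low

namespace STRE

variable {C : Cov Mo} {A : Set C.Y}

open Classical in
/-- the next flag of the strand -/
noncomputable def nxt (A : Set C.Y) (z : C.Y) : C.Y :=
  if h : ∃ z', Pr C A (C.a z) z' then h.choose else z

theorem nxt_spec {z : C.Y} (h : ∃ z', Pr C A (C.a z) z') : Pr C A (C.a z) (nxt A z) := by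
  unfold nxt
  rw [dif_pos h]
  exact h.choose_spec

theorem side_a (ha : ∀ y, C.a y ∈ A ↔ y ∈ A) (hb : ∀ y, C.b y ∈ A ↔ y ∈ A) {z : C.Y}
    (h : ¬ (C.r.symm z ∈ A ↔ z ∈ A)) : ¬ (C.r.symm (C.a z) ∈ A ↔ C.a z ∈ A) := by
  have h1 : C.b (C.r.symm z) = C.r.symm (C.a z) := by
    unfold Cov.b
    rw [Equiv.apply_symm_apply]
  rw [← h1, hb, ha]
  exact h

end STRE

open STRE in
/-- STRE -/
theorem blk_STRE (PRX : Stmt_PRX) (PRN : Stmt_PRN) (STRIP : Stmt_STRIP) : Stmt_STRE := by
  intro Mo C M dv A ha hb hfin hs1 hs2 Z hZ y0 hy0 hy0Z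
  by_contra hcon
  obtain ⟨y, hy⟩ : ∃ y : ℕ → C.Y, ∀ i, y i = (nxt A)^[i] y0 := ⟨_, fun i => rfl⟩
  have hyS : ∀ i, y (i + 1) = nxt A (y i) := by
    intro i
    rw [hy, hy, Function.iterate_succ_apply']
  have key : ∀ i : ℕ, ((∀ j ≤ i, (C.p (y j)).1 ∉ Z) ∧ ¬ (C.r.symm (y i) ∈ A ↔ y i ∈ A) ∧
      Strand C A i y) := by
    intro i
    induction i with
    | zero =>
      have h0 : y 0 = y0 := hy 0
      refine ⟨?_, ?_, ?_⟩
      · intro j hj
        have : j = 0 := by omega
        rw [this, h0]
        exact hy0Z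
      · rw [h0]; exact hy0
      · intro j hj
        omega
    | succ i ih =>
      obtain ⟨h1, h2, h3⟩ := ih
      have h4 : (C.p (C.a (y i))).1 ∉ Z := by
        intro h4
        exact hcon ⟨i, y, hy 0, h3, h1, h4⟩
      have h5 := side_a ha hb h2
      have h6 : Pr C A (C.a (y i)) (y (i + 1)) := by
        rw [hyS]
        exact nxt_spec (PRX Mo C A (C.a (y i)) (fun h => h4 (hZ h)) h5)
      obtain ⟨-, -, h7, -, -, -, h8, -⟩ := PRN Mo C A _ _ h6
      refine ⟨?_, h8, ?_⟩
      · intro j hj
        rcases Nat.lt_or_ge j (i + 1) with h9 | h9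
        · exact h1 j (by omega)
        · have : j = i + 1 := by omega
          rw [this, h7]
          exact h4
      · intro j hj
        rcases Nat.lt_or_ge j i with h9 | h9
        · exact h3 j h9
        · have : j = i := by omega
          rw [this]
          exact h6
  -- two equal flags
  have hfin2 : {z : C.Y | ¬ (C.r.symm z ∈ A ↔ z ∈ A)}.Finite := by
    refine (hfin.image C.r).subset ?_
    intro z hz
    refine ⟨C.r.symm z, ?_, C.r.apply_symm_apply z⟩
    show ¬ (C.r.symm z ∈ A ↔ C.r (C.r.symm z) ∈ A)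
    rw [C.r.apply_symm_apply]
    exact hz
  obtain ⟨i, j, hij, hyij⟩ : ∃ i j, i < j ∧ y i = y j := by
    have hmaps : Set.MapsTo y Set.univ {z : C.Y | ¬ (C.r.symm z ∈ A ↔ z ∈ A)} :=
      fun i _ => (key i).2.1
    obtain ⟨i, -, j, -, hne, heq⟩ := Set.Infinite.exists_ne_map_eq_of_mapsTo
      Set.infinite_univ hmaps hfin2
    rcases Nat.lt_or_ge i j with h | h
    · exact ⟨i, j, h, heq⟩
    · exact ⟨j, i, by omega, heq.symm⟩
  have hred := STRIP Mo C A ha hb hs1 hs2 j y (key j).2.2
  -- product along the strand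
  have hprod : ∀ n : ℕ, i + n ≤ j → (dv.f (y (i + n))).1 = (dv.f (y i)).1 *
      wp G12 ((List.range' i n).map fun k => (C.p (y k)).2) := by
    intro n
    induction n with
    | zero => intro _; rw [Nat.add_zero, List.range'_zero, List.map_nil, wp_nil, mul_one]
    | succ n ih =>
      intro hn
      have h1 := ih (by omega)
      have h2 : Pr C A (C.a (y (i + n))) (y (i + n + 1)) := (key j).2.2 (i + n) (by omega)
      obtain ⟨-, -, -, -, ⟨e, -, -, he⟩, -⟩ := PRN Mo C A _ _ h2
      have h3 : (dv.f (y (i + (n + 1)))).1 = (dv.f (y (i + n))).1 * rg G12 (C.p (y (i + n))).2 := by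
        rw [← Nat.add_assoc, he, dv.f_rpow, dv.f_a, dv.f_snd]
      rw [h3, h1, List.range'_concat, List.map_append, wp_append, mul_assoc]
      congr 2
      rw [List.map_cons, List.map_nil, wp_cons, wp_nil, mul_one, Nat.one_mul]
  have h1 := hprod (j - i) (by omega)
  have h2 : i + (j - i) = j := by omega
  rw [h2, hyij] at h1
  have h3 : wp G12 ((List.range' i (j - i)).map fun k => (C.p (y k)).2) = 1 :=
    (mul_eq_left.1 h1.symm)
  have h4 : wd C y 0 (j + 1) = ((List.range' 0 i).map fun k => (C.p (y k)).2) ++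
      ((List.range' i (j - i)).map fun k => (C.p (y k)).2) ++
      ((List.range' j 1).map fun k => (C.p (y k)).2) := by
    unfold wd
    rw [← List.map_append, ← List.map_append]
    congr 1
    have e1 : List.range' 0 i ++ List.range' i (j - i) = List.range' 0 j := by
      have := List.range'_append (s := 0) (m := i) (n := j - i) (step := 1)
      rw [Nat.one_mul, Nat.zero_add, h2] at this
      exact this
    have e2 : List.range' 0 j ++ List.range' j 1 = List.range' 0 (j + 1) := by
      have := List.range'_append (s := 0) (m := j) (n := 1) (step := 1)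
      rw [Nat.one_mul, Nat.zero_add] at this
      exact this
    rw [e1, e2]
    rfl
  rw [h4] at hred
  have h5 := len_wp (Red.inner hred)
  rw [h3, List.length_map, List.length_range'] at h5
  have h6 : len (1 : RC G12) = 0 := by
    have := len_wp (G := G12) (l := []) red_nil
    rwa [wp_nil, List.length_nil] at this
  omega

end Low

end Pool.CX
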