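import Pool.Agent.Work.MP_727c87_lo.Loc

/-!
# Block STRIP (helper33): a strand of a set without strips is a reduced gallery
-/

set_option autoImplicit false

namespace Pool.CX

open Pool.CS Pool.W1P

variable {Mo : Model}

namespace Low

namespace STRIP

variable {C : Cov Mo} {A : Set C.Y}

open Classical in
/-- the state at the corner between the side of `v` (number `s ± 1`) and the side `s` -/
noncomputable def cc (C : Cov Mo) (s : ZMod 12) (v : C.Y) : St C :=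
  if (C.p v).2 = s + 1 then ⟨C.r.symm v, false⟩ else ⟨v, true⟩

theorem cc_pos {s : ZMod 12} {v : C.Y} (h : (C.p v).2 = s + 1) : cc C s v = ⟨C.r.symm v, false⟩ := by
  rw [cc, if_pos h]

theorem pm_ne' (s : ZMod 12) : s - 1 ≠ s + 1 := by revert s; decide

theorem cc_neg {s : ZMod 12} {v : C.Y} (h : (C.p v).2 = s - 1) : cc C s v = ⟨v, true⟩ := by
  rw [cc, if_neg]
  rw [h]
  exact pm_ne' s

theorem b_rs (C : Cov Mo) (v : C.Y) : C.b (C.r.symm v) = C.r.symm (C.a v) := by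
  unfold Cov.b
  rw [Equiv.apply_symm_apply]

/-- the rotation between the two ends of a piece -/
theorem rot (PRN : Stmt_PRN) {z z' : C.Y} (h : Pr C A z z') :
    ∃ e : ℕ, 1 ≤ e ∧ e ≤ 11 ∧ z' = (C.r ^ e) z ∧ (C.p z').2 = (C.p z).2 + e := by
  obtain ⟨-, -, -, -, ⟨e, h1, h2, h3⟩, -⟩ := PRN Mo C A z z' h
  refine ⟨e, h1, h2, h3, ?_⟩
  rw [h3, C.p_pow]

theorem r12 (PRN : Stmt_PRN) {z z' : C.Y} (h : Pr C A z z') : (C.r ^ 12) z = z :=
  C.nd z (PRN Mo C A z z' h).2.1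

theorem e_of {e : ℕ} (h1 : 1 ≤ e) (h2 : e ≤ 11) {i j : ZMod 12} {n : ℕ} (hn : 1 ≤ n) (hn' : n ≤ 11)
    (h : j = i + e) (h' : j = i + n) : e = n := by
  have h3 : (e : ZMod 12) = n := by
    have := h.symm.trans h'
    exact add_left_cancel this
  rw [ZMod.natCast_eq_natCast_iff'] at h3
  omega

theorem rot1 (PRN : Stmt_PRN) {z z' : C.Y} (h : Pr C A z z') (h' : (C.p z').2 = (C.p z).2 + 1) :
    z' = C.r z := by
  obtain ⟨e, h1, h2, h3, h4⟩ := rot PRN h
  have := e_of h1 h2 (n := 1) (by norm_num) (by norm_num) h4 (by rw [h']; simp)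
  subst this
  rw [h3, pow_one]

theorem rot2 (PRN : Stmt_PRN) {z z' : C.Y} (h : Pr C A z z') (h' : (C.p z').2 = (C.p z).2 + 2) :
    z' = C.r (C.r z) := by
  obtain ⟨e, h1, h2, h3, h4⟩ := rot PRN h
  have := e_of h1 h2 (n := 2) (by norm_num) (by norm_num) h4 (by rw [h']; simp)
  subst this
  rw [h3, pow_succ, pow_one]
  rfl

theorem rot11 (PRN : Stmt_PRN) {z z' : C.Y} (h : Pr C A z z') (h' : (C.p z).2 = (C.p z').2 + 1) :
    z = C.r z' := rot1 PRN (PRN Mo C A z z' h).1 h'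

theorem rot10 (PRN : Stmt_PRN) {z z' : C.Y} (h : Pr C A z z') (h' : (C.p z).2 = (C.p z').2 + 2) :
    z = C.r (C.r z') := rot2 PRN (PRN Mo C A z z' h).1 h'

/-- the sides of the far corner -/
theorem far_ne (hb : ∀ y, C.b y ∈ A ↔ y ∈ A) {s : ZMod 12} {v : C.Y}
    (hv : (C.p v).2 = s + 1 ∨ (C.p v).2 = s - 1) (h : ¬ (C.r.symm v ∈ A ↔ v ∈ A)) :
    ¬ ((sh C (spp C (cc C s v))).y ∈ A ↔ (cc C s v).y ∈ A) := by
  rcases hv with hv | hv
  · rw [cc_pos hv]
    have e : (sh C (spp C ⟨C.r.symm v, false⟩)).y = v := by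
      simp [sh, spp, C.a_a]
    rw [e]
    exact fun h1 => h h1.symm
  · rw [cc_neg hv]
    have e : (sh C (spp C ⟨v, true⟩)).y = C.r.symm v := by
      simp [sh, spp, Cov_bb]
    rw [e]
    exact h

theorem step (PRN : Stmt_PRN) (ha : ∀ y, C.a y ∈ A ↔ y ∈ A) (hb : ∀ y, C.b y ∈ A ↔ y ∈ A)
    {s : ZMod 12} {v v' : C.Y} (h : Pr C A (C.a v) v')
    (hv : (C.p v).2 = s + 1 ∨ (C.p v).2 = s - 1) (hv' : (C.p v').2 = s + 1 ∨ (C.p v').2 = s - 1) :
    sh C (cc C s v) = cc C s v' ∧ ((cc C s v).y ∈ A ↔ (cc C s v').y ∈ A) := by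
  have hne : (C.p v').2 ≠ (C.p (C.a v)).2 := (PRN Mo C A _ _ h).2.2.2.1
  rw [C.p_a_snd] at hne
  rcases hv with hv | hv
  · have hv2 : (C.p v').2 = s - 1 := hv'.resolve_left (by rw [← hv]; exact hne)
    have h1 : C.a v = C.r (C.r v') := by
      refine rot10 PRN h ?_
      rw [C.p_a_snd, hv, hv2]
      ring
    have h2 := (PRN Mo C A _ _ (PRN Mo C A _ _ h).1).2.2.2.2.2.2.2 h1
    rw [cc_pos hv, cc_neg hv2]
    refine ⟨?_, ?_⟩
    · have e : sh C ⟨C.r.symm v, false⟩ = ⟨C.r.symm (C.b (C.r.symm v)), true⟩ := rfl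
      rw [e, b_rs, h1, Equiv.symm_apply_apply, Equiv.symm_apply_apply]
    · change C.r.symm v ∈ A ↔ v' ∈ A
      rw [← hb (C.r.symm v), b_rs, h1, Equiv.symm_apply_apply]
      exact h2.symm
  · have hv2 : (C.p v').2 = s + 1 := hv'.resolve_right (by rw [← hv]; exact hne)
    have h1 : v' = C.r (C.r (C.a v)) := by
      refine rot2 PRN h ?_
      rw [C.p_a_snd, hv, hv2]
      ring
    have h2 := (PRN Mo C A _ _ h).2.2.2.2.2.2.2 h1
    rw [cc_neg hv, cc_pos hv2]
    refine ⟨?_, ?_⟩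
    · have e : sh C ⟨v, true⟩ = ⟨C.r (C.a v), false⟩ := rfl
      rw [e, h1, Equiv.symm_apply_apply]
    · change v ∈ A ↔ C.r.symm v' ∈ A
      rw [h1, Equiv.symm_apply_apply, ← h2, ha]

theorem first (PRN : Stmt_PRN) (ha : ∀ y, C.a y ∈ A ↔ y ∈ A) (hb : ∀ y, C.b y ∈ A ↔ y ∈ A)
    {s : ZMod 12} {v v' : C.Y} (h : Pr C A (C.a v) v') (hv : (C.p v).2 = s)
    (hv' : (C.p v').2 = s + 1 ∨ (C.p v').2 = s - 1) :
    ¬ (((sh C).symm (cc C s v')).y ∈ A ↔ (cc C s v').y ∈ A) := by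
  have h2 := (PRN Mo C A _ _ h).2.2.2.2.2.1
  rcases hv' with hv' | hv'
  · have h1 : v' = C.r (C.a v) := by
      refine rot1 PRN h ?_
      rw [C.p_a_snd, hv, hv']
    rw [cc_pos hv']
    have e : ((sh C).symm ⟨C.r.symm v', false⟩).y = C.a (C.r.symm (C.r.symm v')) := rfl
    rw [e, ha]
    change ¬ (C.r.symm (C.r.symm v') ∈ A ↔ C.r.symm v' ∈ A)
    rw [h1, Equiv.symm_apply_apply]
    exact h2
  · have h1 : C.a v = C.r v' := by
      refine rot11 PRN h ?_
      rw [C.p_a_snd, hv, hv']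
      ring
    rw [cc_neg hv']
    have e : ((sh C).symm ⟨v', true⟩).y = C.b (C.r v') := rfl
    rw [e, hb]
    change ¬ (C.r v' ∈ A ↔ v' ∈ A)
    rw [h1, Equiv.symm_apply_apply] at h2
    exact fun h3 => h2 h3.symm

theorem last (PRN : Stmt_PRN) (ha : ∀ y, C.a y ∈ A ↔ y ∈ A) (hb : ∀ y, C.b y ∈ A ↔ y ∈ A)
    {s : ZMod 12} {v v' : C.Y} (h : Pr C A (C.a v) v')
    (hv : (C.p v).2 = s + 1 ∨ (C.p v).2 = s - 1) (hv' : (C.p v').2 = s) :
    ¬ ((sh C (cc C s v)).y ∈ A ↔ (cc C s v).y ∈ A) := by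
  have h2 := (PRN Mo C A _ _ h).2.2.2.2.2.2.1
  rcases hv with hv | hv
  · have h1 : C.a v = C.r v' := by
      refine rot11 PRN h ?_
      rw [C.p_a_snd, hv, hv']
    rw [cc_pos hv]
    have e : (sh C ⟨C.r.symm v, false⟩).y = C.r.symm (C.b (C.r.symm v)) := rfl
    rw [e, b_rs, h1, Equiv.symm_apply_apply]
    change ¬ (C.r.symm v' ∈ A ↔ C.r.symm v ∈ A)
    rw [← hb (C.r.symm v), b_rs, h1, Equiv.symm_apply_apply]
    exact h2
  · have h1 : v' = C.r (C.a v) := by
      refine rot1 PRN h ?_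
      rw [C.p_a_snd, hv, hv']
      ring
    rw [cc_neg hv]
    have e : (sh C ⟨v, true⟩).y = C.r (C.a v) := rfl
    rw [e, ← h1]
    change ¬ (v' ∈ A ↔ v ∈ A)
    rw [h1, Equiv.symm_apply_apply, ha] at h2
    rw [h1]
    exact fun h3 => h2 h3.symm

end STRIP

open STRIP in
/-- STRIP -/
theorem blk_STRIP (PRN : Stmt_PRN) : Stmt_STRIP := by
  intro Mo C A ha hb hs1 hs2 l y hy
  rw [red_iff]
  intro x yy z s hw
  by_contra hcon
  push Not at hcon
  -- the letters
  have hlen : (wd C y 0 (l + 1)).length = l + 1 := by simp [wd]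
  have hget : ∀ i (hi : i < l + 1), (wd C y 0 (l + 1))[i]'(by rw [hlen]; exact hi) = (C.p (y i)).2 := by
    intro i hi
    simp [wd]
  have hL : x.length + yy.length + z.length + 2 = l + 1 := by
    have := congrArg List.length hw
    rw [hlen] at this
    simp only [List.length_append, List.length_cons] at this
    omega
  obtain ⟨i, hi⟩ : ∃ i, i = x.length := ⟨_, rfl⟩
  obtain ⟨k, hk⟩ : ∃ k, k = yy.length := ⟨_, rfl⟩
  have hgi : ∀ n (hn : n < l + 1), (C.p (y n)).2 = (x ++ s :: (yy ++ s :: z))[n]'(by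
      rw [← hw, hlen]; exact hn) := by
    intro n hn
    rw [← hget n hn]
    congr 1
  have h0 : (C.p (y i)).2 = s := by
    rw [hgi i (by omega)]
    rw [List.getElem_append_right (by omega)]
    simp [hi]
  have h1 : (C.p (y (i + k + 1))).2 = s := by
    rw [hgi (i + k + 1) (by omega)]
    rw [List.getElem_append_right (by omega)]
    have e : i + k + 1 - x.length = k + 1 := by omega
    simp only [e, List.getElem_cons_succ]
    rw [List.getElem_append_right (by omega)]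
    simp [hk]
  have h2 : ∀ t, 1 ≤ t → t ≤ k → (C.p (y (i + t))).2 = s + 1 ∨ (C.p (y (i + t))).2 = s - 1 := by
    intro t ht1 ht2
    have h3 : (C.p (y (i + t))).2 ∈ yy := by
      rw [hgi (i + t) (by omega)]
      rw [List.getElem_append_right (by omega)]
      have e : i + t - x.length = (t - 1) + 1 := by omega
      simp only [e, List.getElem_cons_succ]
      rw [List.getElem_append_left (by omega)]
      exact List.getElem_mem _
    rcases hcon _ h3 with h4 | h4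
    · right
      rw [h4]; ring
    · left
      exact h4
  have hP : ∀ t, t < k + 1 → Pr C A (C.a (y (i + t))) (y (i + (t + 1))) := by
    intro t ht
    exact hy (i + t) (by omega)
  have hk1 : 1 ≤ k := by
    by_contra hk0
    have hk0' : k = 0 := by omega
    have h3 := (PRN Mo C A _ _ (hP 0 (by omega))).2.2.2.1
    rw [C.p_a_snd] at h3
    rw [hk0'] at h1
    exact h3 (h1.trans h0.symm)
  -- the states
  have hst : ∀ n, n < k → (sh C ^ n) (cc C s (y (i + 1))) = cc C s (y (i + (n + 1))) ∧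
      ((cc C s (y (i + 1))).y ∈ A ↔ (cc C s (y (i + (n + 1)))).y ∈ A) := by
    intro n
    induction n with
    | zero => intro _; exact ⟨rfl, Iff.rfl⟩
    | succ n ih =>
      intro hn
      obtain ⟨h3, h4⟩ := ih (by omega)
      have h5 := step PRN ha hb (s := s) (hP (n + 1) (by omega)) (h2 (n + 1) (by omega) (by omega))
        (h2 (n + 1 + 1) (by omega) (by omega))
      refine ⟨?_, h4.trans h5.2⟩
      rw [pow_succ', Equiv.Perm.mul_apply, h3, h5.1]
  have hfar : ∀ n, n < k → ¬ ((sh C (spp C ((sh C ^ n) (cc C s (y (i + 1)))))).y ∈ A ↔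
      (cc C s (y (i + 1))).y ∈ A) := by
    intro n hn
    rw [(hst n hn).1, (hst n hn).2]
    exact far_ne hb (h2 (n + 1) (by omega) (by omega))
      (PRN Mo C A _ _ (hP n (by omega))).2.2.2.2.2.2.1
  have hleft : ¬ (((sh C).symm (cc C s (y (i + 1)))).y ∈ A ↔ (cc C s (y (i + 1))).y ∈ A) :=
    first PRN ha hb (hP 0 (by omega)) h0 (h2 1 (by omega) hk1)
  have hright : ¬ (((sh C ^ k) (cc C s (y (i + 1)))).y ∈ A ↔ (cc C s (y (i + 1))).y ∈ A) := by
    obtain ⟨n, rfl⟩ : ∃ n, k = n + 1 := ⟨k - 1, by omega⟩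
    rw [pow_succ', Equiv.Perm.mul_apply, (hst n (by omega)).1, (hst n (by omega)).2]
    exact last PRN ha hb (hP (n + 1) (by omega)) (h2 (n + 1) (by omega) (by omega)) h1
  by_cases hA : (cc C s (y (i + 1))).y ∈ A
  · refine hs1 (cc C s (y (i + 1))) k ⟨hk1, ?_, ?_, ?_, ?_⟩
    · intro n hn
      rw [(hst n hn).1]
      exact (hst n hn).2.mp hA
    · intro n hn h3
      exact hfar n hn ⟨fun _ => hA, fun _ => h3⟩
    · intro h3
      exact hleft ⟨fun _ => hA, fun _ => h3⟩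
    · intro h3
      exact hright ⟨fun _ => hA, fun _ => h3⟩
  · refine hs2 (cc C s (y (i + 1))) k ⟨hk1, ?_, ?_, ?_, ?_⟩
    · intro n hn h3
      rw [(hst n hn).1] at h3
      exact hA ((hst n hn).2.mpr h3)
    · intro n hn h3
      exact hfar n hn ⟨fun h4 => absurd h4 h3, fun h4 => absurd h4 hA⟩
    · intro h3
      exact hleft ⟨fun h4 => absurd h4 h3, fun h4 => absurd h4 hA⟩
    · intro h3
      exact hright ⟨fun h4 => absurd h4 h3, fun h4 => absurd h4 hA⟩

end Low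

end Pool.CX
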