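import Pool.Agent.Work.MP_727c87_lo.Cnt

/-!
# MP_727c87_gt, part LOW, block STRR (helper53): chambers reached along the strands
-/

set_option autoImplicit false

namespace Pool.CX

open Pool.CS Pool.W1P

variable {Mo : Model}

namespace Low

namespace STRR

/-! ### coarse distances -/

lemma step_symm {C : Cov Mo} {y z : C.Y} (h : C.Step y z) : C.Step z y := by
  rcases h with h | h | h | h
  · exact Or.inl h.symm
  · exact Or.inr (Or.inr (Or.inl h))
  · exact Or.inr (Or.inl h)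
  · exact Or.inr (Or.inr (Or.inr (Relation.EqvGen.symm _ _ h)))

lemma dle_trans {C : Cov Mo} {k l : ℕ} {y z w : C.Y} (h : C.Dle k y z) (h' : C.Dle l z w) :
    C.Dle (k + l) y w := by
  induction l generalizing w with
  | zero =>
    have e : z = w := h'
    subst e; exact h
  | succ l ih =>
    obtain ⟨v, h1, h2⟩ := h'
    exact ⟨v, ih h1, h2⟩

lemma dle_symm {C : Cov Mo} {k : ℕ} {y z : C.Y} (h : C.Dle k y z) : C.Dle k z y := by
  induction k generalizing z with
  | zero =>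
    have e : y = z := h
    subst e; exact (rfl : y = y)
  | succ k ih =>
    obtain ⟨v, h1, h2⟩ := h
    have h3 : C.Dle 1 z v := ⟨z, rfl, step_symm h2⟩
    have := dle_trans h3 (ih h1)
    rwa [Nat.add_comm] at this

lemma pf_trans {M : W → ZMod 12 → ZMod 12} {k l : ℕ} {y z w : PF} (h : PF.Dle M k y z)
    (h' : PF.Dle M l z w) : PF.Dle M (k + l) y w := by
  induction l generalizing w with
  | zero =>
    have e : z = w := h'
    subst e; exact h
  | succ l ih =>
    obtain ⟨v, h1, h2⟩ := h'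
    exact ⟨v, ih h1, h2⟩

/-! ### switches of a word given by functions -/

lemma swp_count (M : W → ZMod 12 → ZMod 12) (X : ℕ → W) (J : ℕ → ZMod 12) (m : ℕ) :
    ∀ n : ℕ, (∀ i, n ≤ i → i < n + m → X (i + 1) = X i * rg G12 (J i)) →
      ∀ p : ZMod 12, p = J (n - 1) → 1 ≤ n →
      ((Finset.Ico n (n + m)).filter (fun i => J i ≠ M (X i) (J (i - 1)))).card =
        swp M (X n) p ((List.range' n m).map J) := by
  induction m with
  | zero => intro n _ p _ _; simp [swp]
  | succ m ih =>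
    intro n hX p hp hn
    have h1 := ih (n + 1) (fun i h1 h2 => hX i (by omega) (by omega)) (J n) rfl (by omega)
    rw [List.range'_succ, List.map_cons, swp, ← hX n le_rfl (by omega), ← h1]
    have e : Finset.Ico n (n + (m + 1)) = insert n (Finset.Ico (n + 1) (n + 1 + m)) := by
      ext i; simp only [Finset.mem_Ico, Finset.mem_insert]; omega
    rw [e, Finset.filter_insert, hp]
    by_cases h : J n = M (X n) (J (n - 1))
    · rw [if_pos h, if_neg (not_not.2 h), Nat.zero_add]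
    · rw [if_neg h, if_pos h, Finset.card_insert_of_notMem, Nat.add_comm]
      simp

lemma sw_count (M : W → ZMod 12 → ZMod 12) (X : ℕ → W) (J : ℕ → ZMod 12) (l : ℕ)
    (hX : ∀ i, i < l → X (i + 1) = X i * rg G12 (J i)) :
    ((Finset.Ico 1 l).filter (fun i => J i ≠ M (X i) (J (i - 1)))).card ≤
      sw M (X 0) ((List.range' 0 l).map J) := by
  cases l with
  | zero => simp
  | succ l =>
    rw [List.range'_succ, List.map_cons, sw, ← hX 0 (by omega)]
    have h1 := swp_count M X J l 1 (fun i h1 h2 => hX i (by omega)) (J 0) rfl le_rfl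
    have e : 1 + l = l + 1 := Nat.add_comm _ _
    rw [e] at h1
    rw [h1]

lemma wp_range (X : ℕ → W) (J : ℕ → ZMod 12) (m : ℕ) : ∀ n : ℕ,
    (∀ i, n ≤ i → i < n + m → X (i + 1) = X i * rg G12 (J i)) →
      X n * wp G12 ((List.range' n m).map J) = X (n + m) := by
  induction m with
  | zero => intro n _; simp [wp_nil]
  | succ m ih =>
    intro n hX
    have h1 := ih (n + 1) (fun i h1 h2 => hX i (by omega) (by omega))
    rw [List.range'_succ, List.map_cons, wp_cons, ← mul_assoc, ← hX n le_rfl (by omega), h1]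
    congr 1
    omega

lemma reverse_range (s : ℕ → ZMod 12) (l : ℕ) :
    ((List.range' 0 l).map s).reverse = (List.range' 0 l).map (fun i => s (l - 1 - i)) := by
  apply List.ext_getElem
  · simp
  · intro i h1 h2
    simp [List.getElem_reverse, List.getElem_map, List.getElem_range']

/-! ### strands -/

lemma pr_data (PRN : Stmt_PRN) (C : Cov Mo) {M : W → ZMod 12 → ZMod 12} (dv : Dev C M)
    (A : Set C.Y) {l : ℕ} {y : ℕ → C.Y} (hs : Strand C A l y) (k : ℕ) (hk : k < l) :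
    (C.p (y (k + 1))).1 = Mo.L.τ (C.p (y k)).2 (C.p (y k)).1 ∧
    (dv.f (y (k + 1))).1 = (dv.f (y k)).1 * rg G12 (C.p (y k)).2 ∧
    ¬ (C.r.symm (y (k + 1)) ∈ A ↔ y (k + 1) ∈ A) := by
  obtain ⟨-, -, h3, -, ⟨e, -, -, h5⟩, -, h7, -⟩ := PRN Mo C A _ _ (hs k hk)
  refine ⟨?_, ?_, h7⟩
  · rw [h3, C.p_a]; rfl
  · rw [h5, dv.f_rpow, dv.f_a]
    show (dv.f (y k)).1 * rg G12 (dv.f (y k)).2 = _
    rw [dv.f_snd]

lemma pr_SS {C : Cov Mo} {Tr : Type} (A : Tr → Set C.Y) (c : Tr) {z z' : C.Y}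
    (h : Pr C (A c) z z') : SS A (C.p z').1 (C.p z').2 (C.p z).2 := by
  obtain ⟨y0, m, n, P, h⟩ := h
  have hp : ∀ k : ℕ, C.p ((C.r ^ k) y0) = ((C.p y0).1, ((k : ℕ) : ZMod 12)) := by
    intro k
    induction k with
    | zero => exact Prod.ext rfl (by simpa using P.base)
    | succ k ih =>
      rw [pow_succ', Equiv.Perm.mul_apply, C.p_r, ih]
      show ((C.p y0).1, ((k : ℕ) : ZMod 12) + 1) = _
      rw [Nat.cast_succ]
  rcases h with ⟨rfl, rfl⟩ | ⟨rfl, rfl⟩
  · refine ⟨c, y0, m, n, ?_, P, Or.inr ⟨?_, ?_⟩⟩ <;> simp only [hp]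
  · refine ⟨c, y0, m, n, ?_, P, Or.inl ⟨?_, ?_⟩⟩ <;> simp only [hp]

lemma r11 {C : Cov Mo} {y : C.Y} (hy : (C.p y).1 ∉ Mo.D) : (C.r ^ 11) y = C.r.symm y := by
  rw [Equiv.eq_symm_apply]
  have h := C.nd y hy
  rwa [pow_succ', Equiv.Perm.mul_apply] at h

/-- a side in the coboundary -/
lemma exists_side {C : Cov Mo} (A : Set C.Y) (y : C.Y)
    (h : ∃ k : ℕ, ¬ ((C.r ^ k) y ∈ A ↔ y ∈ A)) :
    ∃ y0 : C.Y, (C.p y0).1 = (C.p y).1 ∧ ¬ (C.r.symm y0 ∈ A ↔ y0 ∈ A) := by
  classical
  have hp : ∀ k : ℕ, (C.p ((C.r ^ k) y)).1 = (C.p y).1 := by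
    intro k
    induction k with
    | zero => rfl
    | succ k ih => rw [pow_succ', Equiv.Perm.mul_apply, C.p_r]; exact ih
  have hk := Nat.find_spec h
  have hmin := fun m (hm : m < Nat.find h) => Nat.find_min h hm
  set k := Nat.find h with hkdef
  have hk0 : k ≠ 0 := by
    intro h0
    rw [h0] at hk
    exact hk Iff.rfl
  obtain ⟨k', hk'⟩ := Nat.exists_eq_succ_of_ne_zero hk0
  refine ⟨(C.r ^ k) y, hp k, ?_⟩
  have e : C.r.symm ((C.r ^ k) y) = (C.r ^ k') y := by
    rw [hk', Nat.succ_eq_add_one, pow_succ', Equiv.Perm.mul_apply, Equiv.symm_apply_apply]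
  rw [e]
  have h1 := hmin k' (by omega)
  rw [not_not] at h1
  intro h2
  exact hk (h2.symm.trans h1)

end STRR

theorem blk_STRR (PRN : Stmt_PRN) (STRIP : Stmt_STRIP) (STRE : Stmt_STRE) (LOC : Stmt_LOC)
    (SWR : Stmt_SWR) : Stmt_STRR := by
  classical
  intro Mo C hC M hM dv K1 K2 T A hA Z hZ1 hZ2 c y hy hk
  obtain ⟨y0, hy0, hb0⟩ := STRR.exists_side (A c) y hk
  have hm2 : ∀ s k, ¬ FStrip C (A c) s k := hA.m2 c
  have hm2' : ∀ s k, ¬ FStrip C (A c)ᶜ s k := by
    intro s k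
    rw [← hA.op]
    exact hA.m2 _ s k
  have hy0Z : (C.p y0).1 ∉ Z := by rw [hy0]; exact hy
  obtain ⟨l, u, hu0, hs, hZ, hz⟩ := STRE Mo C M dv (A c) (hA.a c) (hA.b c) (hA.fin c) hm2 hm2' Z
    hZ1 y0 hb0 hy0Z
  -- all sides are in the coboundary
  have hside : ∀ i ≤ l, ¬ (C.r.symm (u i) ∈ A c ↔ u i ∈ A c) := by
    intro i hi
    rcases Nat.eq_zero_or_pos i with h0 | h0
    · rw [h0, hu0]; exact hb0
    · obtain ⟨i', rfl⟩ := Nat.exists_eq_succ_of_ne_zero h0.ne'
      exact (STRR.pr_data PRN C dv (A c) hs i' (by omega)).2.2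
  have hloc : ∀ i ≤ l, ∃ v ∈ T.vis c, C.Dle 60 (u i) v := by
    intro i hi
    have hnd : (C.p (u i)).1 ∉ Mo.D := fun h => hZ i hi (hZ1 _ h)
    refine LOC Mo C hC M dv K1 K2 T A hA c (u i) hnd (fun j h => hZ i hi (hZ2 _ j h)) ⟨11, ?_⟩
    rw [STRR.r11 hnd]
    exact hside i hi
  obtain ⟨v, hv, hv60⟩ := hloc 0 (Nat.zero_le _)
  obtain ⟨v', hv', hv60'⟩ := hloc l le_rfl
  have hd : PF.Dle M (60 + K1 + 60) (dv.f (u l)) (dv.f (u 0)) :=
    STRR.pf_trans (STRR.pf_trans (dv.dle hv60') (T.small c v' hv' v hv))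
      (dv.dle (STRR.dle_symm hv60))
  have hMM : ∀ w i, M w (M w i) = i := fun w i => (hM w).inv i
  have hMF : ∀ w i, FarG G12 i (M w i) := fun w i => (hM w).farG i
  have hruns := hd.runs hMM
  -- the reversed word
  set s : ℕ → ZMod 12 := fun k => (C.p (u k)).2 with hsdef
  set J : ℕ → ZMod 12 := fun i => s (l - 1 - i) with hJ
  set X : ℕ → W := fun i => (dv.f (u (l - i))).1 with hX
  have hXJ : ∀ i, i < l → X (i + 1) = X i * rg G12 (J i) := by
    intro i hi
    have h1 := (STRR.pr_data PRN C dv (A c) hs (l - 1 - i) (by omega)).2.1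
    have e1 : l - 1 - i + 1 = l - i := by omega
    have e2 : l - (i + 1) = l - 1 - i := by omega
    rw [e1] at h1
    show (dv.f (u (l - (i + 1)))).1 = (dv.f (u (l - i))).1 * rg G12 (C.p (u (l - 1 - i))).2
    rw [h1, e2, mul_assoc, rg_mul_self, mul_one]
  have hred : Red G12 ((List.range' 0 l).map J) := by
    have h1 := STRIP Mo C (A c) (hA.a c) (hA.b c) hm2 hm2' l u hs
    have h2 : wd C u 0 (l + 1) = (List.range' 0 l).map s ++ [s l] := by
      unfold wd
      rw [Nat.sub_zero, List.range'_concat, List.map_append]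
      simp [hsdef]
    rw [h2] at h1
    rw [hJ, ← STRR.reverse_range]
    exact h1.left.reverse
  have hend : X 0 * wp G12 ((List.range' 0 l).map J) = X l := by
    have := STRR.wp_range X J l 0 (fun i _ h2 => hXJ i (by omega))
    rwa [Nat.zero_add] at this
  have hsw : sw M (X 0) ((List.range' 0 l).map J) ≤ 3 * (60 + K1 + 60) := by
    apply sw_le hMF (X 0) (60 + K1 + 60) _ hred
    rw [hend]
    show Runs M (dv.f (u (l - 0))).1 (60 + K1 + 60) (dv.f (u (l - l))).1
    rw [Nat.sub_zero, Nat.sub_self]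
    exact hruns
  have hcount := (STRR.sw_count M X J l hXJ).trans hsw
  -- the gallery from `Z`
  let g : ℕ → Mo.Q := fun i => Nat.casesOn i (C.p (C.a (u l))).1 (fun i => (C.p (u (l - i))).1)
  let j : ℕ → ZMod 12 := fun i => s (l - i)
  have h3 : g (l + 1) ∈ Pool.W1.lreach Mo.L Mo.mu (SS A) Z (3 * (K1 + 120) + 1 + 1) := by
    apply SWR Mo.Q Mo.L Mo.mu (SS A) Z g j l
    · exact hz
    · intro i hi
      cases i with
      | zero =>
        show (C.p (u (l - 0))).1 = Mo.L.τ (C.p (u (l - 0))).2 (C.p (C.a (u l))).1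
        rw [Nat.sub_zero, C.p_a]
        show (C.p (u l)).1 = Mo.L.τ (C.p (u l)).2 (Mo.L.τ (C.p (u l)).2 (C.p (u l)).1)
        rw [Mo.L.inv]
      | succ i =>
        show (C.p (u (l - (i + 1)))).1 = Mo.L.τ (C.p (u (l - (i + 1)))).2 (C.p (u (l - i))).1
        have h1 := (STRR.pr_data PRN C dv (A c) hs (l - (i + 1)) (by omega)).1
        have e1 : l - (i + 1) + 1 = l - i := by omega
        rw [e1] at h1
        rw [h1, Mo.L.inv]
    · intro i hi
      show SS A (C.p (u (l - i))).1 (C.p (u (l - i))).2 (C.p (u (l - (i + 1)))).2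
      have h1 := STRR.pr_SS A c (hs (l - (i + 1)) (by omega))
      have e1 : l - (i + 1) + 1 = l - i := by omega
      rw [e1, C.p_a] at h1
      exact h1
    · have hsub : {i | i < l ∧ j (i + 1) ≠ Mo.mu (g (i + 1)) (j i)} ⊆
          (insert 0 ((Finset.Ico 1 l).filter (fun i => J i ≠ M (X i) (J (i - 1)))) : Finset ℕ) := by
        rintro i ⟨hi, hne⟩
        rw [Finset.coe_insert, Set.mem_insert_iff]
        rcases Nat.eq_zero_or_pos i with h0 | h0
        · exact Or.inl h0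
        · refine Or.inr (Finset.mem_coe.2 (Finset.mem_filter.2 ⟨Finset.mem_Ico.2 ⟨h0, hi⟩, ?_⟩))
          have e1 : l - 1 - i = l - (i + 1) := by omega
          have e2 : l - 1 - (i - 1) = l - i := by omega
          have hnd : (C.p (u (l - i))).1 ∉ Mo.D := fun h => hZ (l - i) (by omega) (hZ1 _ h)
          have h4 := dv.f_mu (u (l - i)) hnd
          rw [dv.f_snd] at h4
          show s (l - 1 - i) ≠ M (dv.f (u (l - i))).1 (s (l - 1 - (i - 1)))
          rw [e1, e2]
          show s (l - (i + 1)) ≠ M (dv.f (u (l - i))).1 (C.p (u (l - i))).2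
          rw [h4]
          exact hne
      refine (Set.ncard_le_ncard hsub (Finset.finite_toSet _)).trans ?_
      rw [Set.ncard_coe_finset]
      refine (Finset.card_insert_le _ _).trans ?_
      omega
  have h5 : g (l + 1) = (C.p y).1 := by
    show (C.p (u (l - l))).1 = _
    rw [Nat.sub_self, hu0, hy0]
  rw [h5] at h3
  exact h3

end Low

end Pool.CX
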