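import Pool.Agent.Work.MP_727c87_cx.C1.Out
import Pool.Agent.Work.MP_727c87_w1.RCBridge

set_option autoImplicit false

/-! # Border between the strand part (LOC, STR) and the final counting (CNT) -/

namespace Pool.CX

open Pool.CS

/-- **STRX**: output of the strand part (from MIN, (m1), (m2), (m3), LEMMA P).  `A` = the minimal family, `S` = the strand
pieces of all `A c` projected to the chambers of the model. -/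
def Stmt_STRX : Prop :=
  ∀ K1 K2 : ℕ, ∃ K3 : ℕ, ∀ (Mo : Model) (C : Cov Mo), C.Univ → ∀ (q0 : Mo.Q) (dv : Dev C (Mo.pmu q0)),
    (∀ y, C.p y = (Mo.L.r q0 (dv.f y).1, (dv.f y).2)) → ∀ T : Tracks C dv K1 K2,
    ∃ (A : T.Tr → Set C.Y) (S : Mo.Q → ZMod 12 → ZMod 12 → Prop),
      (∀ g s t s' t', S g s t → S g s' t' → ¬ Cross s t s' t') ∧
      (∀ c y, C.a y ∈ A c ↔ y ∈ A c) ∧
      (∀ c y0 B, C.ArcPot y0 B → (B ⊆ T.H c → B ⊆ A c) ∧ (Bᶜ ⊆ T.H c → Bᶜ ⊆ A c) ∧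
        (B ⊆ (T.H c)ᶜ → B ⊆ (A c)ᶜ) ∧ (Bᶜ ⊆ (T.H c)ᶜ → Bᶜ ⊆ (A c)ᶜ)) ∧
      (∀ c y, ¬ (C.r y ∈ A c ↔ y ∈ A c) → (C.p y).1 ∉ Mo.D →
        (C.p y).1 ∈ W1.lreach Mo.L Mo.mu S Mo.D K3)

end Pool.CX
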