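import Pool.Agent.Work.MP_727c87_lo.Cnt
import Pool.Agent.Work.MP_727c87_lo.Border

/-! # MP_727c87_gt, part LOW: adapter to helper54's border statement `Stmt_STRX` -/

set_option autoImplicit false

namespace Pool.CX.Low

open Pool.CS Pool.W1P

theorem lreach_shift {Q : Type} (L : LS G12 Q) (mu : Q → ZMod 12 → ZMod 12)
    (S : Q → ZMod 12 → ZMod 12 → Prop) (Z D : Set Q) (h : Z ⊆ Pool.W1.lreach L mu S D 1) (K : ℕ) :
    Pool.W1.lreach L mu S Z K ⊆ Pool.W1.lreach L mu S D (K + 1) := by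
  induction K with
  | zero => exact h
  | succ K ih =>
    rintro y (hy | ⟨z, hz, hy⟩)
    · exact Or.inl (ih hy)
    · exact Or.inr ⟨z, ih hz, hy⟩

/-- the border statement from the blocks MINF, NCR, STRR -/
theorem strx_of (MINF : Stmt_MINF) (NCR : Stmt_NCR) (STRR : Stmt_STRR) : Stmt_STRX := by
  intro K1 K2
  refine ⟨3 * (K1 + 120) + 2 + 1, fun Mo C hC q0 dv _ T => ?_⟩
  obtain ⟨A, hA⟩ := MINF Mo C hC _ (fun w => Mo.good _) dv K1 K2 T
  refine ⟨A, SS A, NCR Mo C hC _ dv K1 K2 T A hA, hA.a, ?_, ?_⟩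
  · intro c y0 B hB
    refine ⟨hA.m1 c y0 B hB, hA.m1 c y0 _ (arcPot_compl hB), fun h => ?_, fun h => ?_⟩
    · rw [← hA.op]
      exact hA.m1 _ y0 B hB (by rw [T.H_rev]; exact h)
    · rw [← hA.op]
      exact hA.m1 _ y0 _ (arcPot_compl hB) (by rw [T.H_rev]; exact h)
  · intro c y hy hyD
    have hZ : {q | q ∈ Mo.D ∨ ∃ i, Mo.L.τ i q ∈ Mo.D} ⊆ Pool.W1.lreach Mo.L Mo.mu (SS A) Mo.D 1 := by
      rintro q (hq | ⟨i, hq⟩)
      · exact Or.inl hq
      · refine Or.inr ⟨Mo.L.τ i q, hq, i, 0, fun k hk => absurd hk (Nat.not_lt_zero k), ?_⟩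
        simp [Mo.L.inv]
    by_cases hm : (C.p y).1 ∈ {q | q ∈ Mo.D ∨ ∃ i, Mo.L.τ i q ∈ Mo.D}
    · exact lreach_shift Mo.L Mo.mu (SS A) _ _ hZ _ (by
        have hmono : ∀ K, {q | q ∈ Mo.D ∨ ∃ i, Mo.L.τ i q ∈ Mo.D} ⊆
            Pool.W1.lreach Mo.L Mo.mu (SS A) {q | q ∈ Mo.D ∨ ∃ i, Mo.L.τ i q ∈ Mo.D} K := by
          intro K
          induction K with
          | zero => exact subset_rfl
          | succ K ih => exact fun q hq => Or.inl (ih hq)
        exact hmono _ hm)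
    · refine lreach_shift Mo.L Mo.mu (SS A) _ _ hZ _ ?_
      refine STRR Mo C hC _ (fun w => Mo.good _) dv K1 K2 T A hA _ (fun q hq => Or.inl hq)
        (fun q i hq => Or.inr ⟨i, hq⟩) c y hm ⟨1, ?_⟩
      rw [pow_one]
      exact hy

end Pool.CX.Low
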