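import Pool.Agent.Work.MP_727c87_lo.Cnt

/-!
# MP_727c87_gt, part LOW, block SWR (helper76): galleries with few switches
-/

set_option autoImplicit false

namespace Pool.CX.Low

open Pool.CS Pool.W1P

namespace Swr

variable {Q : Type} (L : LS G12 Q) (mu : Q → ZMod 12 → ZMod 12)
  (S : Q → ZMod 12 → ZMod 12 → Prop) (Z : Set Q)

theorem lreach_mono {a b : ℕ} (h : a ≤ b) :
    Pool.W1.lreach L mu S Z a ⊆ Pool.W1.lreach L mu S Z b := by
  induction h with
  | refl => exact subset_rfl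
  | step _ ih => exact ih.trans Set.subset_union_left

theorem line {g : ℕ → Q} {j : ℕ → ZMod 12} {l k : ℕ} (hk : k ≤ l)
    (hg : ∀ i ≤ l, g (i + 1) = L.τ (j i) (g i))
    (hn : ∀ i, k ≤ i → i < l → j (i + 1) = mu (g (i + 1)) (j i)) :
    ∀ n : ℕ, k + n ≤ l →
      (Pool.W1.lstep L mu)^[n] (L.τ (j k) (g k), j k) = (g (k + n + 1), j (k + n)) := by
  intro n
  induction n with
  | zero =>
    intro _
    simp only [Function.iterate_zero, id_eq, Nat.add_zero]
    rw [hg k hk]
  | succ n ih =>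
    intro h
    rw [Function.iterate_succ_apply', ih (by omega)]
    have e1 := hn (k + n) (by omega) (by omega)
    have e2 := hg (k + n + 1) (by omega)
    unfold Pool.W1.lstep
    simp only
    rw [← e1, ← e2]
    rfl

theorem jump {g : ℕ → Q} {j : ℕ → ZMod 12} {l k r : ℕ} (hk : k ≤ l)
    (hg : ∀ i ≤ l, g (i + 1) = L.τ (j i) (g i))
    (hS : ∀ i < l, S (g (i + 1)) (j i) (j (i + 1)))
    (hn : ∀ i, k ≤ i → i < l → j (i + 1) = mu (g (i + 1)) (j i))
    (hr : g k ∈ Pool.W1.lreach L mu S Z r) :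
    g (l + 1) ∈ Pool.W1.lreach L mu S Z (r + 1) := by
  refine Or.inr ⟨g k, hr, j k, l - k, ?_, ?_⟩
  · intro i hi
    rw [line L mu hk hg hn i (by omega)]
    simp only
    rw [← hn (k + i) (by omega) (by omega)]
    exact hS (k + i) (by omega)
  · rw [line L mu hk hg hn (l - k) (by omega)]
    have : k + (l - k) = l := by omega
    simp only [this]

/-- the switches among the first `l` chambers -/
def swi (g : ℕ → Q) (j : ℕ → ZMod 12) (l : ℕ) : Set ℕ :=
  {i | i < l ∧ j (i + 1) ≠ mu (g (i + 1)) (j i)}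

theorem swi_fin (g : ℕ → Q) (j : ℕ → ZMod 12) (l : ℕ) : (swi mu g j l).Finite :=
  (Set.finite_lt_nat l).subset fun _ hi => hi.1

theorem key {g : ℕ → Q} {j : ℕ → ZMod 12} (h0 : g 0 ∈ Z) : ∀ l : ℕ,
    (∀ i ≤ l, g (i + 1) = L.τ (j i) (g i)) →
    (∀ i < l, S (g (i + 1)) (j i) (j (i + 1))) →
    ∃ k ≤ l, g k ∈ Pool.W1.lreach L mu S Z (swi mu g j l).ncard ∧
      ∀ i, k ≤ i → i < l → j (i + 1) = mu (g (i + 1)) (j i) := by
  intro l
  induction l with
  | zero =>
    intro _ _
    exact ⟨0, le_rfl, lreach_mono L mu S Z (Nat.zero_le _) h0, fun i _ h => absurd h (by omega)⟩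
  | succ l ih =>
    intro hg hS
    obtain ⟨k, hk, hr, hn⟩ := ih (fun i hi => hg i (by omega)) (fun i hi => hS i (by omega))
    by_cases e : j (l + 1) = mu (g (l + 1)) (j l)
    · refine ⟨k, by omega, lreach_mono L mu S Z ?_ hr, ?_⟩
      · exact Set.ncard_le_ncard (fun i hi => ⟨by have := hi.1; omega, hi.2⟩) (swi_fin mu g j _)
      · intro i h1 h2
        rcases Nat.lt_succ_iff_lt_or_eq.1 h2 with h3 | h3
        · exact hn i h1 h3
        · subst h3
          exact e
    · refine ⟨l + 1, le_rfl, ?_, fun i h1 h2 => absurd h1 (by omega)⟩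
      have h1 := jump L mu S Z hk (fun i hi => hg i (by omega)) (fun i hi => hS i (by omega)) hn hr
      refine lreach_mono L mu S Z ?_ h1
      have h2 : (swi mu g j l) ⊂ (swi mu g j (l + 1)) := by
        refine ⟨fun i hi => ⟨by have := hi.1; omega, hi.2⟩, fun h => ?_⟩
        have h3 : l ∈ swi mu g j l := h ⟨by omega, e⟩
        exact absurd h3.1 (lt_irrefl _)
      exact Set.ncard_lt_ncard h2 (swi_fin mu g j _)

end Swr

theorem blk_SWR : Stmt_SWR := by
  intro Q L mu S Z g j l σ h0 hg hS hσ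
  obtain ⟨k, hk, hr, hn⟩ := Swr.key L mu S Z h0 l hg hS
  exact Swr.lreach_mono L mu S Z (Nat.succ_le_succ hσ) (Swr.jump L mu S Z hk hg hS hn hr)

end Pool.CX.Low
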