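import Pool.Agent.Work.MP_727c87_lo.Min

/-!
# MP_727c87_gt, part LOW, block UNI: an arc half is the unique corner set of least coboundary
-/

set_option autoImplicit false

namespace Pool.CX.Low

open Set

namespace UNI

variable {S : Type}

theorem orbit_add (w : WS S) (n m : ℤ) (s : S) : (w.h ^ n) ((w.h ^ m) s) = (w.h ^ (n + m)) s := by
  rw [zpow_add, Equiv.Perm.mul_apply]

theorem orbit_succ (w : WS S) (n : ℤ) (s : S) : w.h ((w.h ^ n) s) = (w.h ^ (n + 1)) s := by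
  rw [add_comm, ← orbit_add, zpow_one]

theorem orbit_inj (w : WS S) (t : S) : Function.Injective (fun n : ℤ => (w.h ^ n) t) := by
  intro n m h
  have h1 : (w.h ^ (n - m)) ((w.h ^ m) t) = (w.h ^ m) t := by
    rw [orbit_add, sub_add_cancel]
    exact h
  have h2 := w.emb ((w.h ^ m) t) (n - m) (Or.inl h1)
  omega

theorem far_agree (w : WS S) {A B : Set S} (h1 : (A \ B).Finite) (h2 : (B \ A).Finite) (t : S) :
    ∃ N : ℕ, ∀ n : ℤ, (N : ℤ) ≤ |n| → ((w.h ^ n) t ∈ A ↔ (w.h ^ n) t ∈ B) := by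
  have h3 : ((fun n : ℤ => (w.h ^ n) t) ⁻¹' ((A \ B) ∪ (B \ A))).Finite :=
    (h1.union h2).preimage (orbit_inj w t).injOn
  obtain ⟨N, hN⟩ := (h3.image Int.natAbs).bddAbove
  refine ⟨N + 1, fun n hn => ?_⟩
  by_contra hne
  have h4 : n.natAbs ≤ N := by
    refine hN ⟨n, ?_, rfl⟩
    rw [mem_preimage, mem_union, mem_sdiff, mem_sdiff]
    tauto
  rw [Int.abs_eq_natAbs] at hn
  omega

theorem const_of {p : ℤ → Prop} (h : ∀ n, p n ↔ p (n + 1)) : ∀ n, p n ↔ p 0 := by
  intro n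
  induction n using Int.induction_on with
  | zero => exact Iff.rfl
  | succ i ih => exact (h i).symm.trans ih
  | pred i ih =>
    have := h (-(i : ℤ) - 1)
    rw [sub_add_cancel] at this
    exact this.trans ih

theorem const_right {p : ℤ → Prop} (h : ∀ n, n ≠ 0 → (p n ↔ p (n + 1))) (n : ℕ) :
    p (n + 1) ↔ p 1 := by
  induction n with
  | zero => simp
  | succ n ih =>
    have := h (n + 1) (by omega)
    push_cast
    exact this.symm.trans ih

theorem const_left {p : ℤ → Prop} (h : ∀ n, n ≠ 0 → (p n ↔ p (n + 1))) (n : ℕ) :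
    p (-n) ↔ p 0 := by
  induction n with
  | zero => simp
  | succ n ih =>
    have := h (-(n + 1 : ℕ)) (by omega)
    have e : (-((n + 1 : ℕ) : ℤ)) + 1 = -(n : ℤ) := by push_cast; ring
    rw [e] at this
    exact this.trans ih

theorem mem_cob {w : WS S} {A : Set S} {s : S} : s ∈ cob w A ↔ ¬ (s ∈ A ↔ w.h s ∈ A) := Iff.rfl

/-- on an orbit that meets `cob B`, `A` also has a coboundary -/
theorem exists_cob (w : WS S) {A B : Set S} (hB : ArcSet w B) (h1 : (A \ B).Finite)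
    (h2 : (B \ A).Finite) {s : S} (hs : s ∈ cob w B) : ∃ n : ℤ, (w.h ^ n) s ∈ cob w A := by
  by_contra hno
  push Not at hno
  have hA : ∀ n : ℤ, (w.h ^ n) s ∈ A ↔ (w.h ^ (n + 1)) s ∈ A := by
    intro n
    have := hno n
    rw [mem_cob, not_not, orbit_succ] at this
    exact this
  have hB' : ∀ n : ℤ, n ≠ 0 → ((w.h ^ n) s ∈ B ↔ (w.h ^ (n + 1)) s ∈ B) := by
    intro n hn
    by_contra hne
    refine hn (hB.one s n hs ?_)
    rw [mem_cob, orbit_succ]
    exact hne
  obtain ⟨N, hN⟩ := far_agree w h1 h2 s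
  have cA := const_of (p := fun n => (w.h ^ n) s ∈ A) hA
  have cR := const_right (p := fun n => (w.h ^ n) s ∈ B) hB' N
  have cL := const_left (p := fun n => (w.h ^ n) s ∈ B) hB' N
  have a1 := hN ((N : ℤ) + 1) (by rw [abs_of_nonneg (by omega)]; omega)
  have a2 := hN (-(N : ℤ)) (by rw [abs_neg, abs_of_nonneg (by omega)])
  have a3 := cA ((N : ℤ) + 1)
  have a4 := cA (-(N : ℤ))
  have hs' : ¬ (s ∈ B ↔ w.h s ∈ B) := hs
  have e0 : (w.h ^ (0 : ℤ)) s = s := by simp
  have e1 : (w.h ^ (1 : ℤ)) s = w.h s := by simp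
  simp only [e0, e1] at cR cL a3 a4
  tauto

/-- on an orbit that does not meet `cob B` and on which `A`, `B` differ, `A` has a coboundary -/
theorem exists_cob' (w : WS S) {A B : Set S} (h1 : (A \ B).Finite)
    (h2 : (B \ A).Finite) {t : S} (ht : ∀ n : ℤ, (w.h ^ n) t ∉ cob w B)
    (hd : ¬ (t ∈ A ↔ t ∈ B)) : ∃ n : ℤ, (w.h ^ n) t ∈ cob w A := by
  by_contra hno
  push Not at hno
  have hA : ∀ n : ℤ, (w.h ^ n) t ∈ A ↔ (w.h ^ (n + 1)) t ∈ A := by
    intro n
    have := hno n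
    rw [mem_cob, not_not, orbit_succ] at this
    exact this
  have hB' : ∀ n : ℤ, (w.h ^ n) t ∈ B ↔ (w.h ^ (n + 1)) t ∈ B := by
    intro n
    have := ht n
    rw [mem_cob, not_not, orbit_succ] at this
    exact this
  obtain ⟨N, hN⟩ := far_agree w h1 h2 t
  have cA := const_of (p := fun n => (w.h ^ n) t ∈ A) hA (N : ℤ)
  have cB := const_of (p := fun n => (w.h ^ n) t ∈ B) hB' (N : ℤ)
  have a1 := hN (N : ℤ) (by rw [abs_of_nonneg (by omega)])
  have e0 : (w.h ^ (0 : ℤ)) t = t := by simp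
  simp only [e0] at cA cB
  tauto

end UNI

open UNI in
theorem blk_UNI : Stmt_UNI := by
  classical
  intro S w A B hA hfin hB h1 h2
  choose! φ hφ using fun s (hs : s ∈ cob w B) => exists_cob w hB h1 h2 hs
  have hinj : InjOn (fun s => (w.h ^ (φ s)) s) (cob w B) := by
    intro s hs s' hs' he
    simp only at he
    have e1 : s' = (w.h ^ (-(φ s') + φ s)) s := by
      rw [← orbit_add, he, orbit_add]
      simp
    have h3 := hB.one s _ hs (e1 ▸ hs')
    rw [h3] at e1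
    simpa using e1.symm
  have hmaps : ∀ s ∈ cob w B, (w.h ^ (φ s)) s ∈ cob w A := hφ
  have hle : (cob w B).ncard ≤ (cob w A).ncard :=
    ncard_le_ncard_of_injOn _ hmaps hinj hfin
  refine ⟨hle, fun hne => ?_⟩
  obtain ⟨s, hs⟩ : ∃ s, ¬ (s ∈ A ↔ s ∈ B) := by
    by_contra hall
    push Not at hall
    exact hne (Set.ext hall)
  obtain ⟨t, ht, htd⟩ : ∃ t, (∀ n : ℤ, (w.h ^ n) t ∉ cob w B) ∧ ¬ (t ∈ A ↔ t ∈ B) := by
    by_cases hc : ∃ n : ℤ, (w.h ^ n) s ∈ cob w B
    · obtain ⟨n, hn⟩ := hc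
      refine ⟨w.pp s, fun m => hB.two s n m hn, ?_⟩
      rw [hA.pp s, hB.cor.pp s]
      exact hs
    · push Not at hc
      exact ⟨s, hc, hs⟩
  obtain ⟨n, hn⟩ := exists_cob' w h1 h2 ht htd
  have himg : ((fun s => (w.h ^ (φ s)) s) '' cob w B) ⊂ cob w A := by
    refine ⟨?_, fun hsub => ?_⟩
    · rintro _ ⟨s, hs, rfl⟩
      exact hφ s hs
    · obtain ⟨s', hs', he⟩ := hsub hn
      simp only at he
      have : (w.h ^ (-(φ s') + n)) t = s' := by
        rw [← orbit_add, ← he, orbit_add]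
        simp
      refine ht (-(φ s') + n) ?_
      rw [this]
      exact hs'
  have h4 := ncard_lt_ncard himg hfin
  rwa [hinj.ncard_image] at h4

end Pool.CX.Low
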