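import Pool.Agent.Work.MP_727c87_lo.SUB
import Pool.Agent.Work.MP_727c87_lo.UNI
import Pool.Agent.Work.MP_727c87_lo.ABS
import Pool.Agent.Work.MP_727c87_lo.EXI
import Pool.Agent.Work.MP_727c87_lo.MONE
import Pool.Agent.Work.MP_727c87_lo.FLIP
import Pool.Agent.Work.MP_727c87_lo.OVL
import Pool.Agent.Work.MP_727c87_lo.INN
import Pool.Agent.Work.MP_727c87_lo.MTWO
import Pool.Agent.Work.MP_727c87_lo.MIN_
import Pool.Agent.Work.MP_727c87_lo.EMB
import Pool.Agent.Work.MP_727c87_lo.ARF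
import Pool.Agent.Work.MP_727c87_lo.ART
import Pool.Agent.Work.MP_727c87_lo.ARC
import Pool.Agent.Work.MP_727c87_lo.MINF
import Pool.Agent.Work.MP_727c87_lo.ODD
import Pool.Agent.Work.MP_727c87_lo.ARQ
import Pool.Agent.Work.MP_727c87_lo.LOCQ
import Pool.Agent.Work.MP_727c87_lo.LOCR
import Pool.Agent.Work.MP_727c87_lo.PRX
import Pool.Agent.Work.MP_727c87_lo.PRNP
import Pool.Agent.Work.MP_727c87_lo.STRIP
import Pool.Agent.Work.MP_727c87_lo.STRE
import Pool.Agent.Work.MP_727c87_lo.NCR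
import Pool.Agent.Work.MP_727c87_lo.SWR
import Pool.Agent.Work.MP_727c87_lo.STRR
import Pool.Agent.Work.MP_727c87_lo.STRX
import Pool.Agent.Work.MP_727c87_lo.Counting
import Pool.Agent.Work.MP_727c87_w1.RCFinal
import Pool.Agent.Work.MP_727c87_cx.C1.All

/-! # MP_727c87_gt, part LOW: assembly (helper26) -/

set_option autoImplicit false

namespace Pool.CX.Low

theorem stmt_MIN : Stmt_MIN :=
  blk_MIN blk_EXI (blk_MONE blk_SUB (blk_ABS blk_SUB blk_UNI))
    (blk_MTWO blk_SUB blk_FLIP blk_OVL blk_INN)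

theorem stmt_STRX : Stmt_STRX :=
  strx_of (blk_MINF stmt_MIN blk_EMB (blk_ARC blk_ARF blk_ART)) blk_NCR
    (blk_STRR blk_PRN (blk_STRIP blk_PRN) (blk_STRE blk_PRX blk_PRN (blk_STRIP blk_PRN))
      (blk_LOC (blk_LOCQ blk_ODD blk_ARQ)) blk_SWR)

/-- **T_LOW** -/
theorem stmt_LOW : Stmt_LOW := low_of stmt_TRK stmt_STRX W1.stmt_RCX

end Pool.CX.Low
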