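import Pool.Agent.Work.MP_727c87_lo.Loc

/-!
# Block ARF: an arc has finitely many sides
-/

set_option autoImplicit false

namespace Pool.CX

open Pool.CS Pool.W1P

variable {Mo : Model}

namespace Low

namespace ARF

variable (C : Cov Mo)

/-- one step along the arc -/
def F (y : C.Y) : C.Y := C.a (C.m y)

theorem exists_D (y : C.Y) : ∃ n : ℕ, (C.p ((F C)^[n] y)).1 ∈ Mo.D := by
  obtain ⟨n, v, h0, hn, hk⟩ := Mo.cut (C.p y).1 (C.p y).2
  have key : ∀ k ≤ n, C.p ((F C)^[k] y) = v k := by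
    intro k
    induction k with
    | zero => intro _; rw [h0]; rfl
    | succ k ih =>
      intro hkn
      have h1 := ih (by omega)
      obtain ⟨h2, h3⟩ := hk k (by omega)
      rw [Function.iterate_succ_apply']
      show C.p (C.a (C.m ((F C)^[k] y))) = _
      rw [C.p_a, C.p_m, h1]
      apply Prod.ext
      · rw [h2, h3]; rfl
      · rw [h3]; rfl
  exact ⟨n, by rw [key n le_rfl]; exact hn⟩

open Classical in
/-- number of steps to the first defect -/
noncomputable def nn (y : C.Y) : ℕ := Nat.find (exists_D C y)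

open Classical in
theorem nn_spec (y : C.Y) : (C.p ((F C)^[nn C y] y)).1 ∈ Mo.D := Nat.find_spec (exists_D C y)

open Classical in
theorem nn_min {y : C.Y} {k : ℕ} (h : k < nn C y) : (C.p ((F C)^[k] y)).1 ∉ Mo.D :=
  Nat.find_min (exists_D C y) h

/-- the flags met in one direction -/
def S (y : C.Y) : Set C.Y :=
  {z | ∃ k ≤ nn C y, z = (F C)^[k] y} ∪ {z | ∃ k < nn C y, z = C.m ((F C)^[k] y)}

theorem S_finite (y : C.Y) : (S C y).Finite := by
  refine Set.Finite.union ?_ ?_
  · refine ((Set.finite_Iic (nn C y)).image fun k => (F C)^[k] y).subset ?_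
    rintro z ⟨k, hk, rfl⟩
    exact ⟨k, hk, rfl⟩
  · refine ((Set.finite_Iio (nn C y)).image fun k => C.m ((F C)^[k] y)).subset ?_
    rintro z ⟨k, hk, rfl⟩
    exact ⟨k, hk, rfl⟩

theorem S_a {y z : C.Y} (h : z ∈ S C y) : C.a z ∈ S C y ∨ z = y := by
  rcases h with ⟨k, hk, rfl⟩ | ⟨k, hk, rfl⟩
  · rcases k with _ | k
    · right; rfl
    · left
      right
      refine ⟨k, by omega, ?_⟩
      rw [Function.iterate_succ_apply']
      exact C.a_a _
  · left
    left
    refine ⟨k + 1, by omega, ?_⟩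
    rw [Function.iterate_succ_apply']
    rfl

theorem S_m {y z : C.Y} (h : z ∈ S C y) (hz : (C.p z).1 ∉ Mo.D) : C.m z ∈ S C y := by
  rcases h with ⟨k, hk, rfl⟩ | ⟨k, hk, rfl⟩
  · right
    refine ⟨k, ?_, rfl⟩
    rcases hk.lt_or_eq with h1 | h1
    · exact h1
    · rw [h1] at hz
      exact absurd (nn_spec C y) hz
  · left
    exact ⟨k, hk.le, C.m_m _ (nn_min C hk)⟩

theorem S_self (y : C.Y) : y ∈ S C y := Or.inl ⟨0, Nat.zero_le _, rfl⟩

theorem T_a {y z : C.Y} (h : z ∈ S C y ∪ S C (C.a y)) : C.a z ∈ S C y ∪ S C (C.a y) := by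
  rcases h with h | h
  · rcases S_a C h with h1 | h1
    · exact Or.inl h1
    · rw [h1]; exact Or.inr (S_self C _)
  · rcases S_a C h with h1 | h1
    · exact Or.inr h1
    · rw [h1, C.a_a]; exact Or.inl (S_self C _)

theorem T_m {y z : C.Y} (h : z ∈ S C y ∪ S C (C.a y)) (hz : (C.p z).1 ∉ Mo.D) :
    C.m z ∈ S C y ∪ S C (C.a y) := by
  rcases h with h | h
  · exact Or.inl (S_m C h hz)
  · exact Or.inr (S_m C h hz)

end ARF

open ARF in
/-- ARF: an arc has finitely many sides. -/
theorem blk_ARF : Stmt_ARF := by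
  intro Mo C y0
  refine ((S_finite C y0).union (S_finite C (C.a y0))).subset ?_
  intro y hy
  have key : ∀ u v : C.Y, C.SameArc u v →
      (u ∈ S C y0 ∪ S C (C.a y0) ↔ v ∈ S C y0 ∪ S C (C.a y0)) := by
    intro u v h
    induction h with
    | rel u v h =>
      rcases h with rfl | ⟨h1, rfl⟩
      · exact ⟨fun h => T_a C h, fun h => by have := T_a C h; rwa [C.a_a] at this⟩
      · refine ⟨fun h => T_m C h h1, fun h => ?_⟩
        have := T_m C h (by rw [C.m_fst]; exact h1)
        rwa [C.m_m _ h1] at this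
    | refl u => exact Iff.rfl
    | symm u v _ ih => exact ih.symm
    | trans u v w _ _ ih1 ih2 => exact ih1.trans ih2
  exact (key y0 y hy).1 (Or.inl (S_self C y0))

end Low

end Pool.CX
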