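import Pool.Agent.Work.MP_727c87_lo.Loc
import Pool.Agent.Work.MP_727c87_w1.RCBridge
import Pool.Agent.Work.MP_727c87_cx.CovTheory

/-!
# MP_727c87_gt, part LOW, last part (helper26): counting

Blocks SWR STRR CNT; `CNT` is the final assembly `Stmt_LOW`.
-/

set_option autoImplicit false

namespace Pool.CX.Low

open Pool.CS Pool.W1P

variable {Mo : Model}

/-- **SWR** (100 lines). A gallery `g 0, g 1, ..` from `Z` (`g (i + 1)` is entered from `g i` through the
side `j i`) all of whose chambers `g 1, .., g l` carry the chord `{j (i - 1), j i}` in `S`, with at most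
`σ` switches, ends in `lreach (σ + 1)`.  Proof.  Induction on `l`, stronger statement: there is `k ≤ l`
with `g k ∈ lreach σ_l` (`σ_l` = number of switches among the first `l` chambers) and no switch at
`g (k + 1), .., g l`: then `g (l + 1)` is reached from `g k` by one `LReach1` (cross the side `j k`, then
follow the line through `l - k` chambers).  Next chamber no switch: the same `k`; a switch:
`k := l + 1`. (`lreach` is increasing in the number of rounds.) -/
def Stmt_SWR : Prop :=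
  ∀ (Q : Type) (L : LS G12 Q) (mu : Q → ZMod 12 → ZMod 12) (S : Q → ZMod 12 → ZMod 12 → Prop)
    (Z : Set Q) (g : ℕ → Q) (j : ℕ → ZMod 12) (l σ : ℕ), g 0 ∈ Z →
    (∀ i ≤ l, g (i + 1) = L.τ (j i) (g i)) →
    (∀ i < l, S (g (i + 1)) (j i) (j (i + 1))) →
    {i | i < l ∧ j (i + 1) ≠ mu (g (i + 1)) (j i)}.ncard ≤ σ →
    g (l + 1) ∈ Pool.W1.lreach L mu S Z (σ + 1)

/-- **STRR** (200 lines, deps PRN STRIP STRE LOC SWR). Every chamber outside `Z` (`Z` contains the defects
and their neighbours) on which some `A c` is not constant is reached from `Z` along the strands in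
`3 (K1 + 120) + 2` rounds.  Proof.  Some side of the chamber of `y` is in the coboundary:
`y0 = r^k y` with `¬ (r⁻¹ y0 ∈ A c ↔ y0 ∈ A c)`.  STRE: strand `y 0 = y0, .., y l`, chambers outside `Z`,
`z := (C.p (C.a (y l))).1 ∈ Z`.  LOC at `y 0` and at `y l` (the side of `y l` is in the coboundary: PRN
for `l ≥ 1`; the chambers outside `Z` and their neighbours are no defects) gives `v, v' ∈ vis c` with
`C.Dle 60 (y 0) v`, `C.Dle 60 (y l) v'`; `T.small`, `Dev.dle`, symmetry and transitivity of `PF.Dle`: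
`PF.Dle M (K1 + 120) (f (y l)) (f (y 0))`, `PF.Dle.runs`: `Runs M (f (y l)).1 (K1 + 120) (f (y 0)).1`.
The word `(wd C y 0 l).reverse` is reduced (STRIP) and leads from `(f (y l)).1` to `(f (y 0)).1`:
`sw_le`: at most `3 (K1 + 120)` switches.  SWR for `g 0 = z`, `g (i + 1)` = chamber of `y (l - i)`,
`j i` = side of `y (l - i)`: the switches at `g 2, .., g l` are those counted by `sw` (`Dev.f_mu`), one
more at `g 1`.  The pieces: `Pr (C.a (y i)) (y (i + 1))` gives `SS A` at the chamber of `y (i + 1)` for the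
sides of `y i` and `y (i + 1)`. -/
def Stmt_STRR : Prop :=
  ∀ (Mo : Model) (C : Cov Mo) (_ : C.Univ) (M : W → ZMod 12 → ZMod 12) (_ : ∀ w, Good (M w))
    (dv : Dev C M) (K1 K2 : ℕ) (T : Tracks C dv K1 K2) (A : T.Tr → Set C.Y), Sys T A →
    ∀ (Z : Set Mo.Q), (∀ q, q ∈ Mo.D → q ∈ Z) → (∀ q i, Mo.L.τ i q ∈ Mo.D → q ∈ Z) →
    ∀ (c : T.Tr) (y : C.Y), (C.p y).1 ∉ Z → (∃ k : ℕ, ¬ ((C.r ^ k) y ∈ A c ↔ y ∈ A c)) →
    (C.p y).1 ∈ Pool.W1.lreach Mo.L Mo.mu (SS A) Z (3 * (K1 + 120) + 2)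

/-- **CNT** (150 lines): the counting, one model.  Proof.  `X` = chambers outside `Z` on which (in some
lift) some `A c` is not constant; `X ⊆ lreach ..` (STRR), so `|X| < e |Q|`.  For a chamber `q` from which
no defect is reached by a word of length `≤ N + 1`, `N = 3 K2 + 2`, MIX gives `i ≤ N` with
`act q (alt 0 2 i) ∈ X`; for each `i` the map `q ↦ act q (alt 0 2 i)` is injective: at most
`(N + 1) |X|` such chambers.  The others are `act d l.reverse`, `d ∈ D`, `l` a word of length `≤ N + 1`: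
at most `|D| 13^(N + 1)` (words of length `N + 1` over `Option (ZMod 12)`).  So
`|Q| ≤ |D| 13^(N + 1) + (N + 1) |X| < |Q| / 2 + |Q| / 2`. -/
def Stmt_CNT : Prop :=
  ∀ (Mo : Model) (C : Cov Mo) (_ : C.Univ) (M : W → ZMod 12 → ZMod 12) (_ : ∀ w, Good (M w))
    (dv : Dev C M) (K1 K2 : ℕ) (T : Tracks C dv K1 K2) (A : T.Tr → Set C.Y), Sys T A →
    (Mo.D.ncard * (2 * 13 ^ (3 * K2 + 3)) ≤ Nat.card Mo.Q) →
    ¬ (∀ Z : Set Mo.Q, Z.ncard ≤ 13 * Mo.D.ncard →
      2 * (3 * K2 + 3) * (Pool.W1.lreach Mo.L Mo.mu (SS A) Z (3 * (K1 + 120) + 2)).ncard <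
        Nat.card Mo.Q)

/-- **FIN** (100 lines, deps C1 RCX MINF NCR CNT, `exists_tiling`, `exists_defects`, `mkModel`,
`uce`, `Univ.exists_dev`).  Parameters: `K`; `K1, K2` from C1; `K3 = 3 (K1 + 120) + 2`,
`e = 1 / (2 (3 K2 + 3))`; `a, R1` from RCX for `K3, e`; `s` with `s ≥ 24 * 13^(3 K2 + 3)`, `s * a ≥ 156`;
`N` from C1 for `s`; a tiling of injectivity radius `max R1 N s 12`; `mu` from RCX; `D` from
`exists_defects`; if `NoSmallLabelling K` fails there is a labelling as in C1, so a system `T`,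
`A` (MINF), contradiction to CNT (the pieces do not cross: NCR). -/
def Stmt_FIN : Prop := Stmt_TRK → Pool.W1.Stmt_RCX → Stmt_MINF → Stmt_NCR → Stmt_CNT → Stmt_LOW

end Pool.CX.Low
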