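import Mathlib

/-!
# MP_727c87_gt, part LOW, first part MIN (helper26): least energy families of cuts

A wall system `WS S`: `S` = states of a walker on the walls of the tiling (corner, one of the two
walls through it, direction, side of the wall).  `h` = go to the next corner on the wall,
`rv` = turn round (same side of the wall), `mi` = change the side of the wall (same direction),
`pp` = turn into the perpendicular wall, towards the side on which the walker is.
States in the same orbit of `rv, mi, pp` (8 states) belong to the same corner: `SC`.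
For flags (`Pool.CX.Cov`): `S = Y × Bool`, `h (y,0) = (r⁻¹ b y, 1)`, `h (y,1) = (r a y, 0)`,
`rv (y,0) = (b y,0)`, `rv (y,1) = (a y,1)`, `mi (y,0) = (a y,0)`, `mi (y,1) = (b y,1)`,
`pp (y,0) = (a y,1)`, `pp (y,1) = (b y,0)`.

Blocks SUB UNI ABS EXI MONE FLIP OVL INN MTWO MIN: `theorem blk_XXX (deps) : Stmt_XXX`.
-/

set_option autoImplicit false

namespace Pool.CX.Low

open Set

/-- `s` and `t` are states at the same corner -/
def SC {S : Type} (rv mi pp : S → S) (s t : S) : Prop :=
  t = s ∨ t = rv s ∨ t = mi s ∨ t = rv (mi s) ∨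
    t = pp s ∨ t = rv (pp s) ∨ t = mi (pp s) ∨ t = rv (mi (pp s))

/-- wall systems -/
structure WS (S : Type) where
  h : Equiv.Perm S
  rv : S → S
  mi : S → S
  pp : S → S
  rv_rv : ∀ s, rv (rv s) = s
  mi_mi : ∀ s, mi (mi s) = s
  rv_mi : ∀ s, rv (mi s) = mi (rv s)
  pp_pp : ∀ s, pp (pp s) = rv (mi s)
  pp_rv : ∀ s, pp (rv s) = mi (pp s)
  pp_mi : ∀ s, pp (mi s) = rv (pp s)
  h_rv : ∀ s, h (rv (h s)) = rv s
  h_mi : ∀ s, h (mi s) = mi (h s)
  /-- walls are bi-infinite and never come back to a corner -/
  emb : ∀ (s : S) (n : ℤ), SC rv mi pp s ((h ^ n) s) → n = 0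
  /-- a state is not one of the perpendicular states at its corner -/
  dir : ∀ t, t ≠ pp t ∧ t ≠ rv (pp t) ∧ t ≠ mi (pp t) ∧ t ≠ rv (mi (pp t))

variable {S : Type}

/-- a set of corners: a set of states closed under `rv, mi, pp` -/
structure Cor (w : WS S) (A : Set S) : Prop where
  rv : ∀ s, w.rv s ∈ A ↔ s ∈ A
  mi : ∀ s, w.mi s ∈ A ↔ s ∈ A
  pp : ∀ s, w.pp s ∈ A ↔ s ∈ A

/-- coboundary: the states `s` such that exactly one of the corners of `s`, `h s` is in `A` -/
def cob (w : WS S) (A : Set S) : Set S := {s | ¬ (s ∈ A ↔ w.h s ∈ A)}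

/-- the half planes of an arc: finite coboundary, every wall is crossed at most once, and of two
walls through one corner at most one is crossed -/
structure ArcSet (w : WS S) (B : Set S) : Prop where
  cor : Cor w B
  fin : (cob w B).Finite
  one : ∀ (s : S) (n : ℤ), s ∈ cob w B → (w.h ^ n) s ∈ cob w B → n = 0
  two : ∀ (s : S) (n m : ℤ), (w.h ^ n) s ∈ cob w B → (w.h ^ m) (w.pp s) ∉ cob w B

/-- a strip of length `k` at `s`: the corners of `s, h s, .., h^(k-1) s` are in `A`, their
neighbours on the side of the walker and the two neighbours on the wall are not -/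
structure Strip (w : WS S) (A : Set S) (s : S) (k : ℕ) : Prop where
  pos : 1 ≤ k
  mem : ∀ i : ℕ, i < k → (w.h ^ i) s ∈ A
  far : ∀ i : ℕ, i < k → w.h (w.pp ((w.h ^ i) s)) ∉ A
  left : w.h.symm s ∉ A
  right : (w.h ^ k) s ∉ A

/-- all states at the corners of `s, .., h^(k-1) s` -/
def body (w : WS S) (s : S) (k : ℕ) : Set S :=
  {t | ∃ i : ℕ, i < k ∧ SC w.rv w.mi w.pp ((w.h ^ i) s) t}

/-- the index set of a nested family: oriented tracks, `op` = other orientation, `le` = inclusion
of the sides; the group `G` acts freely, without inversions, with finitely many orbits -/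
structure Nest (G I : Type) [Group G] [MulAction G I] where
  op : I → I
  le : I → I → Prop
  op_op : ∀ c, op (op c) = c
  le_refl : ∀ c, le c c
  le_trans : ∀ c d e, le c d → le d e → le c e
  le_antisymm : ∀ c d, le c d → le d c → c = d
  le_op : ∀ c d, le c d → le (op d) (op c)
  g_op : ∀ (g : G) (c : I), g • op c = op (g • c)
  g_le : ∀ (g : G) (c d : I), le c d → le (g • c) (g • d)
  free : ∀ (g : G) (c : I), g • c = c → g = 1
  noinv : ∀ (g : G) (c : I), g • c ≠ op c
  orb : ∃ T : Finset I, ∀ c : I, ∃ g : G, g • c ∈ T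

/-- `G` acts on the wall system, freely -/
structure Acts (G : Type) [Group G] [MulAction G S] (w : WS S) : Prop where
  h : ∀ (g : G) s, g • w.h s = w.h (g • s)
  rv : ∀ (g : G) s, g • w.rv s = w.rv (g • s)
  mi : ∀ (g : G) s, g • w.mi s = w.mi (g • s)
  pp : ∀ (g : G) s, g • w.pp s = w.pp (g • s)
  free : ∀ (g : G) (s : S), g • s = s → g = 1

/-- an equivariant, order preserving family of corner sets with finite coboundaries -/
structure Fam {G I : Type} [Group G] [MulAction G S] [MulAction G I] (w : WS S) (N : Nest G I)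
    (A : I → Set S) : Prop where
  cor : ∀ c, Cor w (A c)
  fin : ∀ c, (cob w (A c)).Finite
  op : ∀ c, A (N.op c) = (A c)ᶜ
  mono : ∀ c d, N.le c d → A c ⊆ A d
  eqv : ∀ (g : G) c s, g • s ∈ A (g • c) ↔ s ∈ A c

/-- **SUB** (40 lines). `cob (A ∪ B) ∪ cob (A ∩ B) ⊆ cob A ∪ cob B` and
`cob (A ∪ B) ∩ cob (A ∩ B) ⊆ cob A ∩ cob B` (pointwise propositional), then
`Set.ncard_union_add_ncard_inter`.  Also the complement has the same coboundary. -/
def Stmt_SUB : Prop :=
  ∀ (S : Type) (w : WS S) (A B : Set S),
    cob w Aᶜ = cob w A ∧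
    ((cob w A).Finite → (cob w B).Finite →
      (cob w (A ∪ B)).Finite ∧ (cob w (A ∩ B)).Finite ∧
      (cob w (A ∪ B)).ncard + (cob w (A ∩ B)).ncard ≤ (cob w A).ncard + (cob w B).ncard)

/-- **UNI** (150 lines). An arc half is the unique corner set of least coboundary in its class
modulo finite sets.  Proof.  For a state `t` on whose wall (`h`-orbit) `A` and `B` are compared: the
states `h^n t`, `n ∈ ℤ`, are different (`emb`), so `A` and `B` agree at `h^n t` for `|n|` large.
(a) If `s ∈ cob B` then `B` is constant on `{h^n s : n ≤ 0}` and on `{h^n s : n ≥ 1}` with different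
values (`one`), so `A` is not constant on the orbit: there is `n s` with `h^(n s) s ∈ cob A`.
The map `s ↦ h^(n s) s` is injective on `cob B` (`one`): `|cob B| ≤ |cob A|`.
(b) If `s ∈ A`, `s ∉ B` or conversely: by `two` the orbit of `s` or the orbit of `pp s` does not
meet `cob B`; take `t = s` or `t = pp s` accordingly; `A` and `B` differ at `t` (both are corner sets),
`B` is constant on the orbit and agrees with `A` far out, so some `h^n t` lies in `cob A`; it is not
in the image of the map of (a), whose values lie on orbits which meet `cob B`.  So `<`. -/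
def Stmt_UNI : Prop :=
  ∀ (S : Type) (w : WS S) (A B : Set S), Cor w A → (cob w A).Finite → ArcSet w B →
    (A \ B).Finite → (B \ A).Finite →
    (cob w B).ncard ≤ (cob w A).ncard ∧ (A ≠ B → (cob w B).ncard < (cob w A).ncard)

/-- **ABS** (150 lines, deps SUB UNI). Taking in a family of arc halves.  Proof.  One set `B ⊆ H`:
`A ∩ B = B` modulo finite sets, so `|cob (A ∩ B)| ≥ |cob B|`, `>` unless `A ∩ B = B` (UNI), hence
`|cob (A ∪ B)| ≤ |cob A|`, `<` unless `B ⊆ A` (SUB); and `A ∪ B` is again a corner set with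
`(A ∪ B) \ H`, `H \ (A ∪ B)` finite.  In general `⋃ 𝓤 \ A ⊆ H \ A` is finite, so
`A ∪ ⋃ 𝓤 = A ∪ B_1 ∪ .. ∪ B_k` with `B_i ∈ 𝓤`: induction on a finite subset of `𝓤`. -/
def Stmt_ABS : Prop :=
  ∀ (S : Type) (w : WS S) (A H : Set S) (𝓤 : Set (Set S)), Cor w A → (cob w A).Finite →
    (A \ H).Finite → (H \ A).Finite → (∀ B ∈ 𝓤, ArcSet w B ∧ B ⊆ H) →
    Cor w (A ∪ ⋃₀ 𝓤) ∧ (cob w (A ∪ ⋃₀ 𝓤)).Finite ∧
      (cob w (A ∪ ⋃₀ 𝓤)).ncard ≤ (cob w A).ncard ∧
      (¬ ⋃₀ 𝓤 ⊆ A → (cob w (A ∪ ⋃₀ 𝓤)).ncard < (cob w A).ncard)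

/-- `A` is a family equal to `H` modulo finite sets and no such family has a smaller coboundary at
one index and nowhere a larger one -/
structure Minimal {G I : Type} [Group G] [MulAction G S] [MulAction G I] (w : WS S) (N : Nest G I)
    (H A : I → Set S) : Prop where
  fam : Fam w N A
  fin1 : ∀ c, (A c \ H c).Finite
  fin2 : ∀ c, (H c \ A c).Finite
  min : ∀ A' : I → Set S, Fam w N A' → (∀ c, (A' c \ H c).Finite) → (∀ c, (H c \ A' c).Finite) →
    (∀ c, (cob w (A' c)).ncard ≤ (cob w (A c)).ncard) →
    ∀ c, (cob w (A' c)).ncard = (cob w (A c)).ncard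

/-- **EXI** (100 lines). A minimal family exists.  Proof.  Let `T` be the finite set of `N.orb`.
Among the families `A` equal to `H` modulo finite sets (`H` is one) take one with
`∑ c ∈ T, (cob w (A c)).ncard` least.  If `A'` is as in `min` then the sum for `A'` is not smaller,
so there is equality at every `c ∈ T`, hence at every `c` (`(cob w (A (g • c))).ncard =
(cob w (A c)).ncard`: `s ↦ g • s` is a bijection of the coboundaries). -/
def Stmt_EXI : Prop :=
  ∀ (S G I : Type) [Group G] [MulAction G S] [MulAction G I] (w : WS S) (N : Nest G I)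
    (H : I → Set S), Acts G w → Fam w N H → ∃ A, Minimal w N H A

/-- **MONE** (150 lines, deps SUB ABS). (m1): arc halves inside `H c` are inside `A c`.  Proof.
`U c := ⋃₀ {B | ArcSet w B ∧ B ⊆ H c}`, `V c := (U (op c))ᶜ` (the intersection of the arc halves that
contain `H c`; the complement of an arc set is an arc set), `U c ⊆ H c ⊆ V c`,
`A' c := (A c ∪ U c) ∩ V c = (A c ∩ V c) ∪ U c`.  `A'` is again a family (monotone: `U`, `V` are
monotone; `A' (op c) = (A' c)ᶜ`; equivariant: the translate of an arc set is an arc set), equal to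
`H` modulo finite sets; `|cob (A' c)| ≤ |cob (A c ∪ U c)| ≤ |cob (A c)|` by `ABS` twice (the second
time for the complement: `(A c ∪ U c)ᶜ ∪ U (op c)`), strictly if `U c ⊆ A c` fails.  By minimality
`U c ⊆ A c`. -/
def Stmt_MONE : Prop :=
  ∀ (S G I : Type) [Group G] [MulAction G S] [MulAction G I] (w : WS S) (N : Nest G I)
    (H A : I → Set S), Acts G w → Fam w N H → Minimal w N H A →
    ∀ (c : I) (B : Set S), ArcSet w B → B ⊆ H c → B ⊆ A c

/-- **FLIP** (200 lines). Removing a strip lowers the coboundary.  Proof.  `F = body w s k`,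
`A' = A \ F`; `F` is a corner set (`SC` is an equivalence relation), `F ⊆ A`.  Injection
`Φ : cob A' → cob A`: `Φ t = t` if `t ∈ cob A`; otherwise exactly one of the corners of `t`, `h t`
is in `F` and both are in `A`.  If `t ∈ F` (and `h t ∈ A \ F`): `t` is one of the 8 states at the
corner of `u = h^i s`, and it does not look along the wall (`h^(±1)` of `u` is in `F` or not in `A`)
nor to the far side (`h (pp u) ∉ A`), so `t = rv (pp u)` or `t = mi (rv (pp u))`; put `Φ t = rv t`
(`= pp u` or `mi (pp u)`, which is in `cob A` and not in `cob A'`).  If `h t ∈ F`: then `h t` looks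
away from `t`, `h t = pp u` or `mi (pp u)` and `Φ t = h⁻¹ (rv (h t))` (the state at the far
neighbour of `u` looking to `u`; in `cob A`, not in `cob A'`).  `Φ` is injective, and
`h⁻¹ s ∈ cob A` is not a value: it is not in `cob A'`, and it is on the wall of the strip, not
perpendicular to it (it is not in `A`, so it is not a `rv t` with `t ∈ F`; if
`h⁻¹ s = h⁻¹ (rv (h t))` then `rv s = h t = pp u` or `mi (pp u)`, so `SC s u`, `u = h^i s`, `i = 0`
by `emb`, and `s = rv (pp s)` or `s = rv (mi (pp s))`, contradiction to `dir`).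
Useful: `h⁻¹ (rv x) = rv (h x)`, `h (rv x) = rv (h⁻¹ x)`. -/
def Stmt_FLIP : Prop :=
  ∀ (S : Type) (w : WS S) (A : Set S) (s : S) (k : ℕ),
    Cor w A → (cob w A).Finite → Strip w A s k →
    Cor w (body w s k) ∧ body w s k ⊆ A ∧ (cob w (A \ body w s k)).Finite ∧
      (cob w (A \ body w s k)).ncard < (cob w A).ncard

/-- **OVL** (150 lines). Two strips of the same length whose sets cover everything have no common
corner, if each lies in the set of the other one.  Proof.  Otherwise `u1 = h^i s1`, `u2 = h^j s2`,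
`SC u1 u2`, `i, j < k`.  Perpendicular case (`u2 = pp u1`, `rv (pp u1)`, or `mi` of these):
`h (pp u1)` is not in `A1` and is (up to `mi`, `rv`) `h u2` or `h⁻¹ u2`, i.e. a corner of strip 2,
which is in `A1`, or one of its two outer neighbours, which are not in `A2`: contradiction to
`A1 ∪ A2 = univ`.  Same wall, same direction (`u2 = u1` or `mi u1`): `i = j`: the left neighbours
coincide and are neither in `A1` nor in `A2`; `j < i`: `h⁻¹ s2` is (up to `mi`) a corner of strip 1, so
in `A2`: contradiction; `i < j` symmetric.  Opposite direction (`u2 = rv u1` or `rv (mi u1)`):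
`h^m s2` is at the corner of `h^(i+j-m) s1`; the outer neighbours of strip 2 are at the places
`i+j+1` and `i+j-k` of wall 1: one of them is in `[0, k)` (contradiction), or `i+j+1 = k` and it is
also the right outer neighbour of strip 1 (contradiction). -/
def Stmt_OVL : Prop :=
  ∀ (S : Type) (w : WS S) (A1 A2 : Set S) (s1 s2 : S) (k : ℕ), Cor w A1 → Cor w A2 →
    Strip w A1 s1 k → Strip w A2 s2 k → A1 ∪ A2 = univ → body w s1 k ⊆ A2 → body w s2 k ⊆ A1 →
    Disjoint (body w s1 k) (body w s2 k)

/-- **INN** (80 lines). A smaller set that meets a strip has a strip inside.  Proof.  Take a maximal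
run `[i1, i1 + k')` of indices around `i0` with `h^i s ∈ L`; far neighbours are not in `A ⊇ L`; the
neighbours of the run on the wall are not in `L` by maximality or are the outer neighbours of the
strip, not in `A`. -/
def Stmt_INN : Prop :=
  ∀ (S : Type) (w : WS S) (A L : Set S) (s : S) (k i0 : ℕ), Strip w A s k → L ⊆ A → i0 < k →
    (w.h ^ i0) s ∈ L → ∃ i1 k' : ℕ, i1 + k' ≤ k ∧ Strip w L ((w.h ^ i1) s) k'

/-- **MTWO** (250 lines, deps SUB FLIP OVL INN). (m2): a minimal family has no strips.  Proof.
Assume some `A c` has a strip; take one, `(c, s, k)`, with `k` least (over all `c`, `s`).  The set of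
the `c` with `Strip w (A c) s k` is finite (`h⁻¹ s ∈ cob (A c)`; finitely many orbits, finite
coboundaries, `G` acts freely on `S`); let `c0` be `le`-minimal in it.
(Claim) if `le L (g • c0)`, `L ≠ g • c0`, then no corner of `g • body` is in `A L`: otherwise INN
(applied to `A (g • c0)`, `A L`, the strip `g • s`, corner sets: one of the `h^i (g • s)` is in
`A L`) gives a strip of `A L` of length `k' ≤ k`, by the choice of `k` it is the whole strip, so
`Strip w (A (g⁻¹ • L)) s k`, `le (g⁻¹ • L) c0`: contradiction to the choice of `c0`.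
`X d := {t | ∃ g : G, g • c0 = d ∧ g⁻¹ • t ∈ body w s k}`, `A' d := (A d \ X d) ∪ X (op d)`.
`X d ∩ X (op d) = ∅` by `noinv`, hence `A' (op d) = (A' d)ᶜ`.  Monotone: `le d e`, `d ≠ e`;
`A d ∩ X e = ∅` and `A (op e) ∩ X (op d) = ∅` by the Claim; left is `X (op d) ∩ X e = ∅`: OVL
with `A1 = A (op d)`, `op d = g1 • c0`, `A2 = A e`, `e = g2 • c0`: `A1 ∪ A2 = univ`,
`X (op d) ⊆ A e`, `X e ⊆ A (op d)`.
FLIP at `c0` and equivariance: the coboundary of `A'` is smaller at `c0` and nowhere larger
(at `d` with `X d`, `X (op d)` empty nothing changes; `cob (A' (op d)) = cob (A' d)`):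
contradiction to minimality. -/
def Stmt_MTWO : Prop :=
  ∀ (S G I : Type) [Group G] [MulAction G S] [MulAction G I] (w : WS S) (N : Nest G I)
    (H A : I → Set S),
    Acts G w → Fam w N H → Minimal w N H A → ∀ c s k, ¬ Strip w (A c) s k

/-- **MIN** (20 lines, deps EXI MONE MTWO): output of this part. -/
def Stmt_MIN : Prop :=
  ∀ (S G I : Type) [Group G] [MulAction G S] [MulAction G I] (w : WS S) (N : Nest G I)
    (H : I → Set S),
    Acts G w → Fam w N H →
    ∃ A : I → Set S, Fam w N A ∧ (∀ c B, ArcSet w B → B ⊆ H c → B ⊆ A c) ∧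
      (∀ c B, ArcSet w B → H c ⊆ B → A c ⊆ B) ∧ ∀ c s k, ¬ Strip w (A c) s k

end Pool.CX.Low
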