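import Pool.Agent.Work.MP_727c87_cx.C1.Out
import Pool.Agent.Work.MP_727c87_lo.Min

/-!
# MP_727c87_gt, part LOW, second part (helper26): tracks, least families on flags, (m3), strands

`Tracks` = output of part C1 (`C1/Out.lean`, helper69, helper59); `ArcPot C y0 B` = `B` is one half of the arc
through the side of `y0`.  Blocks (each `theorem blk_XXX (deps) : Stmt_XXX`):
EMB ARF ART ARC MINF | ODD ARQ LOCQ LOC | PRX PRN STRIP STRE NCR | MIX.
Last part (file `Cnt.lean`): SWR STRR CNT.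
Conventions: the flag `y` over `(q, i)` is the corner `i` (between the sides `i`, `i+1`) of the
chamber `q`; the side `i` of `q` joins the corners of `r⁻¹ y` and `y`: this is called the side of `y`.
-/

set_option autoImplicit false

namespace Pool.CX

open Pool.CS Pool.W1P

variable {Mo : Model}

namespace Low

attribute [instance] Tracks.act

/-- the other half of an arc -/
theorem arcPot_compl {C : Cov Mo} {y0 : C.Y} {B : Set C.Y} (h : C.ArcPot y0 B) :
    C.ArcPot y0 Bᶜ where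
  a y := not_congr (h.a y)
  b y := not_congr (h.b y)
  r y := not_iff_not.trans (h.r y)

/-- the tracks as an index set of a nested family -/
def nest {C : Cov Mo} {M : W → ZMod 12 → ZMod 12} {dv : Dev C M} {K1 K2 : ℕ}
    (T : Tracks C dv K1 K2) : Nest C.deck T.Tr where
  op := T.rev
  le := T.le
  op_op := T.rev_rev
  le_refl := T.le_refl
  le_trans := T.le_trans
  le_antisymm := T.le_antisymm
  le_op := T.le_rev
  g_op := T.g_rev
  g_le := T.g_le
  free := T.free
  noinv := T.noinv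
  orb := T.orb

/-! ### the wall system of the flags -/

/-- states of a walker on the walls: `⟨y, false⟩` = at the corner `y`, on the wall of the side of
`y`, on the side of the chamber, going away from the side; `⟨y, true⟩` = on the wall of the
other side (number `i + 1`) at the corner -/
@[ext] structure St (C : Cov Mo) where
  y : C.Y
  e : Bool

instance (C : Cov Mo) : MulAction C.deck (St C) where
  smul g s := ⟨g.1 s.y, s.e⟩
  one_smul _ := rfl
  mul_smul _ _ _ := rfl

/-- one corner further on the wall -/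
def sh (C : Cov Mo) : Equiv.Perm (St C) where
  toFun s := match s with
    | ⟨y, false⟩ => ⟨C.r.symm (C.b y), true⟩
    | ⟨y, true⟩ => ⟨C.r (C.a y), false⟩
  invFun s := match s with
    | ⟨y, false⟩ => ⟨C.a (C.r.symm y), true⟩
    | ⟨y, true⟩ => ⟨C.b (C.r y), false⟩
  left_inv s := by
    rcases s with ⟨y, _ | _⟩ <;> simp [Cov.b, C.a_a]
  right_inv s := by
    rcases s with ⟨y, _ | _⟩ <;> simp [Cov.b, C.a_a]

/-- turn round -/
def srv (C : Cov Mo) (s : St C) : St C := match s with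
  | ⟨y, false⟩ => ⟨C.b y, false⟩
  | ⟨y, true⟩ => ⟨C.a y, true⟩

/-- change the side of the wall -/
def smi (C : Cov Mo) (s : St C) : St C := match s with
  | ⟨y, false⟩ => ⟨C.a y, false⟩
  | ⟨y, true⟩ => ⟨C.b y, true⟩

/-- turn into the perpendicular wall -/
def spp (C : Cov Mo) (s : St C) : St C := match s with
  | ⟨y, false⟩ => ⟨C.a y, true⟩
  | ⟨y, true⟩ => ⟨C.b y, false⟩

theorem Cov_bb (C : Cov Mo) (y : C.Y) : C.b (C.b y) = y := by simp [Cov.b, C.a_a]

theorem Cov_ab (C : Cov Mo) (y : C.Y) : C.a (C.b y) = C.b (C.a y) := C.ab y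

/-- **EMB** (80 lines). Walls are embedded in a covering with a development.  Proof.
For `s = ⟨y, false⟩`, `dv.f y = (w, j)`: `h^(2k) s = ⟨·, false⟩` over `(w (s_(j+1) s_(j-1))^k, j)`
(`k ∈ ℤ`), `h^(2k+1) s = ⟨·, true⟩` over `(w (s_(j+1) s_(j-1))^k s_(j+1), j - 1)`.  All states in `SC s`
have the second coordinate `j` and the chamber in `w {1, s_j, s_(j+1), s_j s_(j+1)}`: `n` is even and
`(s_(j+1) s_(j-1))^k ∈ {1, s_j, s_(j+1), s_j s_(j+1)}`; the left side is a rigid word of length `2|k|`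
(`Rig.unique`, or `len`), so `k = 0`.  `s = ⟨y, true⟩` similarly. -/
def Stmt_EMB : Prop :=
  ∀ (Mo : Model) (C : Cov Mo) (M : W → ZMod 12 → ZMod 12) (_ : Dev C M) (s : St C) (n : ℤ),
    SC (srv C) (smi C) (spp C) s ((sh C ^ n) s) → n = 0

/-- the wall system of the flags of a covering -/
def fws (EMB : Stmt_EMB) {C : Cov Mo} {M : W → ZMod 12 → ZMod 12} (dv : Dev C M) : WS (St C) where
  h := sh C
  rv := srv C
  mi := smi C
  pp := spp C
  rv_rv s := by rcases s with ⟨y, _ | _⟩ <;> simp [srv, C.a_a, Cov_bb]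
  mi_mi s := by rcases s with ⟨y, _ | _⟩ <;> simp [smi, C.a_a, Cov_bb]
  rv_mi s := by rcases s with ⟨y, _ | _⟩ <;> simp [srv, smi, Cov_ab]
  pp_pp s := by rcases s with ⟨y, _ | _⟩ <;> simp [srv, smi, spp, Cov_ab]
  pp_rv s := by rcases s with ⟨y, _ | _⟩ <;> simp [srv, smi, spp, Cov_ab]
  pp_mi s := by rcases s with ⟨y, _ | _⟩ <;> simp [srv, smi, spp, C.a_a, Cov_bb]
  h_rv s := by rcases s with ⟨y, _ | _⟩ <;> simp [srv, sh, C.a_a, Cov.b]
  h_mi s := by
    rcases s with ⟨y, _ | _⟩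
    · simp only [smi, sh, Equiv.coe_fn_mk, St.mk.injEq, and_true]
      rw [← Cov_ab]; simp [Cov.b]
    · simp only [smi, sh, Equiv.coe_fn_mk, St.mk.injEq, and_true]
      have := C.ab y
      rw [Cov.b, this]
      simp
  emb s n := EMB Mo C M dv s n
  dir s := by
    rcases s with ⟨y, _ | _⟩ <;> simp [srv, smi, spp]

/-- the set of states over a set of corners -/
def up {C : Cov Mo} (A : Set C.Y) : Set (St C) := {s | s.y ∈ A}

/-- the reflection in the side of `y`, in the development -/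
noncomputable def Dev.ref {C : Cov Mo} {M : W → ZMod 12 → ZMod 12} (dv : Dev C M) (y : C.Y) : W :=
  (dv.f y).1 * rg G12 (dv.f y).2 * (dv.f y).1⁻¹

/-- **ARF** (80 lines). An arc has finitely many sides.  Proof.  By `Mo.cut` (applied to `p y0` and
to `p (a y0)`) the sequences `v_0 = y0` resp. `a y0`, `v_(k+1) = a (m v_k)` meet a defect; take the
first ones; the set of all `v_k`, `m v_k` (`k` before the defect) and the two last `v_k` is finite,
contains `y0` and is closed under `a` and, over non-defects, under `m` (`m_m`), so it contains the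
class. (Up1.lean of helper76: `arc_cases`.) -/
def Stmt_ARF : Prop :=
  ∀ (Mo : Model) (C : Cov Mo) (y0 : C.Y), {y | C.SameArc y0 y}.Finite

/-- **ART** (150 lines). Different sides of one arc have non-commuting reflections.  Proof.
`y, z` on one arc: (up to `y ↔ a y`) `z` is reached from `y` by `v_(k+1) = a (m v_k)`
(Up1.lean: `arc_cases`, `reach_word`), `f z = (w t_1 .. t_n, t_n)`, `f y = (w, t_0)`, the word
`t_0 t_1 .. t_n` is rigid (`Far` neighbours); `z = y` or `z = a y` if `n = 0`.  For `n ≥ 1`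
`w⁻¹ ref y w = t_0`, `w⁻¹ ref z w = t_1 .. t_n .. t_1`; if they commute, the words
`t_0 t_1 .. t_n .. t_1` and `t_1 .. t_n .. t_1 t_0`, both rigid, are equal in `W`, hence equal
(`Rig.unique`), so `t_0 = t_1`: contradiction.  If `z` is reached from `a y` instead of `y`: `a y` has
the same reflection as `y`. -/
def Stmt_ART : Prop :=
  ∀ (Mo : Model) (C : Cov Mo) (M : W → ZMod 12 → ZMod 12) (_ : ∀ w, Good (M w)) (dv : Dev C M)
    (y z : C.Y), C.SameArc y z →
    z = y ∨ z = C.a y ∨ Dev.ref dv y * Dev.ref dv z ≠ Dev.ref dv z * Dev.ref dv y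

/-- **ARC** (150 lines, deps EMB ARF ART). The halves of an arc are arc sets of the wall system.
Proof.  A state `s` lies on a wall with reflection `ρ s`: `ρ ⟨y, false⟩ = w s_j w⁻¹`,
`ρ ⟨y, true⟩ = w s_(j+1) w⁻¹` for `dv.f y = (w, j)`; `ρ` is invariant under `h`, `rv`, `mi` (commuting
letters), `ρ (pp s)` commutes with `ρ s` and is different.  The step from `s` to `h s` goes along the
side of the flag `e s := b y` for `s = ⟨y, false⟩`, `e s := r (a y)` for `⟨y, true⟩`; `ref (e s) = ρ s`;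
`s ∈ cob (up B)` iff `SameArc y0 (e s)` (`ArcPot.r` at `r⁻¹ (b y)`, at `a y`).
`fin`: `e` is at most two to one and ARF.  `one`: `s, h^n s ∈ cob`: by ART `e (h^n s)` is `e s` or
`a (e s)` (commuting reflections), so `h^n s` is at the corner of `s` (then `n = 0` by `emb`), or
`h^n s` is at the corner of `h s` and `h^(n+1) s` at the corner of `s` (then `n = 1` and `n + 1 = 0`).
`two`: `ρ (h^n s) = ρ s`, `ρ (h^m (pp s)) = ρ (pp s)` commute and differ: contradiction to ART. -/
def Stmt_ARC : Prop :=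
  ∀ (EMB : Stmt_EMB) (Mo : Model) (C : Cov Mo) (M : W → ZMod 12 → ZMod 12)
    (_ : ∀ w, Good (M w)) (dv : Dev C M) (y0 : C.Y) (B : Set C.Y), C.ArcPot y0 B →
    ArcSet (fws EMB dv) (up B)

/-- a strip of length `k` at the state `s` (the same as `Strip (fws ..) (up A) s k`) -/
structure FStrip (C : Cov Mo) (A : Set C.Y) (s : St C) (k : ℕ) : Prop where
  pos : 1 ≤ k
  mem : ∀ i : ℕ, i < k → ((sh C ^ i) s).y ∈ A
  far : ∀ i : ℕ, i < k → (sh C (spp C ((sh C ^ i) s))).y ∉ A
  left : ((sh C).symm s).y ∉ A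
  right : ((sh C ^ k) s).y ∉ A

/-- the least family of part MIN, on flags -/
structure Sys {C : Cov Mo} {M : W → ZMod 12 → ZMod 12} {dv : Dev C M} {K1 K2 : ℕ}
    (T : Tracks C dv K1 K2) (A : T.Tr → Set C.Y) : Prop where
  a : ∀ c y, C.a y ∈ A c ↔ y ∈ A c
  b : ∀ c y, C.b y ∈ A c ↔ y ∈ A c
  fin : ∀ c, {y | ¬ (y ∈ A c ↔ C.r y ∈ A c)}.Finite
  op : ∀ c, A (T.rev c) = (A c)ᶜ
  mono : ∀ c d, T.le c d → A c ⊆ A d
  eqv : ∀ (g : C.deck) c (y : C.Y), g.1 y ∈ A (g • c) ↔ y ∈ A c
  /-- (m1) -/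
  m1 : ∀ c y0 B, C.ArcPot y0 B → B ⊆ T.H c → B ⊆ A c
  /-- (m2) -/
  m2 : ∀ c s k, ¬ FStrip C (A c) s k

/-- **MINF** (150 lines, deps MIN EMB ARC). Part MIN for the flags: apply `Stmt_MIN` to
`S = St C`, `G = C.deck`, `I = T.Tr`, `H c = up (T.H c)`.  `Acts`: deck transformations commute with
`a, r, b`; free: `Conn.aut_ext` (a deck transformation with a fixed flag is the identity).
`Fam (up ∘ H)`: `Cor` from `H_a, H_b`; the coboundary is finite by `bd`, `vis_fin` (`s ↦ e s` as in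
ARC is at most two to one).  From the family `A'` get `A c := {y | ⟨y, false⟩ ∈ A' c}`;
`⟨y, true⟩ ∈ A' c ↔ ⟨y, false⟩ ∈ A' c` by `Cor` (`pp ⟨y, false⟩ = ⟨a y, true⟩ = rv ⟨y, true⟩`), so
`A' c = up (A c)`. -/
def Stmt_MINF : Prop :=
  ∀ (Mo : Model) (C : Cov Mo) (_ : C.Univ) (M : W → ZMod 12 → ZMod 12) (_ : ∀ w, Good (M w))
    (dv : Dev C M) (K1 K2 : ℕ) (T : Tracks C dv K1 K2), ∃ A : T.Tr → Set C.Y, Sys T A

/-! ### (m3) -/

/-- the corner `k` is on the side of the corner `i` of the chord from the side `i` to the side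
`M i` -/
def In (M : ZMod 12 → ZMod 12) (i k : ZMod 12) : Prop := (k - i).val < (M i - i).val

/-- **ODD** (120 lines, elementary). A non-constant colouring of the corners of an admissible
chamber: some chord has both colours on both sides, or one corner has another colour than all the
others.  Proof.  Otherwise every chord has a monochromatic side.  Take a chord, and let `[u, v]` be the
maximal monochromatic interval of corners which contains its monochromatic side (proper: `x` is not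
constant); the sides which touch it are `[u, v + 1]`.  Every side `j ∈ [u + 1, v]` has its partner in
`[u, v + 1]`: the monochromatic side of its chord (an interval of corners `[j, M j - 1]` or
`[M j, j - 1]`) contains the corner `j` or `j - 1` of `[u, v]`, so it is contained in `[u, v]`.
`J := {j ∈ [u, v + 1] : M j ∈ [u, v + 1]}` is closed under `M`, contains `[u + 1, v]` and the chosen
chord, so it is a nonempty interval; by `conn` it is everything: `[u, v + 1]` are all 12 sides and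
`[u, v]` are 11 corners.  (Rotate so that `u = 0`, or any other way which is fast.) -/
def Stmt_ODD : Prop :=
  ∀ (M : ZMod 12 → ZMod 12), Good M → ∀ x : ZMod 12 → Prop, (∃ u v, x u ∧ ¬ x v) →
    (∃ i, (∃ k, In M i k ∧ x k) ∧ (∃ k, In M i k ∧ ¬ x k) ∧
      (∃ k, ¬ In M i k ∧ x k) ∧ ∃ k, ¬ In M i k ∧ ¬ x k) ∨
    ∃ v, ∀ u, u ≠ v → ¬ (x u ↔ x v)

/-- **ARQ** (60 lines). The halves of an arc in a chamber which it crosses: the corners `r^k y`,
`k < 12`, of the chamber of `y` are on the side of the corner `y` exactly for `k < (mu i - i).val`.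
Proof.  The sides `r^k y`, `0 ≤ k < 12`, which are in the arc of `y` are those of `y` and `m y`
(Up1.lean: `arc_chamber`; `C.m y = r^((mu i - i).val) y`), walk round the chamber with `ArcPot.r`. -/
def Stmt_ARQ : Prop :=
  ∀ (Mo : Model) (C : Cov Mo) (_ : C.Univ) (y : C.Y) (B : Set C.Y), (C.p y).1 ∉ Mo.D →
    C.ArcPot y B → ∀ k : ℕ, k < 12 → (((C.r ^ k) y ∈ B ↔ y ∈ B) ↔
      k < (Mo.mu (C.p y).1 (C.p y).2 - (C.p y).2).val)

/-- **LOCQ** (200 lines, deps ODD ARQ). A set of corners without strips, not constant on a chamber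
without defects around: an arc through this chamber or a neighbour has four nonempty quadrants.
Proof.  Let `q` be the chamber, `x k` = the corner `k` of `q` is in `A`.  ODD: if some chord has four
nonempty quadrants in `q` take the arc of its side `i` and ARQ.  Otherwise `x` has one odd corner `v`.
Let `q'` be the neighbour across the side `v + 1`, `x'` its colouring; `x' v = x v`,
`x' (v + 1) = x (v + 1)` (common corners: `a`, `b`), so `x'` is not constant.  ODD for `q'`: a chord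
with four quadrants: done.  Otherwise the odd corner `v'` of `q'` is `v` or `v + 1`.
`v' = v`: let `y` be the flag `(q, v)`; the corner `y` differs from `r⁻¹ y` (corner `v - 1` of `q`),
`r y` (corner `v + 1`), `r⁻¹ (b y)` (corner `v - 1` of `q'`): `FStrip A ⟨y, false⟩ 1` if `y ∈ A`,
`FStrip Aᶜ ⟨y, false⟩ 1` otherwise: contradiction.  `v' = v + 1`: the arc of the common side `v + 1`:
in `q` its half on the side of the corner `v` contains the corner `v` and (chords have length `≥ 3`)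
another corner of `q`, of the other colour; in `q'` its half on the side of the corner `v + 1` contains
the corner `v + 1` and another corner of `q'` of the other colour: four quadrants (ARQ for
`y0 = (q, v + 1)` and for `a y0`, which is on the same arc). -/
def Stmt_LOCQ : Prop :=
  ∀ (Mo : Model) (C : Cov Mo) (_ : C.Univ) (A : Set C.Y), (∀ y, C.a y ∈ A ↔ y ∈ A) →
    (∀ y, C.b y ∈ A ↔ y ∈ A) → (∀ s k, ¬ FStrip C A s k) → (∀ s k, ¬ FStrip C Aᶜ s k) →
    ∀ y : C.Y, (C.p y).1 ∉ Mo.D → (∀ i, Mo.L.τ i (C.p y).1 ∉ Mo.D) →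
    (∃ k : ℕ, ¬ ((C.r ^ k) y ∈ A ↔ y ∈ A)) →
    ∃ y0 : C.Y, C.Dle 40 y y0 ∧ ∀ B, C.ArcPot y0 B → (A ∩ B).Nonempty ∧ (A ∩ Bᶜ).Nonempty ∧
      (Aᶜ ∩ B).Nonempty ∧ (Aᶜ ∩ Bᶜ).Nonempty

/-- **LOC** (60 lines, dep LOCQ). (m3).  Proof.  LOCQ for `A c` (`FStrip (A c)ᶜ` is a strip of
`A (rev c)`) gives `y0`; `Univ.arc_sides` gives a half `B` of its arc.  If `T.H c ∩ B` were empty then
`B ⊆ H (rev c)`, `B ⊆ A (rev c) = (A c)ᶜ` by (m1), contradiction; same for the other three (`arcPot_compl`),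
so `T.miss` applies: `y' ∈ vis c` on the arc of `y0` (one step). -/
def Stmt_LOC : Prop :=
  ∀ (Mo : Model) (C : Cov Mo) (_ : C.Univ) (M : W → ZMod 12 → ZMod 12) (dv : Dev C M) (K1 K2 : ℕ)
    (T : Tracks C dv K1 K2) (A : T.Tr → Set C.Y), Sys T A → ∀ (c : T.Tr) (y : C.Y),
    (C.p y).1 ∉ Mo.D → (∀ i, Mo.L.τ i (C.p y).1 ∉ Mo.D) →
    (∃ k : ℕ, ¬ ((C.r ^ k) y ∈ A c ↔ y ∈ A c)) → ∃ y' ∈ T.vis c, C.Dle 60 y y'

/-! ### strands -/

/-- a piece of a strand of `A` in a non-defect chamber with base flag `y0` (over `(q, 0)`): it cuts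
off the corners `m, .., n - 1`, a maximal interval of corners on which `A` is not as at the base
corner; it joins the sides `m` and `n` (`n = 12` is the side `0`) -/
structure Pce (C : Cov Mo) (A : Set C.Y) (y0 : C.Y) (m n : ℕ) : Prop where
  base : (C.p y0).2 = 0
  nd : (C.p y0).1 ∉ Mo.D
  pos : 1 ≤ m
  lt : m < n
  le : n ≤ 12
  mem : ∀ k, m ≤ k → k < n → ¬ ((C.r ^ k) y0 ∈ A ↔ y0 ∈ A)
  left : (C.r ^ (m - 1)) y0 ∈ A ↔ y0 ∈ A
  right : (C.r ^ n) y0 ∈ A ↔ y0 ∈ A

/-- the sides of the flags `z`, `z'` of one chamber are joined by a piece of `A` -/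
def Pr (C : Cov Mo) (A : Set C.Y) (z z' : C.Y) : Prop :=
  ∃ y0 m n, Pce C A y0 m n ∧ ((z = (C.r ^ m) y0 ∧ z' = (C.r ^ n) y0) ∨
    (z = (C.r ^ n) y0 ∧ z' = (C.r ^ m) y0))

/-- **PRX** (80 lines). Every side of a non-defect chamber in the coboundary of `A` is an end of a
piece.  Proof.  `y0 := r^(-i) z`, `i = (p z).2.val`; `z = r^k y0` with `k = i` if `i ≥ 1`, `k = 12` if
`i = 0` (`C.nd`).  If `r^k y0` is not as `y0`: `k = m`, `n` = least `n > k` with `r^n y0` as `y0`
(`n = 12` is).  If it is as `y0` then `r^(k-1) y0` is not (so `k ≥ 2`): `n = k`, `m - 1` = greatest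
index `< k` with `r^(m-1) y0` as `y0`. -/
def Stmt_PRX : Prop :=
  ∀ (Mo : Model) (C : Cov Mo) (A : Set C.Y) (z : C.Y), (C.p z).1 ∉ Mo.D →
    ¬ (C.r.symm z ∈ A ↔ z ∈ A) → ∃ z', Pr C A z z'

/-- **PRN** (80 lines). Properties of pieces.  The last one: if `z' = r² z` then the piece cuts off
exactly the corners `z, r z`, or exactly the others. -/
def Stmt_PRN : Prop :=
  ∀ (Mo : Model) (C : Cov Mo) (A : Set C.Y) (z z' : C.Y), Pr C A z z' →
    Pr C A z' z ∧ (C.p z).1 ∉ Mo.D ∧ (C.p z').1 = (C.p z).1 ∧ (C.p z').2 ≠ (C.p z).2 ∧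
    (∃ e : ℕ, 1 ≤ e ∧ e ≤ 11 ∧ z' = (C.r ^ e) z) ∧
    ¬ (C.r.symm z ∈ A ↔ z ∈ A) ∧ ¬ (C.r.symm z' ∈ A ↔ z' ∈ A) ∧
    (z' = C.r (C.r z) → (z ∈ A ↔ C.r z ∈ A))

/-- a strand of `A`: `y 0, .., y l`; the strand leaves the chamber of `y i` through the side of `y i`
into the chamber of `y (i + 1)` -/
def Strand (C : Cov Mo) (A : Set C.Y) (l : ℕ) (y : ℕ → C.Y) : Prop :=
  ∀ i < l, Pr C A (C.a (y i)) (y (i + 1))

/-- the word `[s_i, .., s_(j-1)]` of the sides of a sequence of flags -/
def wd (C : Cov Mo) (y : ℕ → C.Y) (i j : ℕ) : List (ZMod 12) :=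
  (List.range' i (j - i)).map fun k => (C.p (y k)).2

/-- **STRIP** (200 lines, dep PRN). A strand of a set without strips is a reduced gallery.  Proof.
Otherwise (`red_iff`) there are `i < j ≤ l` with `s_i = s_j = s` and all `s_k`, `i < k < j`, neighbours
of `s`; consecutive letters differ (PRN), so `j ≥ i + 2` and `u_t = s_(i+t)`, `1 ≤ t ≤ k := j - i - 1`,
alternate between `s - 1` and `s + 1`.  Let `v_t = y (i + t)`, a flag of the chamber `g_t` with the side
`u_t`; state `c_t = ⟨r⁻¹ v_t, false⟩` if `u_t = s + 1`, `c_t = ⟨v_t, true⟩` if `u_t = s - 1`: the corner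
between `s` and `u_t` of `g_t`, walker on the wall of `s`.  `h c_t = c_(t+1)` for `t < k` (`a v_t` and
`v_(t+1)` are flags of one chamber with sides `s ± 1`, `v_(t+1) = r^(∓2) (a v_t)`, `b r⁻¹ = r⁻¹ a`).
The far corner of `c_t` (`h (pp c_t)`) is the other end of the side of `v_t`, which is in the
coboundary: it differs from `c_t`.  `c_t` and `c_(t+1)` are equal mod `A` (last item of PRN for `a v_t`,
`v_(t+1)`).  In `g_1` the piece joins the sides `s` (entered) and `u_1`: the other end of the side `s`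
at `c_1`, i.e. `h⁻¹ c_1`, differs from `c_1`.  In the last chamber (of `y j`) the piece joins `u_k` and
`s`: `h c_k` differs from `c_k`.  So `FStrip A c_1 k` or `FStrip Aᶜ c_1 k`. -/
def Stmt_STRIP : Prop :=
  ∀ (Mo : Model) (C : Cov Mo) (A : Set C.Y), (∀ y, C.a y ∈ A ↔ y ∈ A) →
    (∀ y, C.b y ∈ A ↔ y ∈ A) → (∀ s k, ¬ FStrip C A s k) → (∀ s k, ¬ FStrip C Aᶜ s k) →
    ∀ (l : ℕ) (y : ℕ → C.Y), Strand C A l y → Red G12 (wd C y 0 (l + 1))

/-- **STRE** (120 lines, deps PRX PRN STRIP). From a side in the coboundary the strand can be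
followed until it reaches the set `Z` (which contains the defects).  Proof.  If `a (y i)` is over a
chamber outside `Z` then its side is in the coboundary (`r⁻¹ (a y) = b (r⁻¹ y)`), PRX gives `y (i + 1)`.
If this never stops: all `y i` are in the finite set of the flags with side in the coboundary, so
`y i = y j`, `i < j`; but `(f (y j)).1 = (f (y i)).1 * wp (wd C y i j)` (`Dev.f_a`, PRN), the word is
reduced (STRIP) of length `j - i ≥ 1`, so `wp ≠ 1`: contradiction. -/
def Stmt_STRE : Prop :=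
  ∀ (Mo : Model) (C : Cov Mo) (M : W → ZMod 12 → ZMod 12) (_ : Dev C M) (A : Set C.Y),
    (∀ y, C.a y ∈ A ↔ y ∈ A) → (∀ y, C.b y ∈ A ↔ y ∈ A) →
    {y | ¬ (y ∈ A ↔ C.r y ∈ A)}.Finite → (∀ s k, ¬ FStrip C A s k) →
    (∀ s k, ¬ FStrip C Aᶜ s k) → ∀ (Z : Set Mo.Q), Mo.D ⊆ Z → ∀ y0 : C.Y,
    ¬ (C.r.symm y0 ∈ A ↔ y0 ∈ A) → (C.p y0).1 ∉ Z →
    ∃ (l : ℕ) (y : ℕ → C.Y), y 0 = y0 ∧ Strand C A l y ∧ (∀ i ≤ l, (C.p (y i)).1 ∉ Z) ∧
      (C.p (C.a (y l))).1 ∈ Z

/-- the strand system downstairs: the sides `s`, `t` of the chamber `q` are joined by a piece of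
some `A c` in some chamber over `q` -/
def SS {C : Cov Mo} {Tr : Type} (A : Tr → Set C.Y) (q : Mo.Q) (s t : ZMod 12) : Prop :=
  ∃ (c : Tr) (y0 : C.Y) (m n : ℕ), (C.p y0).1 = q ∧ Pce C (A c) y0 m n ∧
    ((s = (m : ZMod 12) ∧ t = (n : ZMod 12)) ∨ (s = (n : ZMod 12) ∧ t = (m : ZMod 12)))

/-- **NCR** (150 lines). Pieces in one chamber do not cross.  Proof.  `(c, y0, m, n)`,
`(c', y0', m', n')` over `q`: by `Univ.exists_aut` there is a deck transformation `g y0' = y0`
(it commutes with `r`), `eqv`: `Pce (A (g • c')) y0 m' n'`: so one base flag.  `T.nested`, `mono`, `op`: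
`A c ⊆ A d`, `A c ⊆ (A d)ᶜ`, `(A c)ᶜ ⊆ A d` or `(A c)ᶜ ⊆ (A d)ᶜ`.  `N = {k : r^k y0 is not as y0 mod A c}`,
`N'` the same for `A d`: `N ∩ N' = ∅`, `N ⊆ N'` or `N' ⊆ N` (the quadrant which contains the base flag
is not the empty one).  If `m < m' < n < n'`: `m' ∈ N ∩ N'`, `n ∈ N' \ N`, `m' - 1 ∈ N \ N'`:
contradiction; same for `m' < m < n' < n`.  And `Cross` of the sides `m, n, m', n'` (mod 12, all in
`1..12`) means one of these two (decide over `Fin 13`). -/
def Stmt_NCR : Prop :=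
  ∀ (Mo : Model) (C : Cov Mo) (_ : C.Univ) (M : W → ZMod 12 → ZMod 12) (dv : Dev C M) (K1 K2 : ℕ)
    (T : Tracks C dv K1 K2) (A : T.Tr → Set C.Y), Sys T A →
    ∀ q s t s' t', SS A q s t → SS A q s' t' → ¬ Cross s t s' t'

/-- **MIX** (150 lines). (m4): the alternating gallery of length `3 K2 + 2` from a chamber without
defects around passes through a chamber on which some `A c` is not constant.  Proof.
`N = 3 K2 + 2`; `u 0` over `(q, 0)` (`Univ.p_surj`), `u (k + 1) = a (u k)` for even `k`,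
`r⁻² a r² (u k)` for odd `k`, all over the side `0`, `f (u k) = (w wp (alt 0 2 k), 0)` and
`(C.p (u k)).1 = act q (alt 0 2 k)`; `¬ PF.Dle M K2 (f (u 0)) (f (u N))` by `PF.Dle.runs` and `alt_le`
(`0, 2` not adjacent, not far).  `Univ.arc_sides`: halves `B`, `B'` of the arcs of `u 0`, `u N`;
`T.complete` gives `c`; by (m1) (for `c` and `rev c`, `arcPot_compl`) one half of `B` is in `A c`, one half of `B'` in `(A c)ᶜ`; `u 0` and
`r⁻¹ (u 0)` are in different halves: the chamber of `u 0` has a corner in `A c`, the chamber of `u N`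
one outside.  If all chambers of the `u k` were constant they would all have the same value
(the corners of `u k`, `a (u k)` coincide, resp. of `r² u k`, `a (r² u k)`). -/
def Stmt_MIX : Prop :=
  ∀ (Mo : Model) (C : Cov Mo) (_ : C.Univ) (M : W → ZMod 12 → ZMod 12) (_ : ∀ w, Good (M w))
    (dv : Dev C M) (K1 K2 : ℕ)
    (T : Tracks C dv K1 K2) (A : T.Tr → Set C.Y), Sys T A → ∀ q : Mo.Q,
    (∀ l : List (ZMod 12), l.length ≤ 3 * K2 + 3 → Pool.CX.act Mo.L q l ∉ Mo.D) →
    ∃ i ≤ 3 * K2 + 2, ∃ (y : C.Y) (c : T.Tr), (C.p y).1 = Pool.CX.act Mo.L q (alt 0 2 i) ∧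
      ∃ k : ℕ, ¬ ((C.r ^ k) y ∈ A c ↔ y ∈ A c)

end Low

end Pool.CX
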