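import Pool.Agent.Work.MP_727c87_lo.Loc

/-!
# MP_727c87_gt, part LOW, block MIX (helper40)

(m4): the alternating gallery passes through a chamber on which some `A c` is not constant.
-/

set_option autoImplicit false

namespace Pool.CX

open Pool.CS Pool.W1P Relation

variable {Mo : Model}

namespace Low

namespace MIX

theorem ne02 : (0 : ZMod 12) ≠ 2 := by decide

theorem nadj02 : ¬ G12.Adj (0 : ZMod 12) 2 := by decide

theorem nfar02 : ¬ FarG G12 (0 : ZMod 12) 2 := by
  intro h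
  exact h 1 ⟨Or.inr (by decide), Or.inr (by decide)⟩

/-- the gallery -/
def gal (C : Cov Mo) (u0 : C.Y) : ℕ → C.Y
  | 0 => u0
  | k + 1 => if k % 2 = 0 then C.a (gal C u0 k)
      else C.r.symm (C.r.symm (C.a (C.r (C.r (gal C u0 k)))))

theorem gal_p (C : Cov Mo) {u0 : C.Y} {q : Mo.Q} (h : C.p u0 = (q, 0)) (k : ℕ) :
    C.p (gal C u0 k) = (Pool.CX.act Mo.L q (alt 0 2 k), 0) := by
  induction k with
  | zero => exact h
  | succ k ih =>
    rw [alt_succ, act_append, gal]
    by_cases hk : k % 2 = 0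
    · rw [if_pos hk, if_pos hk, C.p_a, ih]
      rfl
    · rw [if_neg hk, if_neg hk, C.p_rsymm, C.p_rsymm, C.p_a, C.p_r, C.p_r, ih]
      simp only [Model.fr, Model.fa, Equiv.coe_fn_mk, Equiv.coe_fn_symm_mk, Pool.CX.act,
        List.foldl_cons, List.foldl_nil, Prod.mk.injEq]
      have e : (0 : ZMod 12) + 1 + 1 = 2 := by decide
      rw [e]
      exact ⟨rfl, by decide⟩

theorem gal_f {C : Cov Mo} {M : W → ZMod 12 → ZMod 12} (dv : Dev C M) {u0 : C.Y} {q : Mo.Q}
    (h : C.p u0 = (q, 0)) (k : ℕ) :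
    (dv.f (gal C u0 k)).1 = (dv.f u0).1 * wp G12 (alt 0 2 k) := by
  induction k with
  | zero => simp [gal, alt, wp_nil]
  | succ k ih =>
    have h2 : (dv.f (gal C u0 k)).2 = 0 := by rw [dv.f_snd, gal_p C h]
    rw [alt_succ, wp_append, gal, ← mul_assoc, ← ih]
    by_cases hk : k % 2 = 0
    · rw [if_pos hk, if_pos hk, dv.f_a, h2, wp_cons, wp_nil, mul_one]
    · rw [if_neg hk, if_neg hk, dv.f_rs, dv.f_rs, dv.f_a, dv.f_r, dv.f_r, h2, wp_cons, wp_nil,
        mul_one]
      have e : (0 : ZMod 12) + 1 + 1 = 2 := by decide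
      simp only [e]

end MIX

theorem blk_MIX : Stmt_MIX := by
  intro Mo C hC M hM dv K1 K2 T A hA q hq
  obtain ⟨u0, hu0⟩ := hC.p_surj (q, 0)
  obtain ⟨B, hB⟩ : ∃ B, C.ArcPot u0 B := by
    obtain ⟨B, h1, h2, h3⟩ := Cov.Univ.arc_sides hC u0
    exact ⟨B, ⟨h1, h2, h3⟩⟩
  set N := 3 * K2 + 2 with hN
  obtain ⟨B', hB'⟩ : ∃ B', C.ArcPot (MIX.gal C u0 N) B' := by
    obtain ⟨B, h1, h2, h3⟩ := Cov.Univ.arc_sides hC (MIX.gal C u0 N)
    exact ⟨B, ⟨h1, h2, h3⟩⟩
  have hfar : ¬ PF.Dle M K2 (dv.f u0) (dv.f (MIX.gal C u0 N)) := by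
    intro h
    have h1 := h.runs fun w i => (hM w).inv i
    rw [MIX.gal_f dv hu0] at h1
    have h2 := alt_le (fun x j => (hM x).farG j) _ K2 MIX.ne02 MIX.nadj02 MIX.nfar02 N h1
    omega
  obtain ⟨c, hc1, hc2⟩ := T.complete _ _ _ _ hfar hB hB'
  -- one half of `B` is in `A c`
  have h1 : B ⊆ A c ∨ Bᶜ ⊆ A c := by
    rcases hc1 with h | h
    · exact Or.inl (hA.m1 c _ _ hB h)
    · exact Or.inr (hA.m1 c _ _ (arcPot_compl hB) h)
  have h2 : B' ⊆ (A c)ᶜ ∨ B'ᶜ ⊆ (A c)ᶜ := by
    rw [← hA.op c]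
    rw [← T.H_rev c] at hc2
    rcases hc2 with h | h
    · exact Or.inl (hA.m1 (T.rev c) _ _ hB' h)
    · exact Or.inr (hA.m1 (T.rev c) _ _ (arcPot_compl hB') h)
  -- the two corners of a side are in different halves
  have hdiff : ∀ (y : C.Y) (B : Set C.Y), C.ArcPot y B → ¬ (y ∈ B ↔ C.r.symm y ∈ B) := by
    intro y B h
    have := (h.r (C.r.symm y)).1
    rw [Equiv.apply_symm_apply] at this
    intro h'
    exact this h' (Relation.EqvGen.refl _)
  by_contra hcon
  push Not at hcon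
  have hconst : ∀ i ≤ N, ∀ y : C.Y, (C.p y).1 = Pool.CX.act Mo.L q (alt 0 2 i) →
      ∀ k : ℕ, ((C.r ^ k) y ∈ A c ↔ y ∈ A c) := by
    intro i hi y hy k
    exact hcon i hi y c hy k
  -- `r⁻¹ y` and `y`
  have hrs : ∀ i ≤ N, (C.r.symm (MIX.gal C u0 i) ∈ A c ↔ MIX.gal C u0 i ∈ A c) := by
    intro i hi
    have := hconst i hi (C.r.symm (MIX.gal C u0 i)) (by
      rw [C.p_rsymm, MIX.gal_p C hu0]
      rfl) 1
    rw [pow_one, Equiv.apply_symm_apply] at this
    exact this.symm
  have hstart : u0 ∈ A c := by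
    have e := hrs 0 (by omega)
    have e' : MIX.gal C u0 0 = u0 := rfl
    rw [e'] at e
    by_contra hu
    have hu' : C.r.symm u0 ∉ A c := fun h => hu (e.1 h)
    apply hdiff u0 B hB
    rcases h1 with h | h
    · exact ⟨fun h' => absurd (h h') hu, fun h' => absurd (h h') hu'⟩
    · have a1 : u0 ∈ B := by
        by_contra h'
        exact hu (h h')
      have a2 : C.r.symm u0 ∈ B := by
        by_contra h'
        exact hu' (h h')
      exact ⟨fun _ => a2, fun _ => a1⟩
  have hend : MIX.gal C u0 N ∉ A c := by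
    have e := hrs N le_rfl
    intro hu
    have hu' : C.r.symm (MIX.gal C u0 N) ∈ A c := e.2 hu
    apply hdiff _ B' hB'
    rcases h2 with h | h
    · exact ⟨fun h' => absurd hu (h h'), fun h' => absurd hu' (h h')⟩
    · have a1 : MIX.gal C u0 N ∈ B' := by
        by_contra h'
        exact h h' hu
      have a2 : C.r.symm (MIX.gal C u0 N) ∈ B' := by
        by_contra h'
        exact h h' hu'
      exact ⟨fun _ => a2, fun _ => a1⟩
  have hall : ∀ i ≤ N, MIX.gal C u0 i ∈ A c := by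
    intro i
    induction i with
    | zero => intro _; exact hstart
    | succ k ih =>
      intro hk
      have h3 := ih (by omega)
      rw [MIX.gal]
      by_cases hk2 : k % 2 = 0
      · rw [if_pos hk2]
        exact (hA.a c _).2 h3
      · rw [if_neg hk2]
        have h4 := (hconst k (by omega) (MIX.gal C u0 k) (by rw [MIX.gal_p C hu0]) 2).2 h3
        have h5 : (C.r ^ 2) (MIX.gal C u0 k) = C.r (C.r (MIX.gal C u0 k)) := by
          rw [pow_two, Equiv.Perm.mul_apply]
        rw [h5] at h4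
        have h6 := (hA.a c _).2 h4
        have h7 := hconst (k + 1) hk
          (C.r.symm (C.r.symm (C.a (C.r (C.r (MIX.gal C u0 k)))))) (by
            have := MIX.gal_p C hu0 (k + 1)
            rw [MIX.gal, if_neg hk2] at this
            rw [this]) 2
        rw [pow_two, Equiv.Perm.mul_apply, Equiv.apply_symm_apply, Equiv.apply_symm_apply] at h7
        exact h7.1 h6
  exact hend (hall N le_rfl)

end Low

end Pool.CX
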