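import Pool.Agent.Work.MP_727c87_lo.Loc

/-!
# MP_727c87_gt, part LOW, block NCR (helper53): pieces in one chamber do not cross
-/

set_option autoImplicit false

namespace Pool.CX

open Pool.CS Pool.W1P

variable {Mo : Model}

namespace Low

namespace NCR

lemma sub_val (a b : ℕ) (hb : b ≤ 12) : ((a : ZMod 12) - (b : ZMod 12)).val = (a + 12 - b) % 12 := by
  have h : ((a : ZMod 12) - (b : ZMod 12)) = ((a + 12 - b : ℕ) : ZMod 12) := by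
    rw [Nat.cast_sub (by omega), Nat.cast_add]
    have h12 : ((12 : ℕ) : ZMod 12) = 0 := by decide
    rw [h12, add_zero]
  rw [h, ZMod.val_natCast]

/-- crossing in terms of natural numbers -/
lemma cross_nat (m n m' n' : ℕ) (h1 : 1 ≤ m) (h2 : m < n) (h3 : n ≤ 12) (h1' : 1 ≤ m')
    (h2' : m' < n') (h3' : n' ≤ 12) (s t s' t' : ZMod 12)
    (hst : (s = (m : ZMod 12) ∧ t = (n : ZMod 12)) ∨ (s = (n : ZMod 12) ∧ t = (m : ZMod 12)))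
    (hst' : (s' = (m' : ZMod 12) ∧ t' = (n' : ZMod 12)) ∨
      (s' = (n' : ZMod 12) ∧ t' = (m' : ZMod 12))) (h : Cross s t s' t') :
    (m < m' ∧ m' < n ∧ n < n') ∨ (m' < m ∧ m < n' ∧ n' < n) := by
  rcases hst with ⟨rfl, rfl⟩ | ⟨rfl, rfl⟩ <;> rcases hst' with ⟨rfl, rfl⟩ | ⟨rfl, rfl⟩ <;>
  · unfold Cross Btw at h
    rw [sub_val _ _ (by omega), sub_val _ _ (by omega), sub_val _ _ (by omega),
      sub_val _ _ (by omega), sub_val _ _ (by omega), sub_val _ _ (by omega)] at h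
    omega

/-- four nonempty quadrants -/
lemma quad {Y : Type} (A1 A2 : Set Y) (y0 y1 y2 y3 : Y) (h1 : ¬ (y1 ∈ A1 ↔ y0 ∈ A1))
    (h1' : y1 ∈ A2 ↔ y0 ∈ A2) (h2 : ¬ (y2 ∈ A1 ↔ y0 ∈ A1)) (h2' : ¬ (y2 ∈ A2 ↔ y0 ∈ A2))
    (h3 : y3 ∈ A1 ↔ y0 ∈ A1) (h3' : ¬ (y3 ∈ A2 ↔ y0 ∈ A2))
    (hn : A1 ⊆ A2 ∨ A1 ⊆ A2ᶜ ∨ A1ᶜ ⊆ A2 ∨ A1ᶜ ⊆ A2ᶜ) : False := by
  have h4 : (∀ y, y ∈ A1 → y ∈ A2) ∨ (∀ y, y ∈ A1 → y ∉ A2) ∨ (∀ y, y ∉ A1 → y ∈ A2) ∨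
      ∀ y, y ∉ A1 → y ∉ A2 := hn
  rcases h4 with h4 | h4 | h4 | h4 <;>
  · have a0 := h4 y0
    have a1 := h4 y1
    have a2 := h4 y2
    have a3 := h4 y3
    clear h4 hn
    by_cases p0 : y0 ∈ A1 <;> by_cases q0 : y0 ∈ A2 <;>
    · simp only [p0, q0, iff_true, iff_false, not_not, not_true, not_false_eq_true] at *
      simp_all

/-- two pieces with the same base flag, first order -/
lemma no_cross (C : Cov Mo) (A1 A2 : Set C.Y) (y0 : C.Y) (m n m' n' : ℕ)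
    (P : Pce C A1 y0 m n) (P' : Pce C A2 y0 m' n')
    (hn : A1 ⊆ A2 ∨ A1 ⊆ A2ᶜ ∨ A1ᶜ ⊆ A2 ∨ A1ᶜ ⊆ A2ᶜ) (h : m < m' ∧ m' < n ∧ n < n') : False := by
  obtain ⟨h1, h2, h3⟩ := h
  exact quad A1 A2 y0 ((C.r ^ (m' - 1)) y0) ((C.r ^ m') y0) ((C.r ^ n) y0)
    (P.mem (m' - 1) (by omega) (by omega)) P'.left (P.mem m' (by omega) (by omega))
    (P'.mem m' le_rfl (by omega)) P.right (P'.mem n (by omega) h3) hn

lemma nest_symm {Y : Type} {A1 A2 : Set Y}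
    (hn : A1 ⊆ A2 ∨ A1 ⊆ A2ᶜ ∨ A1ᶜ ⊆ A2 ∨ A1ᶜ ⊆ A2ᶜ) :
    A2 ⊆ A1 ∨ A2 ⊆ A1ᶜ ∨ A2ᶜ ⊆ A1 ∨ A2ᶜ ⊆ A1ᶜ := by
  rcases hn with h | h | h | h
  · exact Or.inr (Or.inr (Or.inr (Set.compl_subset_compl.2 h)))
  · exact Or.inr (Or.inl (Set.subset_compl_comm.1 h))
  · exact Or.inr (Or.inr (Or.inl (Set.compl_subset_comm.1 h)))
  · exact Or.inl (Set.compl_subset_compl.1 h)

lemma pow_comm (C : Cov Mo) (g : C.deck) (k : ℕ) (y : C.Y) :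
    g.1 ((C.r ^ k) y) = (C.r ^ k) (g.1 y) := by
  induction k with
  | zero => rfl
  | succ k ih =>
    rw [pow_succ', Equiv.Perm.mul_apply, Equiv.Perm.mul_apply, g.2.2.1, ih]

end NCR

theorem blk_NCR : Stmt_NCR := by
  intro Mo C hC M dv K1 K2 T A hA q s t s' t' h h' hcross
  obtain ⟨c, y0, m, n, hq, P, hst⟩ := h
  obtain ⟨c', y0', m', n', hq', P', hst'⟩ := h'
  have hp : C.p y0' = C.p y0 := Prod.ext (hq'.trans hq.symm) (P'.base.trans P.base.symm)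
  obtain ⟨e, he⟩ := hC.exists_aut hp
  obtain ⟨g, hg⟩ : ∃ g : C.deck, g.1 y0' = y0 := ⟨⟨e.e, e.a, e.r, e.p⟩, he⟩
  have key : ∀ k, ((C.r ^ k) y0 ∈ A (g • c') ↔ (C.r ^ k) y0' ∈ A c') := by
    intro k
    rw [← hg, ← NCR.pow_comm]
    exact hA.eqv g c' _
  have key0 : y0 ∈ A (g • c') ↔ y0' ∈ A c' := key 0
  have P2 : Pce C (A (g • c')) y0 m' n' := by
    refine ⟨P.base, P.nd, P'.pos, P'.lt, P'.le, ?_, ?_, ?_⟩
    · intro k h1 h2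
      rw [key k, key0]
      exact P'.mem k h1 h2
    · rw [key, key0]; exact P'.left
    · rw [key, key0]; exact P'.right
  have hn : A c ⊆ A (g • c') ∨ A c ⊆ (A (g • c'))ᶜ ∨ (A c)ᶜ ⊆ A (g • c') ∨
      (A c)ᶜ ⊆ (A (g • c'))ᶜ := by
    rcases T.nested c (g • c') with h | h | h | h
    · exact Or.inl (hA.mono _ _ h)
    · refine Or.inr (Or.inl ?_)
      have := hA.mono _ _ h
      rwa [hA.op] at this
    · refine Or.inr (Or.inr (Or.inl ?_))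
      have := hA.mono _ _ h
      rwa [hA.op] at this
    · refine Or.inr (Or.inr (Or.inr ?_))
      have := hA.mono _ _ h
      rwa [hA.op, hA.op] at this
  rcases NCR.cross_nat m n m' n' P.pos P.lt P.le P'.pos P'.lt P'.le s t s' t' hst hst' hcross with
    h | h
  · exact NCR.no_cross C _ _ y0 m n m' n' P P2 hn h
  · exact NCR.no_cross C _ _ y0 m' n' m n P2 P (NCR.nest_symm hn) h

end Low

end Pool.CX
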