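import Pool.Agent.Work.MP_727c87_lo.Min

/-!
# Block SUB: submodularity of the coboundary
-/

set_option autoImplicit false

namespace Pool.CX.Low

open Set

theorem SUB.union_sub {S : Type} (w : WS S) (A B : Set S) :
    cob w (A ∪ B) ∪ cob w (A ∩ B) ⊆ cob w A ∪ cob w B := by
  intro s hs
  simp only [cob, mem_union, mem_inter_iff, mem_setOf_eq] at hs ⊢
  tauto

theorem SUB.inter_sub {S : Type} (w : WS S) (A B : Set S) :
    cob w (A ∪ B) ∩ cob w (A ∩ B) ⊆ cob w A ∩ cob w B := by
  intro s hs
  simp only [cob, mem_union, mem_inter_iff, mem_setOf_eq] at hs ⊢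
  tauto

theorem blk_SUB : Stmt_SUB := by
  intro S w A B
  refine ⟨?_, fun hA hB => ?_⟩
  · ext s
    simp only [cob, mem_setOf_eq, mem_compl_iff]
    tauto
  · have hU := (hA.union hB).subset (SUB.union_sub w A B)
    have h1 : (cob w (A ∪ B)).Finite := hU.subset subset_union_left
    have h2 : (cob w (A ∩ B)).Finite := hU.subset subset_union_right
    refine ⟨h1, h2, ?_⟩
    rw [← ncard_union_add_ncard_inter (cob w (A ∪ B)) (cob w (A ∩ B)) h1 h2,
      ← ncard_union_add_ncard_inter (cob w A) (cob w B) hA hB]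
    exact Nat.add_le_add (ncard_le_ncard (SUB.union_sub w A B) (hA.union hB))
      (ncard_le_ncard (SUB.inter_sub w A B) (hA.subset inter_subset_left))

end Pool.CX.Low
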